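import Pool.Agent.helper20.HP.Goal
import Pool.Agent.helper65.UT.ZBound

/-! # MP_5ae64c_pr, module B4: the level bound (helper65) -/

open scoped BigOperators Topology
open Filter MeasureTheory

namespace Pool.Agent.helper20.HP

open Finset Pool.Agent.helper65

variable {V : Type} [Fintype V] [DecidableEq V] {K : HW V} {θ : ℝ} {h : ℕ}

theorem B4_ind_eq (P : Prop) : ind P = UT.ind P := by
  by_cases hP : P
  · rw [UT.ind_of hP]; unfold ind; simp [hP]
  · rw [UT.ind_of_not hP]; unfold ind; simp [hP]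

theorem B4_W_eq (K : HW V) (k : ℕ) (x : V) (f : List V → ℝ) : W K k x f = UT.W K.p k x f := by
  induction k generalizing x f with
  | zero => rfl
  | succ k ih =>
    unfold W
    rw [UT.W_succ]
    exact sum_congr rfl fun y _ => by rw [ih]

omit [Fintype V] in
theorem B4_lel_eq (x : V) (l : List V) (q : ℕ) : lel x l = q ↔ (UT.run [x] l).length = q + 1 := by
  have h1 : run [x] l = UT.run [x] l := rfl
  obtain ⟨δ, hδ⟩ := UT.run_ends x l
  unfold lel
  rw [h1, hδ, List.length_append, List.length_singleton]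
  omega

theorem B4_W_endpt (p : V → V → ℝ) (t : ℕ) (x y : V) :
    UT.W p t x (fun l => UT.ind (UT.endpt x l = y)) = ptOf p t x y := by
  induction t generalizing x with
  | zero =>
    rw [UT.W_zero]
    unfold ptOf
    by_cases h : x = y
    · rw [if_pos h, UT.ind_of (by simpa using h)]
    · rw [if_neg h, UT.ind_of_not (by simpa using h)]
  | succ t ih =>
    rw [UT.W_succ]
    unfold ptOf
    refine sum_congr rfl fun z _ => ?_
    rw [← ih z]
    simp only [UT.endpt_cons]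

theorem B4_gA (K : HW V) (L : ℕ) (x : V) : UT.gA K.p [] L x = K.pt L x x := by
  unfold HW.pt
  rw [← B4_W_endpt]
  unfold UT.gA
  exact UT.W_congr _ _ _ fun l _ => UT.ind_congr (by simp)

theorem B4_pt_nonneg (K : HW V) (t : ℕ) (x y : V) : 0 ≤ K.pt t x y := by
  unfold HW.pt
  rw [← B4_W_endpt]
  exact UT.W_nonneg _ K.nonneg _ _ fun _ _ => UT.ind_nonneg _

theorem B4_ptOf_map (p : V → V → ℝ) (σ : V ≃ V) (hσ : ∀ x y, p (σ x) (σ y) = p x y) (t : ℕ)
    (x y : V) : ptOf p t (σ x) (σ y) = ptOf p t x y := by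
  induction t generalizing x with
  | zero => unfold ptOf; simp
  | succ t ih =>
    unfold ptOf
    rw [← Equiv.sum_comp σ]
    exact sum_congr rfl fun z _ => by rw [hσ, ih]

theorem B4_cc (K : HW V) (t : ℕ) (x : V) : K.pt t x x = cc K t := by
  have h1 : ∀ y, K.pt t y y = K.pt t x x := by
    intro y
    obtain ⟨σ, hσ, hxy⟩ := K.homog x y
    rw [← hxy]
    exact B4_ptOf_map K.p σ hσ t x x
  unfold cc
  simp_rw [h1]
  have hc : (0 : ℝ) < Fintype.card V := by exact_mod_cast Fintype.card_pos_iff.2 ⟨x⟩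
  rw [sum_const, card_univ, nsmul_eq_mul, mul_div_cancel_left₀ _ hc.ne']

theorem B4_homog (K : HW V) :
    ∀ x y : V, ∃ σ : V ≃ V, σ x = y ∧ ∀ a b, K.p (σ a) (σ b) = K.p a b := by
  intro x y
  obtain ⟨σ, h1, h2⟩ := K.homog x y
  exact ⟨σ, h2, h1⟩

theorem B4_Zq_eq (K : HW V) (T q : ℕ) (x : V) : Zq K T q x = UT.Z K.p T x q := by
  unfold Zq UT.Z
  refine sum_congr rfl fun t _ => ?_
  rw [B4_W_eq]
  refine UT.W_congr _ _ _ fun l _ => ?_
  rw [B4_ind_eq]
  by_cases h1 : (UT.run [x] l).length = q + 1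
  · rw [if_pos h1, UT.ind_of ((B4_lel_eq x l q).2 h1)]
  · rw [if_neg h1, UT.ind_of_not (fun h2 => h1 ((B4_lel_eq x l q).1 h2))]

theorem Zq_nonneg (T q : ℕ) (x : V) : 0 ≤ Zq K T q x := by
  rw [B4_Zq_eq]
  exact UT.Z_nonneg _ K.nonneg _ _ _

theorem Zq_inv (T q : ℕ) (x y : V) : Zq K T q x = Zq K T q y := by
  rw [B4_Zq_eq, B4_Zq_eq]
  obtain ⟨σ, hσ, hp⟩ := B4_homog K x y
  rw [← hσ, UT.Z_map K.p σ hp]

theorem Zq_mono {T T' : ℕ} (hT : T ≤ T') (q : ℕ) (x : V) : Zq K T q x ≤ Zq K T' q x := by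
  unfold Zq
  refine sum_le_sum_of_subset_of_nonneg ?_ fun t _ _ => ?_
  · intro t ht
    rw [mem_range] at ht ⊢
    omega
  · rw [B4_W_eq]
    refine UT.W_nonneg _ K.nonneg _ _ fun l _ => ?_
    rw [B4_ind_eq]
    exact UT.ind_nonneg _

theorem Zq_submult (T q q' : ℕ) (x : V) : Zq K T (q + q') x ≤ Zq K T q x * Zq K T q' x := by
  rw [B4_Zq_eq, B4_Zq_eq, B4_Zq_eq]
  exact UT.Z_submul K.p K.nonneg (B4_homog K) T x q q'

theorem B4_green (hP : Par K θ h) {T : ℕ} (hT : T ≤ Nat.sqrt (Fintype.card V)) (x : V) :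
    ∑ L ∈ range (T + 1), (L : ℝ) * UT.gA K.p [] L x ≤ θ := by
  refine le_trans ?_ hP.green
  have h1 : ∑ L ∈ range (T + 1), (L : ℝ) * UT.gA K.p [] L x
      ≤ ∑ L ∈ range (T + 1), ((L : ℝ) + 1) * cc K L := by
    refine sum_le_sum fun L _ => ?_
    rw [B4_gA, B4_cc]
    have := B4_pt_nonneg K L x x
    rw [B4_cc] at this
    nlinarith
  refine h1.trans (sum_le_sum_of_subset_of_nonneg ?_ fun L _ _ => ?_)
  · intro L hL
    rw [mem_range] at hL ⊢
    omega
  · refine mul_nonneg (by positivity) ?_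
    rw [← B4_cc K L x]
    exact B4_pt_nonneg K L x x

theorem Zq_le (hP : Par K θ h) (T q : ℕ) (x : V) (hT : T ≤ Nat.sqrt (Fintype.card V)) :
    Zq K T q x ≤ CZ θ := by
  rw [B4_Zq_eq]
  exact UT.Z_le K.p K.nonneg K.sum_one (B4_homog K) θ (by linarith [hP.one_le]) T
    (fun x => B4_green hP hT x) x q

end Pool.Agent.helper20.HP
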