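import Pool.Agent.helper20.HP.Goal
import Pool.Agent.helper65.UT.FinalDedFin

/-! # MP_5ae64c_pr: `StarGoal → FinalGoal` (helper65) -/

open scoped BigOperators Topology
open Filter MeasureTheory

namespace Pool.Agent.helper65.HP

open Pool.Agent.helper20.HP Pool.Agent.helper65.UT

/-- joint measurability of a process with continuous paths on `(0,∞)` -/
theorem aestronglyMeasurable_process {Ω : Type} [MeasurableSpace Ω] (P : Measure Ω)
    [IsProbabilityMeasure P] (ell : ℝ → Ω → ℝ) (hm : ∀ r, 0 < r → AEMeasurable (ell r) P)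
    (hc : ∀ᵐ ω ∂P, ContinuousOn (fun r => ell r ω) (Set.Ioi 0)) (s : ℝ) :
    AEStronglyMeasurable (fun z : Ω × ℝ => ell z.2 z.1)
      (P.prod (volume.restrict (Set.Ioc 0 s))) := by
  -- measurable versions
  let e : ℝ → Ω → ℝ := fun r => if h : 0 < r then (hm r h).mk (ell r) else fun _ => 0
  have hem : ∀ r, Measurable (e r) := by
    intro r
    by_cases h : 0 < r
    · simp only [e, dif_pos h]; exact (hm r h).measurable_mk
    · simp only [e, dif_neg h]; exact measurable_const
  have hee : ∀ r, 0 < r → ∀ᵐ ω ∂P, ell r ω = e r ω := by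
    intro r h
    simp only [e, dif_pos h]
    exact (hm r h).ae_eq_mk
  -- dyadic type approximations
  let φ : ℕ → ℕ → ℝ := fun n k => ((k : ℝ) + 1) / ((n : ℝ) + 1)
  have hφ : ∀ n k, 0 < φ n k := fun n k => by positivity
  let F : ℕ → Ω × ℝ → ℝ := fun n z => e (φ n ⌊z.2 * ((n : ℝ) + 1)⌋₊) z.1
  have hF : ∀ n, Measurable (F n) := by
    intro n
    have h1 : Measurable (fun z : ℕ × Ω => e (φ n z.1) z.2) :=
      measurable_from_prod_countable_right (fun k => by
        show Measurable (fun y => e (φ n k) y)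
        exact hem (φ n k))
    have h2 : Measurable (fun z : Ω × ℝ => (⌊z.2 * ((n : ℝ) + 1)⌋₊, z.1)) :=
      (Nat.measurable_floor.comp (measurable_snd.mul_const _)).prodMk measurable_fst
    exact h1.comp h2
  refine aestronglyMeasurable_of_tendsto_ae atTop (f := F)
    (fun n => (hF n).aestronglyMeasurable) ?_
  have hgood : ∀ᵐ ω ∂P, ContinuousOn (fun r => ell r ω) (Set.Ioi 0) ∧
      ∀ n k : ℕ, ell (φ n k) ω = e (φ n k) ω := by
    have h1 : ∀ᵐ ω ∂P, ∀ n k : ℕ, ell (φ n k) ω = e (φ n k) ω := by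
      rw [ae_all_iff]; intro n
      rw [ae_all_iff]; intro k
      exact hee _ (hφ n k)
    filter_upwards [hc, h1] with ω a b using ⟨a, b⟩
  have hgood' : ∀ᵐ z ∂(P.prod (volume.restrict (Set.Ioc 0 s))),
      ContinuousOn (fun r => ell r z.1) (Set.Ioi 0) ∧
        ∀ n k : ℕ, ell (φ n k) z.1 = e (φ n k) z.1 :=
    Measure.quasiMeasurePreserving_fst.ae hgood
  have hpos : ∀ᵐ z ∂(P.prod (volume.restrict (Set.Ioc 0 s))), 0 < z.2 := by
    have : ∀ᵐ u ∂((volume : Measure ℝ).restrict (Set.Ioc 0 s)), 0 < u := by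
      filter_upwards [ae_restrict_mem measurableSet_Ioc] with u hu using hu.1
    exact Measure.quasiMeasurePreserving_snd.ae this
  filter_upwards [hgood', hpos] with z hz hz2
  have hlim : Tendsto (fun n : ℕ => φ n ⌊z.2 * ((n : ℝ) + 1)⌋₊) atTop (𝓝 z.2) := by
    have hn : Tendsto (fun n : ℕ => (1 : ℝ) / ((n : ℝ) + 1)) atTop (𝓝 0) :=
      tendsto_one_div_add_atTop_nhds_zero_nat
    refine tendsto_of_tendsto_of_tendsto_of_le_of_le (g := fun _ => z.2)
      (h := fun n : ℕ => z.2 + 1 / ((n : ℝ) + 1)) tendsto_const_nhds ?_ ?_ ?_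
    · simpa using tendsto_const_nhds.add hn
    · intro n
      have hp : (0 : ℝ) < (n : ℝ) + 1 := by positivity
      have := Nat.lt_floor_add_one (z.2 * ((n : ℝ) + 1))
      simp only [φ]
      rw [le_div_iff₀ hp]
      exact this.le
    · intro n
      have hp : (0 : ℝ) < (n : ℝ) + 1 := by positivity
      have := Nat.floor_le (a := z.2 * ((n : ℝ) + 1)) (by positivity)
      simp only [φ]
      rw [div_le_iff₀ hp, add_mul, one_div_mul_cancel hp.ne']
      linarith
  have hcont : ContinuousAt (fun r => ell r z.1) z.2 :=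
    hz.1.continuousAt (Ioi_mem_nhds hz2)
  have h3 := hcont.tendsto.comp hlim
  refine h3.congr fun n => ?_
  simp only [Function.comp, F]
  exact hz.2 n _

theorem vol_aemeasurable {Ω : Type} [MeasurableSpace Ω] (P : Measure Ω)
    [IsProbabilityMeasure P] (ell : ℝ → Ω → ℝ) (hm : ∀ r, 0 < r → AEMeasurable (ell r) P)
    (hc : ∀ᵐ ω ∂P, ContinuousOn (fun r => ell r ω) (Set.Ioi 0)) (s : ℝ) (hs : 0 < s) :
    AEMeasurable (fun ω => ∫ u in (0 : ℝ)..s, ell u ω) P := by
  have h1 := (aestronglyMeasurable_process P ell hm hc s).integral_prod_right'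
  have h2 : (fun ω => ∫ u in (0 : ℝ)..s, ell u ω)
      = fun ω => ∫ u, ell u ω ∂(volume.restrict (Set.Ioc 0 s)) := by
    funext ω
    rw [intervalIntegral.integral_of_le hs.le]
  rw [h2]
  exact h1.aemeasurable

theorem slope_tendsto (f : ℝ → ℝ) (hc : ContinuousOn f (Set.Ioi 0))
    (hi : ∀ r, 0 < r → IntervalIntegrable f volume 0 r) (r : ℝ) (hr : 0 < r) :
    Tendsto (fun ε : ℝ => ((∫ u in (0 : ℝ)..(r + ε), f u) - ∫ u in (0 : ℝ)..r, f u) / ε) (𝓝[>] 0)
      (𝓝 (f r)) := by
  have h1 : HasDerivAt (fun x => ∫ u in (0 : ℝ)..x, f u) (f r) r := by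
    refine intervalIntegral.integral_hasDerivAt_right (hi r hr) ?_ ?_
    · exact hc.stronglyMeasurableAtFilter isOpen_Ioi r hr
    · exact hc.continuousAt (Ioi_mem_nhds hr)
  have h2 := h1.tendsto_slope_zero_right
  refine h2.congr fun ε => ?_
  rw [smul_eq_mul, inv_mul_eq_div]


/-! ## the profile of a tree -/

section Tree

variable {V : Type} [Fintype V]

theorem sum_height (T : SimpleGraph V) (o : V) (M : ℕ) :
    ∑ s ∈ Finset.range M, height T o s
      = (Finset.univ.filter (fun v => T.dist o v < M)).card := by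
  classical
  unfold height
  rw [Finset.card_eq_sum_card_fiberwise (f := fun v => T.dist o v) (t := Finset.range M)]
  · refine Finset.sum_congr rfl fun s hs => ?_
    congr 1
    ext v
    simp only [Finset.mem_filter, Finset.mem_univ, true_and]
    rw [Finset.mem_range] at hs
    constructor
    · intro h; exact ⟨by omega, h⟩
    · intro h; exact h.2
  · intro v hv
    simpa using hv

theorem vol_eq_sum (T : SimpleGraph V) (o : V) (r : ℕ) :
    vol T o r = ∑ s ∈ Finset.range (r + 1), height T o s := by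
  rw [sum_height]
  unfold vol
  congr 1
  ext v
  simp

theorem sum_height_le (T : SimpleGraph V) (o : V) (M : ℕ) :
    ∑ s ∈ Finset.range M, height T o s ≤ Fintype.card V := by
  rw [sum_height]
  exact Finset.card_le_univ _

end Tree

theorem ustE_eq_favg {V : Type} [Fintype V] (G : SimpleGraph V) (F : SimpleGraph V → ℝ) :
    ustE G F = favg (fun T : {T // T ∈ spTrees G} => F T.1) := by
  unfold ustE favg
  rw [Fintype.card_coe, Finset.sum_coe_sort (spTrees G) F]

theorem spTrees_nonempty {V : Type} [Fintype V] (G : SimpleGraph V) (h : G.Connected) :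
    Nonempty {T // T ∈ spTrees G} := by
  obtain ⟨T, hT, hT'⟩ := h.exists_isTree_le
  exact ⟨⟨T, by simp [spTrees, hT, hT']⟩⟩

/-- **Final deduction**: macroscopic continuity of the height profile implies the theorem. -/
theorem final_of_star (h : StarGoal) : FinalGoal := by
  intro S β b₁ b₂ hb hβ Ω _ P _ ell hm hc hi hconv m s hs F
  have hne : ∀ k, Nonempty {T // T ∈ spTrees (S.G k)} := fun k => spTrees_nonempty _ (S.conn k)
  have key := fdd_of_smooth_fin (T := fun k => {T // T ∈ spTrees (S.G k)})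
    (fun k => Fintype.card (S.V k)) S.card β b₁ b₂ hb (fun k => (hβ k).1) (fun k => (hβ k).2)
    (fun k T r => (height T.1 (S.o k) r : ℝ)) (fun k T r => Nat.cast_nonneg _)
    (fun k T M => by exact_mod_cast sum_height_le T.1 (S.o k) M)
    (fun A hA ε hε => by
      obtain ⟨δ, hδ, hev⟩ := h S A ε hA hε
      refine ⟨δ, hδ, ?_⟩
      filter_upwards [hev] with k hk r r' hr hr' hrr'
      have := hk r r' hr hr' hrr'
      rwa [ustE_eq_favg] at this)
    P (fun ω r => ∫ u in (0 : ℝ)..r, ell u ω) (fun ω r => ell r ω)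
    (fun r hr => vol_aemeasurable P ell hm hc r hr)
    (fun r hr => by
      filter_upwards [hc, hi] with ω h1 h2
      exact slope_tendsto (fun u => ell u ω) h1 h2 r hr)
    (fun m r hr g => by
      have := hconv m r hr g
      simp_rw [ustE_eq_favg, vol_eq_sum] at this
      push_cast at this
      simp_rw [Finset.sum_div] at this
      exact this)
    m s hs F
  simp_rw [ustE_eq_favg]
  exact key

end Pool.Agent.helper65.HP
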