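import Pool.Agent.helper65.HP.MacI

/-! # MP_5ae64c_pr, module MA: the macroscopic shift (asymptotic form) -/

open scoped BigOperators Topology
open Filter MeasureTheory

namespace Pool.Agent.helper20.HP

section

variable {V : Type} [Fintype V] [DecidableEq V] {K : HW V} {θ : ℝ} {h : ℕ}

/-- the case `r ≤ r' = r + a`, all constants explicit -/
theorem MA_step (hP : Par K θ h) (A α ε δ ε1 c c' c'' : ℝ) (hA : 0 ≤ A) (hα : 0 < α)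
    (hα' : α ≤ 1 / 4) (hε : 0 < ε)
    (hδ : δ * (64 * θ) ≤ 1)
    (hδ' : 4 * θ * δ * (5 / 2 * CZ θ + 15 / 2 * CP θ * ((A + 2) * (2 * A + 2))) ≤ ε / 4)
    (hε1 : 0 < ε1) (hε1' : ε1 ≤ 1 / 8) (hε1'' : 3 * ε1 * (4 * CP θ * (A + 4)) ≤ ε / 4)
    (hc8 : c ≤ 1 / 8) (hcε : 38 * c ≤ ε1)
    (hc1 : 64 * (5 / 2 * CZ θ + 15 / 2 * CP θ * ((A + 2) * (2 * A + 2))) * c ≤ ε)
    (hc2 : 32 * (5 * CZ θ) * c ≤ ε) (hc3 : 16 * (CP θ * (A + 2)) * c ≤ ε)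
    (hc' : c' ≤ 1 / (16 * θ)) (hc'' : c' ≤ ε1 ^ 2 / 16)
    (hcc : 12 * (CP θ * (3 * A + 8)) * c'' ≤ ε)
    (hX4 : 4 ≤ Fintype.card V) (hg : (Fintype.card V : ℝ) ^ (-(α / 8)) ≤ c)
    (hexp : (Fintype.card V : ℝ) * Real.exp (-c' * (Fintype.card V : ℝ) ^ (α / 4)) ≤ c'')
    (hh : (h : ℝ) ≤ (Fintype.card V : ℝ) ^ (1 / 2 - α))
    (Γ : List V) (hΓ : Γ.Nodup) (hΓA : (Γ.length : ℝ) ≤ A * Nat.sqrt (Fintype.card V))
    (w : ℕ) (hw1 : (Fintype.card V : ℝ) ^ (1 / 2 - α / 8) / 2 ≤ w)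
    (hw2 : (w : ℝ) ≤ 2 * (Fintype.card V : ℝ) ^ (1 / 2 - α / 8))
    (r a : ℕ) (hr : (r : ℝ) + a ≤ A * Nat.sqrt (Fintype.card V))
    (haδ : (a : ℝ) ≤ δ * Nat.sqrt (Fintype.card V)) :
    |∑ y ∈ Finset.range w, Phi K Γ (r + a + y) - ∑ y ∈ Finset.range w, Phi K Γ (r + y)|
      ≤ ε * (w * Nat.sqrt (Fintype.card V)) := by
  have hθ := hP.one_le
  have hh1 : (1 : ℝ) ≤ h := by exact_mod_cast hP.h_pos
  have hCP := MacG_CP_nonneg hP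
  have hCZ := MacG_CZ_nonneg θ
  obtain ⟨X, hX⟩ : ∃ X : ℝ, X = (Fintype.card V : ℝ) := ⟨_, rfl⟩
  have hX4' : (4 : ℝ) ≤ X := by rw [hX]; exact_mod_cast hX4
  have hXp : 0 < X := by linarith
  obtain ⟨q1, q2, q3, q4⟩ := MacI_powers α X hXp
  rw [← hX] at hg hexp hh hw1 hw2
  have hu0 : 1 ≤ X ^ (1 / 2 - α / 2) := Real.one_le_rpow (by linarith) (by linarith)
  have hp0 : 0 < X ^ (1 / 2 : ℝ) := Real.rpow_pos_of_pos hXp _
  have hg0 : 0 < X ^ (-(α / 8)) := Real.rpow_pos_of_pos hXp _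
  have hY0 : 0 < X ^ (α / 4) := Real.rpow_pos_of_pos hXp _
  have hpp : X ^ (1 / 2 : ℝ) * X ^ (1 / 2 : ℝ) = X := by
    rw [← Real.rpow_add hXp]
    norm_num
  rw [q1] at hu0
  rw [q2] at hh
  rw [q3] at hw1 hw2
  clear q1 q2 q3
  generalize X ^ (1 / 2 : ℝ) = p at *
  generalize X ^ (-(α / 8)) = g at *
  generalize X ^ (α / 4) = Y at *
  obtain ⟨hLp, hpL, hL2⟩ := MacI_sqrt (Fintype.card V) hX4 p hp0 (by rw [hpp, hX])
  have hg1 : g ≤ 1 / 8 := hg.trans hc8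
  obtain ⟨g2, g3, g4, g4', g8, g42⟩ := MacI_pow g hg0 hg1
  obtain ⟨B, hB⟩ : ∃ B : ℕ, B = ⌈p * g ^ 4⌉₊ := ⟨_, rfl⟩
  have hB1 : p * g ^ 4 ≤ B := by rw [hB]; exact Nat.le_ceil _
  have hB2 : (B : ℝ) ≤ p * g ^ 4 + 1 := by
    rw [hB]; exact (Nat.ceil_lt_add_one (by linarith)).le
  obtain ⟨z1, z2, z3, z4, z5, z6, z7, z8, z9, z10, z11, z12⟩ :=
    MacI_sizes p g (Nat.sqrt (Fintype.card V) : ℕ) B w h ε1 c hp0 hg0 hg1 hLp hpL hu0 hB1 hB2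
      hw1 hw2 hh1 hh hg hcε
  obtain ⟨m1, m2, m3⟩ := MacI_M p g hp0 hg0 hg1 h B hP.h_pos hh hB1
  have hL0 : (0 : ℝ) < (Nat.sqrt (Fintype.card V) : ℕ) := by
    have : (2 : ℝ) ≤ (Nat.sqrt (Fintype.card V) : ℕ) := by exact_mod_cast hL2
    linarith
  have hB0 : (0 : ℝ) < B := by linarith
  by_cases haB : 4 * B < a
  swap
  · push Not at haB
    have haB' : (a : ℝ) ≤ 4 * B := by exact_mod_cast haB
    refine (MacH_small hP Γ hΓ r a w).trans ?_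
    exact MacI_small a A w _ r B g (CP θ) ε c hA (Nat.cast_nonneg _) z12.le hL0.le hr z2 haB'
      z1 (g3.trans hg) hg0.le hCP hc3
  · have hx0 : Nonempty V := Fintype.card_pos_iff.1 (by omega)
    obtain ⟨x0⟩ := hx0
    have hBL : 16 * B ≤ Nat.sqrt (Fintype.card V) := by exact_mod_cast z3
    have hwL4 : w + 4 * h ≤ Nat.sqrt (Fintype.card V) := by exact_mod_cast z4
    have hhw : h ≤ w := by exact_mod_cast z5
    have hB1' : 1 ≤ B := by exact_mod_cast hB0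
    have key := MacH_core hP A hA Γ hΓ hΓA x0 r a w (B / (8 * h)) B m1 hB1' m2 δ ε1 hδ hε1 hε1'
      haδ haB hBL hr hwL4 hhw z6 _ le_rfl
    refine key.trans ?_
    clear key
    have hw1' : (1 : ℝ) ≤ w := by
      have h1 : 0 < w := by exact_mod_cast z12
      exact_mod_cast h1
    have hMY : Y / 8 ≤ ((B / (8 * h) : ℕ) : ℝ) + 1 := by
      have h1 : Y * 1 ≤ Y * (8 * g ^ 2 * (((B / (8 * h) : ℕ) : ℝ) + 1)) :=
        mul_le_mul_of_nonneg_left m3 hY0.le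
      have h2 : Y * (8 * g ^ 2 * (((B / (8 * h) : ℕ) : ℝ) + 1))
          = (Y * g ^ 2) * (8 * (((B / (8 * h) : ℕ) : ℝ) + 1)) := by ring
      rw [h2, q4] at h1
      linarith
    have p1 := MacI_exp1 θ c' Y hθ (B / (8 * h)) hY0.le hMY hc'
    have p2 := MacI_exp2 p g Y (Nat.sqrt (Fintype.card V) : ℕ) w B ε1 c' hp0 hg0 hY0.le hL0 hB0
      hLp z7 hw1 q4 hc''
    have p1' : 0 ≤ (1 - 1 / (2 * θ)) ^ (B / (8 * h)) := by
      apply pow_nonneg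
      rw [sub_nonneg, div_le_one (by linarith)]
      linarith
    have p2' := (Real.exp_pos (- (ε1 ^ 2 * (w : ℝ) ^ 2 / (2 * ((Nat.sqrt (Fintype.card V) : ℝ) * B))))).le
    rw [hpp] at z10 z11
    generalize (1 - 1 / (2 * θ)) ^ (B / (8 * h)) = e1 at *
    generalize Real.exp (- (ε1 ^ 2 * (w : ℝ) ^ 2 / (2 * ((Nat.sqrt (Fintype.card V) : ℝ) * B)))) = e2 at *
    generalize Real.exp (-c' * Y) = e3 at *
    have k1 : ((Nat.sqrt (Fintype.card V) : ℕ) : ℝ) * ((Nat.sqrt (Fintype.card V) : ℝ) * e1) ≤ 2 * c'' := by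
      calc ((Nat.sqrt (Fintype.card V) : ℕ) : ℝ) * ((Nat.sqrt (Fintype.card V) : ℝ) * e1)
          = ((Nat.sqrt (Fintype.card V) : ℝ) * (Nat.sqrt (Fintype.card V) : ℝ)) * e1 := by ring
        _ ≤ X * (2 * e3) := mul_le_mul z10 p1 p1' hXp.le
        _ = 2 * (X * e3) := by ring
        _ ≤ 2 * c'' := by linarith
    have k2 : ((Nat.sqrt (Fintype.card V) : ℕ) : ℝ) * (4 * (B : ℝ) * e2) ≤ c'' := by
      calc ((Nat.sqrt (Fintype.card V) : ℕ) : ℝ) * (4 * (B : ℝ) * e2)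
          = ((Nat.sqrt (Fintype.card V) : ℝ) * (4 * (B : ℝ))) * e2 := by ring
        _ ≤ X * e3 := mul_le_mul z11 p2 p2' hXp.le
        _ ≤ c'' := hexp
    have hD1 : 0 ≤ 5 / 2 * CZ θ + 15 / 2 * CP θ * ((A + 2) * (2 * A + 2)) := by positivity
    have hD4 : 0 ≤ CP θ * (3 * A + 8) := by positivity
    have t1 := MacI_t1 w (Nat.sqrt (Fintype.card V) : ℕ) B g
      (5 / 2 * CZ θ + 15 / 2 * CP θ * ((A + 2) * (2 * A + 2))) θ δ ε c z12.le hL0.le hD1 z8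
      (g4.trans hg) hδ' hc1
    have t2 := MacI_t2 w (Nat.sqrt (Fintype.card V) : ℕ) g (5 * CZ θ) ε c h z12.le hL0.le
      (by positivity) z9 (g4.trans hg) hc2
    have t3 := MacI_t3 w (Nat.sqrt (Fintype.card V) : ℕ) (4 * CP θ * (A + 4)) ε ε1 z12.le hL0.le
      hε1''
    have t4 := MacI_t4 w (Nat.sqrt (Fintype.card V) : ℕ) (CP θ * (3 * A + 8)) ε c'' _ _ hw1' hL0.le
      hD4 hε k1 k2 hcc
    have := add_le_add (add_le_add (add_le_add t1 t2) t3) t4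
    refine this.trans (le_of_eq ?_)
    ring

end

theorem macro_shift (θ A α ε : ℝ) (hα : 0 < α) (hα' : α ≤ 1 / 4) (hε : 0 < ε) :
    ∃ δ : ℝ, 0 < δ ∧ ∃ n0 : ℕ, ∀ (V : Type) [Fintype V] [DecidableEq V] (K : HW V) (h : ℕ),
    Par K θ h → n0 ≤ Fintype.card V → (h : ℝ) ≤ (Fintype.card V : ℝ) ^ (1 / 2 - α) →
    ∀ Γ : List V, Γ.Nodup → (Γ.length : ℝ) ≤ A * Nat.sqrt (Fintype.card V) →
    ∀ w : ℕ, (Fintype.card V : ℝ) ^ (1 / 2 - α / 8) / 2 ≤ w →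
    (w : ℝ) ≤ 2 * (Fintype.card V : ℝ) ^ (1 / 2 - α / 8) →
    ∀ r r' : ℕ, (r : ℝ) ≤ A * Nat.sqrt (Fintype.card V) → (r' : ℝ) ≤ A * Nat.sqrt (Fintype.card V) →
    |(r : ℝ) - r'| ≤ δ * Nat.sqrt (Fintype.card V) →
    |∑ y ∈ Finset.range w, Phi K Γ (r + y) - ∑ y ∈ Finset.range w, Phi K Γ (r' + y)|
      ≤ ε * (w * Nat.sqrt (Fintype.card V)) := by
  by_cases hθ : 1 ≤ θ
  swap
  · exact ⟨1, one_pos, 0, fun V _ _ K h hP => absurd hP.one_le hθ⟩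
  obtain ⟨A', hA'⟩ : ∃ A' : ℝ, A' = max A 0 := ⟨_, rfl⟩
  have hA0 : 0 ≤ A' := by rw [hA']; exact le_max_right _ _
  have hAA : A ≤ A' := by rw [hA']; exact le_max_left _ _
  have hCZ := MacG_CZ_nonneg θ
  have hCP : 0 ≤ CP θ := by
    unfold CP
    positivity
  obtain ⟨D1, hD1⟩ : ∃ D : ℝ, D = 5 / 2 * CZ θ + 15 / 2 * CP θ * ((A' + 2) * (2 * A' + 2)) :=
    ⟨_, rfl⟩
  obtain ⟨D2, hD2⟩ : ∃ D : ℝ, D = 5 * CZ θ := ⟨_, rfl⟩
  obtain ⟨D3, hD3⟩ : ∃ D : ℝ, D = 4 * CP θ * (A' + 4) := ⟨_, rfl⟩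
  obtain ⟨D4, hD4⟩ : ∃ D : ℝ, D = CP θ * (3 * A' + 8) := ⟨_, rfl⟩
  obtain ⟨D5, hD5⟩ : ∃ D : ℝ, D = CP θ * (A' + 2) := ⟨_, rfl⟩
  have D1p : 0 ≤ D1 := by rw [hD1]; positivity
  have D2p : 0 ≤ D2 := by rw [hD2]; positivity
  have D3p : 0 ≤ D3 := by rw [hD3]; positivity
  have D4p : 0 ≤ D4 := by rw [hD4]; positivity
  have D5p : 0 ≤ D5 := by rw [hD5]; positivity
  -- the constants
  obtain ⟨δ, hδ0, hδ1, hδ2⟩ : ∃ δ : ℝ, 0 < δ ∧ δ * (64 * θ) ≤ 1 ∧ 4 * θ * δ * D1 ≤ ε / 4 := by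
    refine ⟨min (1 / (64 * θ)) (ε / (16 * θ * (D1 + 1))), by positivity, ?_, ?_⟩
    · calc min (1 / (64 * θ)) (ε / (16 * θ * (D1 + 1))) * (64 * θ) ≤ 1 / (64 * θ) * (64 * θ) := by
            gcongr
            exact min_le_left _ _
        _ = 1 := by field_simp
    · calc 4 * θ * min (1 / (64 * θ)) (ε / (16 * θ * (D1 + 1))) * D1
          ≤ 4 * θ * (ε / (16 * θ * (D1 + 1))) * (D1 + 1) := by
            gcongr
            · exact min_le_right _ _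
            · linarith
        _ = ε / 4 := by field_simp; ring
  obtain ⟨ε1, he0, he1, he2⟩ : ∃ ε1 : ℝ, 0 < ε1 ∧ ε1 ≤ 1 / 8 ∧ 3 * ε1 * D3 ≤ ε / 4 := by
    refine ⟨min (1 / 8) (ε / (12 * (D3 + 1))), by positivity, min_le_left _ _, ?_⟩
    calc 3 * min (1 / 8) (ε / (12 * (D3 + 1))) * D3 ≤ 3 * (ε / (12 * (D3 + 1))) * (D3 + 1) := by
          gcongr
          · exact min_le_right _ _
          · linarith
      _ = ε / 4 := by field_simp; ring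
  obtain ⟨c, hc0, hc8, hcε, hc1, hc2, hc3⟩ : ∃ c : ℝ, 0 < c ∧ c ≤ 1 / 8 ∧ 38 * c ≤ ε1 ∧
      64 * D1 * c ≤ ε ∧ 32 * D2 * c ≤ ε ∧ 16 * D5 * c ≤ ε := by
    refine ⟨min (ε1 / 38) (ε / (64 * (D1 + D2 + D5 + 1))), by positivity, ?_, ?_, ?_, ?_, ?_⟩
    · have := min_le_left (ε1 / 38) (ε / (64 * (D1 + D2 + D5 + 1)))
      linarith
    · have := min_le_left (ε1 / 38) (ε / (64 * (D1 + D2 + D5 + 1)))
      linarith
    all_goals
      have h1 : min (ε1 / 38) (ε / (64 * (D1 + D2 + D5 + 1))) ≤ ε / (64 * (D1 + D2 + D5 + 1)) :=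
        min_le_right _ _
      have h2 : 64 * (D1 + D2 + D5 + 1) * (ε / (64 * (D1 + D2 + D5 + 1))) = ε := by field_simp
      have h3 : 64 * (D1 + D2 + D5 + 1) * min (ε1 / 38) (ε / (64 * (D1 + D2 + D5 + 1))) ≤ ε := by
        rw [← h2]
        gcongr
        rw [h2]
        exact h1
      have h4 : 0 < min (ε1 / 38) (ε / (64 * (D1 + D2 + D5 + 1))) := by positivity
      generalize min (ε1 / 38) (ε / (64 * (D1 + D2 + D5 + 1))) = m at *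
      have m1 : 0 ≤ D1 * m := by positivity
      have m2 : 0 ≤ D2 * m := by positivity
      have m5 : 0 ≤ D5 * m := by positivity
      nlinarith
  obtain ⟨c', hc'0, hc'1, hc'2⟩ : ∃ c' : ℝ, 0 < c' ∧ c' ≤ 1 / (16 * θ) ∧ c' ≤ ε1 ^ 2 / 16 :=
    ⟨min (1 / (16 * θ)) (ε1 ^ 2 / 16), by positivity, min_le_left _ _, min_le_right _ _⟩
  obtain ⟨c'', hc''0, hc''1⟩ : ∃ c'' : ℝ, 0 < c'' ∧ 12 * D4 * c'' ≤ ε := by
    refine ⟨ε / (12 * (D4 + 1)), by positivity, ?_⟩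
    calc 12 * D4 * (ε / (12 * (D4 + 1))) ≤ 12 * (D4 + 1) * (ε / (12 * (D4 + 1))) := by
          gcongr
          linarith
      _ = ε := by field_simp
  obtain ⟨n0, hn0⟩ := MacI_asymp α c c' c'' hα hc0 hc'0 hc''0
  refine ⟨δ, hδ0, n0, ?_⟩
  intro V _ _ K h hP hn hh Γ hΓ hΓA w hw1 hw2 r r' hr hr' hrr
  obtain ⟨n4, hg, hexp⟩ := hn0 _ hn
  have main : ∀ s s' : ℕ, s ≤ s' → (s' : ℝ) ≤ A * Nat.sqrt (Fintype.card V) →
      (s' : ℝ) - s ≤ δ * Nat.sqrt (Fintype.card V) →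
      |∑ y ∈ Finset.range w, Phi K Γ (s' + y) - ∑ y ∈ Finset.range w, Phi K Γ (s + y)|
        ≤ ε * (w * Nat.sqrt (Fintype.card V)) := by
    intro s s' hss hs' hd
    obtain ⟨a, rfl⟩ := Nat.exists_eq_add_of_le hss
    have hsum : (s : ℝ) + a ≤ A' * Nat.sqrt (Fintype.card V) := by
      have h1 : A * (Nat.sqrt (Fintype.card V) : ℝ) ≤ A' * Nat.sqrt (Fintype.card V) := by gcongr
      push_cast at hs'
      linarith
    have hΓA' : (Γ.length : ℝ) ≤ A' * Nat.sqrt (Fintype.card V) := by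
      have h1 : A * (Nat.sqrt (Fintype.card V) : ℝ) ≤ A' * Nat.sqrt (Fintype.card V) := by gcongr
      linarith
    exact MA_step hP A' α ε δ ε1 c c' c'' hA0 hα hα' hε hδ1 (by rw [← hD1]; exact hδ2) he0 he1
      (by rw [← hD3]; exact he2) hc8 hcε (by rw [← hD1]; exact hc1) (by rw [← hD2]; exact hc2)
      (by rw [← hD5]; exact hc3) hc'1 hc'2 (by rw [← hD4]; exact hc''1) n4 hg hexp hh Γ hΓ hΓA' w
      hw1 hw2 s a hsum (by push_cast at hd; linarith)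
  rcases le_total r r' with hle | hle
  · rw [abs_sub_comm]
    refine main r r' hle hr' ?_
    have := neg_abs_le ((r : ℝ) - r')
    linarith
  · refine main r' r hle hr ?_
    have := le_abs_self ((r : ℝ) - r')
    linarith

end Pool.Agent.helper20.HP
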