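import Pool.Agent.helper65.HP.MacC

/-! # MP_5ae64c_pr, macroscopic step, part D: windows of levels and the forward estimate -/

open scoped BigOperators Topology
open Filter MeasureTheory

namespace Pool.Agent.helper20.HP

variable {V : Type} [Fintype V] [DecidableEq V] {K : HW V} {θ : ℝ} {h : ℕ}

/-- the level is in `[r, r+w)` -/
noncomputable def Mac_win (r w : ℕ) (x : V) (ρ l : List V) : ℝ :=
  ind (r + 1 ≤ (run (x :: ρ) l).length ∧ (run (x :: ρ) l).length < r + w + 1)

omit [Fintype V] in
theorem MacD_win_nonneg (r w : ℕ) (x : V) (ρ l : List V) : 0 ≤ Mac_win r w x ρ l := ind_nonneg _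

omit [Fintype V] in
theorem MacD_win_le_one (r w : ℕ) (x : V) (ρ l : List V) : Mac_win r w x ρ l ≤ 1 := ind_le_one _

omit [Fintype V] in
theorem MacD_win_eq (r w : ℕ) (x : V) (ρ l : List V) :
    Mac_win r w x ρ l = ∑ y ∈ Finset.range w, lev (r + y) x ρ l := by
  unfold Mac_win lev
  by_cases hx : r + 1 ≤ (run (x :: ρ) l).length ∧ (run (x :: ρ) l).length < r + w + 1
  · rw [ind_true hx, Finset.sum_eq_single ((run (x :: ρ) l).length - (r + 1))]
    · rw [ind_true (by omega)]
    · intro y _ hy
      exact ind_false (by omega)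
    · intro hn
      exfalso
      apply hn
      rw [Finset.mem_range]
      omega
  · rw [ind_false hx]
    symm
    refine Finset.sum_eq_zero fun y hy => ?_
    rw [Finset.mem_range] at hy
    exact ind_false (by omega)

theorem MacD_km_win (K : HW V) (Γ : List V) (N r w : ℕ) :
    km K Γ N (Mac_win r w) = ∑ y ∈ Finset.range w, PhiN K Γ N (r + y) := by
  have : (Mac_win r w : V → List V → List V → ℝ) = fun x ρ l => ∑ y ∈ Finset.range w, lev (r + y) x ρ l := by
    funext x ρ l
    exact MacD_win_eq r w x ρ l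
  rw [this, km_sum]
  rfl

theorem MacD_km_win_le (hP : Par K θ h) (Γ : List V) (hΓ : Γ.Nodup) (N r w : ℕ) :
    km K Γ N (Mac_win r w) ≤ (w : ℝ) * (CP θ * ((Nat.sqrt (Fintype.card V) : ℝ) + (r + w))) := by
  rw [MacD_km_win]
  have hCP : 0 ≤ CP θ := by
    unfold CP CZ
    have := hP.one_le
    positivity
  have h1 : ∀ y ∈ Finset.range w, PhiN K Γ N (r + y)
      ≤ CP θ * ((Nat.sqrt (Fintype.card V) : ℝ) + (r + w)) := by
    intro y hy
    rw [Finset.mem_range] at hy
    refine (phi_bound hP Γ hΓ N (r + y)).trans ?_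
    have : (y : ℝ) ≤ w := by exact_mod_cast hy.le
    push_cast
    gcongr
  refine (Finset.sum_le_sum h1).trans ?_
  rw [Finset.sum_const, Finset.card_range, nsmul_eq_mul]

theorem MacD_km_short (hP : Par K θ h) (Γ : List V) (s r w : ℕ)
    (hs : 4 * s ≤ Nat.sqrt (Fintype.card V)) :
    km K Γ s (Mac_win r w) ≤ (w : ℝ) * ((s : ℝ) * CZ θ) := by
  have hCZ : 0 ≤ CZ θ := by unfold CZ; positivity
  rw [MacD_km_win]
  have h1 : ∀ y ∈ Finset.range w, PhiN K Γ s (r + y) ≤ (s : ℝ) * CZ θ := by
    intro y _
    rcases Nat.eq_zero_or_pos s with h0 | h0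
    · subst h0
      unfold PhiN km
      simp
    · obtain ⟨T, rfl⟩ : ∃ T, s = T + 1 := ⟨s - 1, by omega⟩
      have := short_words hP Γ T (r + y) (by omega)
      push_cast
      exact this
  refine (Finset.sum_le_sum h1).trans ?_
  rw [Finset.sum_const, Finset.card_range, nsmul_eq_mul]

theorem MacD_km_LH (hP : Par K θ h) (Γ : List V) (hΓ : Γ.Nodup) (N r w k : ℕ)
    (hk : 4 * k ≤ Nat.sqrt (Fintype.card V)) :
    km K Γ N (fun x ρ l => ind (LHin (2 * h) k x ρ l) * Mac_win r w x ρ l)
      ≤ (w : ℝ) * (3 / 2 * CZ θ * ((k : ℝ) + 1)) := by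
  have e : (fun (x : V) (ρ l : List V) => ind (LHin (2 * h) k x ρ l) * Mac_win r w x ρ l)
      = fun x ρ l => ∑ y ∈ Finset.range w, ind (LHin (2 * h) k x ρ l) * lev (r + y) x ρ l := by
    funext x ρ l
    rw [MacD_win_eq, Finset.mul_sum]
  rw [e, km_sum]
  refine (Finset.sum_le_sum fun y _ => LH_mass hP Γ hΓ N (r + y) k hk).trans ?_
  rw [Finset.sum_const, Finset.card_range, nsmul_eq_mul]

/-! ### the forward estimate -/

/-- weight of hits and long self intersections -/
noncomputable def MacD_G (b s : ℕ) (y : V) (A m : List V) : ℝ :=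
  ∑ j ∈ Finset.Ico b (b + s), (ind (lst y (m.take (j + 1)) ∈ A)
    + ∑ j' ∈ Finset.range (j - b + 1), ind (lst y (m.take (j + 1)) = lst y (m.take (j' + 1))))

omit [Fintype V] in
theorem MacD_G_nonneg (b s : ℕ) (y : V) (A m : List V) : 0 ≤ MacD_G b s y A m :=
  Finset.sum_nonneg fun _ _ => add_nonneg (ind_nonneg _) (Finset.sum_nonneg fun _ _ => ind_nonneg _)

omit [Fintype V] in
theorem MacD_event (b s : ℕ) (Γ : List V) (x : V) (ρ l0 l1 l' : List V) (h1 : l1.length = b)
    (hs : l'.length = s)
    (hn : ¬ ((∀ y ∈ l', y ∉ Γ) ∧ NoLH b x ρ (l0 ++ l1) l')) (y0 : V) :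
    1 ≤ MacD_G b s y0 (Γ ++ run (x :: ρ) l0) (l1 ++ l') := by
  -- it suffices to find an index
  suffices hsuf : ∃ j, b ≤ j ∧ j < b + s ∧ (lst y0 ((l1 ++ l').take (j + 1)) ∈ Γ ++ run (x :: ρ) l0 ∨
      ∃ j', j' < j - b + 1 ∧ lst y0 ((l1 ++ l').take (j + 1)) = lst y0 ((l1 ++ l').take (j' + 1))) by
    obtain ⟨j, hj1, hj2, hj3⟩ := hsuf
    unfold MacD_G
    refine le_trans ?_ (Finset.single_le_sum (f := fun j => (ind (lst y0 ((l1 ++ l').take (j + 1)) ∈
        Γ ++ run (x :: ρ) l0)
      + ∑ j' ∈ Finset.range (j - b + 1), ind (lst y0 ((l1 ++ l').take (j + 1))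
        = lst y0 ((l1 ++ l').take (j' + 1)))))
      (fun j _ => add_nonneg (ind_nonneg _) (Finset.sum_nonneg fun _ _ => ind_nonneg _))
      (Finset.mem_Ico.2 ⟨hj1, hj2⟩))
    rcases hj3 with hA | ⟨j', hj', he⟩
    · have h0 : 0 ≤ ∑ j' ∈ Finset.range (j - b + 1), ind (lst y0 ((l1 ++ l').take (j + 1))
        = lst y0 ((l1 ++ l').take (j' + 1))) := Finset.sum_nonneg fun _ _ => ind_nonneg _
      simp only [ind_true hA]
      linarith
    · have h0 := Finset.single_le_sum (f := fun j' => ind (lst y0 ((l1 ++ l').take (j + 1))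
        = lst y0 ((l1 ++ l').take (j' + 1)))) (fun _ _ => ind_nonneg _) (Finset.mem_range.2 hj')
      have h2 := ind_nonneg (lst y0 ((l1 ++ l').take (j + 1)) ∈ Γ ++ run (x :: ρ) l0)
      simp only [ind_true he] at h0
      linarith
  -- decomposition at the bad vertex
  have hdec : ∃ a y c, l' = a ++ y :: c ∧ (y ∈ Γ ∨ LH b x ρ (l0 ++ l1 ++ a) y) := by
    by_cases hav : ∀ y ∈ l', y ∉ Γ
    · have hno : ¬ NoLH b x ρ (l0 ++ l1) l' := fun h => hn ⟨hav, h⟩
      unfold NoLH at hno
      push Not at hno
      obtain ⟨a, y, c, h2, h3⟩ := hno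
      exact ⟨a, y, c, h2, Or.inr h3⟩
    · push Not at hav
      obtain ⟨y, hy, hyΓ⟩ := hav
      obtain ⟨a, c, h2⟩ := List.append_of_mem hy
      exact ⟨a, y, c, h2, Or.inl hyΓ⟩
  obtain ⟨a, y, c, hl', hcase⟩ := hdec
  have hla : a.length < s := by
    rw [← hs, hl']
    simp
  have htake : (l1 ++ l').take (b + a.length + 1) = (l1 ++ a) ++ [y] := by
    rw [hl']
    have e : l1 ++ (a ++ y :: c) = ((l1 ++ a) ++ [y]) ++ c := by simp
    rw [e, List.take_left']
    rw [List.length_append, List.length_append, List.length_singleton, h1]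
  have hlst : lst y0 ((l1 ++ l').take (b + a.length + 1)) = y := by
    rw [htake, lst_concat]
  refine ⟨b + a.length, by omega, by omega, ?_⟩
  rw [hlst]
  rcases hcase with hΓ | hLH
  · exact Or.inl (List.mem_append_left _ hΓ)
  · obtain ⟨hin, hout⟩ := hLH
    rw [List.append_assoc, run_append] at hin
    rcases mem_run hin with h2 | h2
    · exact Or.inl (List.mem_append_right _ h2)
    · right
      -- y is among the first |a| vertices of l1 ++ a
      have e1 : (x :: (l0 ++ l1 ++ a)).rtake b = (l1 ++ a).rtake b := by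
        have e : x :: (l0 ++ l1 ++ a) = (x :: l0) ++ (l1 ++ a) := by simp
        rw [e, Mac_rtake_append]
        rw [List.length_append]
        omega
      rw [e1] at hout
      have e2 : l1 ++ a = (l1 ++ a).take a.length ++ (l1 ++ a).rtake b := by
        unfold List.rtake
        have : (l1 ++ a).length - b = a.length := by
          rw [List.length_append]; omega
        rw [this, List.take_append_drop]
      have h3 : y ∈ (l1 ++ a).take a.length := by
        rw [e2] at h2
        rcases List.mem_append.1 h2 with h3 | h3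
        · exact h3
        · exact absurd h3 hout
      obtain ⟨u, v, huv⟩ := List.append_of_mem h3
      have hlu : u.length < a.length := by
        have := congrArg List.length huv
        rw [List.length_take, List.length_append, List.length_append, List.length_cons] at this
        omega
      refine ⟨u.length, by omega, ?_⟩
      have e3 : (l1 ++ l').take (u.length + 1) = u ++ [y] := by
        have e4 : (l1 ++ l').take (u.length + 1) = ((l1 ++ a).take a.length).take (u.length + 1) := by
          rw [List.take_take, min_eq_left (by omega), hl']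
          have e5 : l1 ++ (a ++ y :: c) = (l1 ++ a) ++ (y :: c) := by simp
          rw [e5, List.take_append_of_le_length]
          rw [List.length_append]
          omega
        rw [e4, huv]
        have e6 : u ++ y :: v = (u ++ [y]) ++ v := by simp
        rw [e6, List.take_left']
        simp
      rw [e3, lst_concat]

theorem MacD_G_bound (hP : Par K θ h) (s : ℕ) (y : V) (A : List V) :
    W K (2 * h + s) y (fun m => MacD_G (2 * h) s y A m)
      ≤ ((s : ℝ) * A.length + s * s) * (3 / (2 * (Fintype.card V : ℝ))) := by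
  have hn0 : (0 : ℝ) < Fintype.card V := by exact_mod_cast hP.card_pos
  have hc0 : (0 : ℝ) ≤ 3 / (2 * (Fintype.card V : ℝ)) := by positivity
  unfold MacD_G
  rw [W_sum]
  have h1 : ∀ j ∈ Finset.Ico (2 * h) (2 * h + s), W K (2 * h + s) y (fun m =>
      (ind (lst y (m.take (j + 1)) ∈ A) + ∑ j' ∈ Finset.range (j - 2 * h + 1),
        ind (lst y (m.take (j + 1)) = lst y (m.take (j' + 1)))))
      ≤ ((A.length : ℝ) + s) * (3 / (2 * (Fintype.card V : ℝ))) := by
    intro j hj
    rw [Finset.mem_Ico] at hj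
    rw [W_add, W_sum]
    have h2 : W K (2 * h + s) y (fun m => ind (lst y (m.take (j + 1)) ∈ A))
        ≤ (A.length : ℝ) * (3 / (2 * (Fintype.card V : ℝ))) := by
      obtain ⟨k, hk⟩ : ∃ k, 2 * h + s = (j + 1) + k := ⟨2 * h + s - (j + 1), by omega⟩
      rw [hk, W_split]
      have e : W K (j + 1) y (fun l => W K k (lst y l) (fun l' => ind (lst y ((l ++ l').take (j + 1)) ∈ A)))
          = W K (j + 1) y (fun l => ind (lst y l ∈ A)) := by
        refine W_congr K _ y fun l hl => ?_
        rw [← W_const K k (lst y l) (ind (lst y l ∈ A))]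
        refine W_congr K _ _ fun l' _ => ?_
        rw [← hl]; simp
      rw [e]
      exact W_ind_mem_le K (j + 1) y A _ fun z => hP.mix (j + 1) (by omega) y z
    have h3 : ∀ j' ∈ Finset.range (j - 2 * h + 1), W K (2 * h + s) y (fun m =>
        ind (lst y (m.take (j + 1)) = lst y (m.take (j' + 1)))) ≤ 3 / (2 * (Fintype.card V : ℝ)) := by
      intro j' hj'
      rw [Finset.mem_range] at hj'
      obtain ⟨k, hk⟩ : ∃ k, 2 * h + s = (j' + 1) + ((j - j') + k) :=
        ⟨2 * h + s - (j + 1), by omega⟩
      rw [hk, W_split]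
      refine (W_mono K _ y (g := fun _ => 3 / (2 * (Fintype.card V : ℝ))) fun l hl => ?_).trans
        (W_const K _ y _).le
      rw [W_split]
      have e : W K (j - j') (lst y l) (fun l1 => W K k (lst (lst y l) l1) (fun l2 =>
          ind (lst y ((l ++ (l1 ++ l2)).take (j + 1)) = lst y ((l ++ (l1 ++ l2)).take (j' + 1)))))
          = W K (j - j') (lst y l) (fun l1 => ind (lst (lst y l) l1 = lst y l)) := by
        refine W_congr K _ _ fun l1 hl1 => ?_
        rw [← W_const K k (lst (lst y l) l1) (ind (lst (lst y l) l1 = lst y l))]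
        refine W_congr K _ _ fun l2 _ => ?_
        have a1 : (l ++ (l1 ++ l2)).take (j + 1) = l ++ l1 := by
          have : l ++ (l1 ++ l2) = (l ++ l1) ++ l2 := by simp
          rw [this, List.take_left']
          rw [List.length_append, hl, hl1]
          omega
        have a2 : (l ++ (l1 ++ l2)).take (j' + 1) = l := by
          rw [List.take_left' hl]
        rw [a1, a2, lst_append]
      rw [e, W_ind_lst]
      exact hP.mix _ (by omega) _ _
    have h4 := Finset.sum_le_sum h3
    rw [Finset.sum_const, Finset.card_range, nsmul_eq_mul] at h4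
    have h5 : (((j - 2 * h + 1 : ℕ) : ℝ)) ≤ s := by
      have : j - 2 * h + 1 ≤ s := by omega
      exact_mod_cast this
    have h6 := mul_le_mul_of_nonneg_right h5 hc0
    linarith
  refine (Finset.sum_le_sum h1).trans ?_
  rw [Finset.sum_const, Nat.card_Ico, nsmul_eq_mul]
  have : ((2 * h + s - 2 * h : ℕ) : ℝ) = s := by
    congr 1
    omega
  rw [this]
  apply le_of_eq
  ring

end Pool.Agent.helper20.HP
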