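import Pool.Agent.helper65.HP.MacF

/-! # MP_5ae64c_pr, macroscopic step, part G: simplified errors, passage to `Phi` -/

open scoped BigOperators Topology
open Filter MeasureTheory

namespace Pool.Agent.helper20.HP

variable {V : Type} [Fintype V] [DecidableEq V] {K : HW V} {θ : ℝ} {h : ℕ}

theorem MacG_km_win_tendsto (Γ : List V) (hΓ : Γ.Nodup) (r w : ℕ) :
    Tendsto (fun N => km K Γ N (Mac_win r w)) atTop
      (𝓝 (∑ y ∈ Finset.range w, Phi K Γ (r + y))) := by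
  simp_rw [MacD_km_win]
  exact tendsto_finsetSum _ fun y _ => PhiN_tendsto K Γ hΓ (r + y)

theorem MacG_CP_nonneg (hP : Par K θ h) : 0 ≤ CP θ := by
  unfold CP CZ
  have := hP.one_le
  positivity

theorem MacG_CZ_nonneg (θ : ℝ) : 0 ≤ CZ θ := by unfold CZ; positivity

/-- numerical simplification of the third term -/
theorem MacG_t3 (L w h s r γ n A C : ℝ) (hA : 0 ≤ A) (hC : 0 ≤ C) (hL : 0 ≤ L) (hw : 0 ≤ w)
    (hs : 0 ≤ s) (hn : 0 < n) (hLn : L * L ≤ n) (hr : r ≤ A * L) (hr0 : 0 ≤ r) (hh : 0 ≤ h)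
    (hwL : w + 4 * h ≤ L) (hhw : h ≤ w) (hγ : γ ≤ A * L) (hγ0 : 0 ≤ γ) (hsL : 4 * s ≤ L) :
    (w + 4 * h) * (C * (L + (r + (w + 4 * h))))
          * ((s * (γ + (r + w + 4 * h)) + s * s) * (3 / (2 * n)))
      ≤ w * s * (15 / 2 * C * ((A + 2) * (2 * A + 2))) := by
  have h1 : w + 4 * h ≤ 5 * w := by linarith
  have h2 : L + (r + (w + 4 * h)) ≤ (A + 2) * L := by linarith
  have h3 : s * (γ + (r + w + 4 * h)) + s * s ≤ s * ((2 * A + 2) * L) := by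
    have e : s * (γ + (r + w + 4 * h)) + s * s = s * (γ + (r + w + 4 * h) + s) := by ring
    rw [e]
    refine mul_le_mul_of_nonneg_left ?_ hs
    linarith
  have h4 : L * (L * (3 / (2 * n))) ≤ 3 / 2 := by
    have : L * (L * (3 / (2 * n))) = (L * L) * (3 / (2 * n)) := by ring
    rw [this]
    calc L * L * (3 / (2 * n)) ≤ n * (3 / (2 * n)) :=
          mul_le_mul_of_nonneg_right hLn (by positivity)
      _ = 3 / 2 := by field_simp
  have p1 : 0 ≤ (A + 2) * L := mul_nonneg (by linarith) hL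
  have p2 : 0 ≤ C * ((A + 2) * L) := mul_nonneg hC p1
  have p3 : 0 ≤ 3 / (2 * n) := by positivity
  have p4 : 0 ≤ s * (γ + (r + w + 4 * h)) + s * s :=
    add_nonneg (mul_nonneg hs (by linarith)) (mul_nonneg hs hs)
  have q1 : (w + 4 * h) * (C * (L + (r + (w + 4 * h)))) ≤ (5 * w) * (C * ((A + 2) * L)) := by
    refine mul_le_mul h1 (mul_le_mul_of_nonneg_left h2 hC) ?_ (by linarith)
    exact mul_nonneg hC (by linarith)
  have q2 : (s * (γ + (r + w + 4 * h)) + s * s) * (3 / (2 * n))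
      ≤ (s * ((2 * A + 2) * L)) * (3 / (2 * n)) := mul_le_mul_of_nonneg_right h3 p3
  calc (w + 4 * h) * (C * (L + (r + (w + 4 * h))))
          * ((s * (γ + (r + w + 4 * h)) + s * s) * (3 / (2 * n)))
      ≤ ((5 * w) * (C * ((A + 2) * L))) * ((s * ((2 * A + 2) * L)) * (3 / (2 * n))) :=
        mul_le_mul q1 q2 (mul_nonneg p4 p3) (mul_nonneg (by linarith) p2)
    _ = w * s * (5 * C * ((A + 2) * (2 * A + 2))) * (L * (L * (3 / (2 * n)))) := by ring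
    _ ≤ w * s * (5 * C * ((A + 2) * (2 * A + 2))) * (3 / 2) := by
        refine mul_le_mul_of_nonneg_left h4 ?_
        exact mul_nonneg (mul_nonneg hw hs) (mul_nonneg (by linarith)
          (mul_nonneg (by linarith) (by linarith)))
    _ = _ := by ring

theorem MacG_t4 (L e r' A C : ℝ) (he : 0 ≤ e) (hC : 0 ≤ C) (h2 : L + (r' + 2 * e) ≤ (A + 4) * L) :
    (2 * e) * (C * (L + (r' + 2 * e))) ≤ e * L * (2 * C * (A + 4)) := by
  calc (2 * e) * (C * (L + (r' + 2 * e))) ≤ (2 * e) * (C * ((A + 4) * L)) :=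
        mul_le_mul_of_nonneg_left (mul_le_mul_of_nonneg_left h2 hC) (by linarith)
    _ = _ := by ring

theorem MacG_t5 (L x y B D C : ℝ) (hL : 0 ≤ L) (hC : 0 ≤ C) (hB : 0 ≤ B)
    (hy0 : 0 ≤ L + y) (hx : x ≤ B * L) (hy : L + y ≤ D * L) :
    x * (C * (L + y)) ≤ L ^ 2 * (C * (B * D)) := by
  calc x * (C * (L + y)) ≤ (B * L) * (C * (D * L)) :=
        mul_le_mul hx (mul_le_mul_of_nonneg_left hy hC) (mul_nonneg hC hy0) (mul_nonneg hB hL)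
    _ = _ := by ring

theorem MacG_sum (w s h Z C3 T1 T2 T3 T4 T5 X4 X5 : ℝ) (f1 : 0 ≤ w * Z)
    (h1 : T1 ≤ w * (s * Z)) (h2 : T2 ≤ w * (3 / 2 * Z * (s + 1)))
    (h3 : T3 ≤ w * ((2 * h) * Z) + w * (3 / 2 * Z * (2 * h + 1)) + w * s * C3)
    (h4 : T4 ≤ X4) (h5 : T5 ≤ X5) :
    T1 + T2 + T3 + T4 + T5 ≤ w * s * (5 / 2 * Z + C3) + w * (h + 1) * (5 * Z) + X4 + X5 := by
  have e : w * s * (5 / 2 * Z + C3) + w * (h + 1) * (5 * Z)
      = w * (s * Z) + w * (3 / 2 * Z * (s + 1))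
        + (w * ((2 * h) * Z) + w * (3 / 2 * Z * (2 * h + 1)) + w * s * C3) + 2 * (w * Z) := by ring
  linarith

theorem MacG_pi (hP : Par K θ h) (m M B N0 : ℕ) (ε0 π : ℝ)
    (hπ : ((m : ℝ) + 1) * (1 - 1 / (2 * θ)) ^ M
        + 2 * ((2 * B : ℕ) : ℝ) * Real.exp (- (ε0 ^ 2 * N0 / (16 * ((2 * B : ℕ) : ℝ) ^ 2))) ≤ π) :
    0 ≤ π := by
  refine le_trans ?_ hπ
  have hθ := hP.one_le
  have hq : 0 ≤ 1 - 1 / (2 * θ) := by
    rw [sub_nonneg, div_le_one (by linarith)]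
    linarith
  refine add_nonneg (mul_nonneg (by positivity) (pow_nonneg hq _)) ?_
  exact mul_nonneg (by positivity) (Real.exp_pos _).le

/-- **Shift inequality, simplified errors**, for the truncated sums. -/
theorem MacG_fin (hP : Par K θ h) (A : ℝ) (hA : 0 ≤ A) (Γ : List V) (hΓ : Γ.Nodup)
    (hΓA : (Γ.length : ℝ) ≤ A * Nat.sqrt (Fintype.card V)) (x0 : V) (N r a w η M B N0 : ℕ)
    (hM : 1 ≤ M) (hB1 : 1 ≤ B) (hB : 2 * M * (2 * h) ≤ B) (ε0 : ℝ) (hε0 : 0 < ε0)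
    (h4s : 4 * (2 * B * (N0 + 1)) ≤ Nat.sqrt (Fintype.card V))
    (hη : |2 * N0 * MacF_mean K (2 * h) M B x0 - a| + 2 * ε0 * N0 + 5 * B ≤ η) (π : ℝ)
    (hπ : (((2 * B * (N0 + 1) : ℕ) : ℝ) + 1) * (1 - 1 / (2 * θ)) ^ M
        + 2 * ((2 * B : ℕ) : ℝ) * Real.exp (- (ε0 ^ 2 * N0 / (16 * ((2 * B : ℕ) : ℝ) ^ 2))) ≤ π)
    (hr : (r : ℝ) + a ≤ A * Nat.sqrt (Fintype.card V))
    (hwL : w + 4 * h ≤ Nat.sqrt (Fintype.card V)) (hhw : h ≤ w) (hηw : η ≤ w) :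
    |km K Γ (N + 2 * B * (N0 + 1)) (Mac_win (r + a) w) - km K Γ N (Mac_win r w)|
      ≤ (w : ℝ) * ((2 * B * (N0 + 1) : ℕ) : ℝ) * (5 / 2 * CZ θ + 15 / 2 * CP θ * ((A + 2) * (2 * A + 2)))
        + w * ((h : ℝ) + 1) * (5 * CZ θ)
        + η * (Nat.sqrt (Fintype.card V) : ℝ) * (4 * CP θ * (A + 4))
        + π * ((Nat.sqrt (Fintype.card V) : ℝ) ^ 2) * (CP θ * (3 * A + 8)) := by
  have key := MacF_main hP Γ hΓ x0 N r a w η M B N0 hM hB1 hB ε0 hε0 hη π hπ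
  have hπ0 : 0 ≤ π := MacG_pi hP _ M B N0 ε0 π hπ
  clear hπ hη hε0 hB hB1 hM
  have hCP := MacG_CP_nonneg hP
  have hCZ := MacG_CZ_nonneg θ
  have hn0 : (0 : ℝ) < Fintype.card V := by exact_mod_cast hP.card_pos
  have hLn : ((Nat.sqrt (Fintype.card V) : ℕ) : ℝ) * (Nat.sqrt (Fintype.card V) : ℕ)
      ≤ Fintype.card V := by
    have := Nat.sqrt_le (Fintype.card V)
    exact_mod_cast this
  have T1 := MacD_km_short hP Γ (2 * B * (N0 + 1)) (r + a) w h4s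
  have T2 := MacD_km_LH hP Γ hΓ (N + 2 * B * (N0 + 1)) (r + a) w (2 * B * (N0 + 1)) h4s
  have T3 := MacE_forward hP Γ hΓ N r w (2 * B * (N0 + 1))
  have T4a := MacD_km_win_le hP Γ hΓ N (r - η) (2 * η)
  have T4b := MacD_km_win_le hP Γ hΓ N (r + w - η) (2 * η)
  have T5a := MacD_km_win_le hP Γ hΓ N r w
  have T5b := MacD_km_win_le hP Γ hΓ N (r + a - 2 * B * (N0 + 1)) (w + 2 * (2 * B * (N0 + 1)) + 2 * h)
  have r1 : ((r - η : ℕ) : ℝ) ≤ r := by exact_mod_cast Nat.sub_le r η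
  have r2 : ((r + w - η : ℕ) : ℝ) ≤ (r : ℝ) + w := by exact_mod_cast Nat.sub_le (r + w) η
  have r3 : ((r + a - 2 * B * (N0 + 1) : ℕ) : ℝ) ≤ (r : ℝ) + a := by
    exact_mod_cast Nat.sub_le (r + a) (2 * B * (N0 + 1))
  have r1' : (0 : ℝ) ≤ ((r - η : ℕ) : ℝ) := Nat.cast_nonneg _
  have r2' : (0 : ℝ) ≤ ((r + w - η : ℕ) : ℝ) := Nat.cast_nonneg _
  have r3' : (0 : ℝ) ≤ ((r + a - 2 * B * (N0 + 1) : ℕ) : ℝ) := Nat.cast_nonneg _
  have hL0 : (0 : ℝ) ≤ (Nat.sqrt (Fintype.card V) : ℕ) := Nat.cast_nonneg _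
  have hsL : (4 : ℝ) * ((2 * B * (N0 + 1) : ℕ) : ℝ) ≤ (Nat.sqrt (Fintype.card V) : ℕ) := by
    exact_mod_cast h4s
  have hs0 : (0 : ℝ) ≤ ((2 * B * (N0 + 1) : ℕ) : ℝ) := Nat.cast_nonneg _
  have hwL' : (w : ℝ) + 4 * h ≤ (Nat.sqrt (Fintype.card V) : ℕ) := by exact_mod_cast hwL
  have hhw' : (h : ℝ) ≤ w := by exact_mod_cast hhw
  have hηw' : (η : ℝ) ≤ w := by exact_mod_cast hηw
  have hw0 : (0 : ℝ) ≤ w := Nat.cast_nonneg _
  have hh0 : (0 : ℝ) ≤ h := Nat.cast_nonneg _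
  have hη0 : (0 : ℝ) ≤ η := Nat.cast_nonneg _
  have hr0 : (0 : ℝ) ≤ r := Nat.cast_nonneg _
  have ha0 : (0 : ℝ) ≤ a := Nat.cast_nonneg _
  have hΓ0 : (0 : ℝ) ≤ Γ.length := Nat.cast_nonneg _
  have cw : ((w + 2 * (2 * B * (N0 + 1)) + 2 * h : ℕ) : ℝ)
      = w + 2 * ((2 * B * (N0 + 1) : ℕ) : ℝ) + 2 * h := by push_cast; ring
  have ch : (((2 * h : ℕ) : ℝ)) = 2 * h := by push_cast; ring
  have cη : (((2 * η : ℕ) : ℝ)) = 2 * η := by push_cast; ring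
  rw [cη] at T4a T4b
  rw [ch] at T3
  rw [cw] at T5b
  generalize ((2 * B * (N0 + 1) : ℕ) : ℝ) = s at *
  generalize ((r - η : ℕ) : ℝ) = x1 at *
  generalize ((r + w - η : ℕ) : ℝ) = x2 at *
  generalize ((r + a - 2 * B * (N0 + 1) : ℕ) : ℝ) = x3 at *
  generalize km K Γ (2 * B * (N0 + 1)) (Mac_win (r + a) w) = K1 at *
  generalize km K Γ (N + 2 * B * (N0 + 1)) (fun x ρ l =>
    ind (LHin (2 * h) (2 * B * (N0 + 1)) x ρ l) * Mac_win (r + a) w x ρ l) = K2 at *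
  generalize km K Γ N (fun x ρ l =>
    Mac_win r w x ρ l * MacE_bad K (2 * h) (2 * B * (N0 + 1)) Γ x ρ l) = K3 at *
  generalize km K Γ N (Mac_win (r - η) (2 * η)) = K4 at *
  generalize km K Γ N (Mac_win (r + w - η) (2 * η)) = K5 at *
  generalize km K Γ N (Mac_win (r + a - 2 * B * (N0 + 1))
    (w + 2 * (2 * B * (N0 + 1)) + 2 * h)) = K7 at *
  generalize ((Nat.sqrt (Fintype.card V) : ℕ) : ℝ) = L at *
  generalize (Fintype.card V : ℝ) = n at *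
  generalize (Γ.length : ℝ) = γ at *
  generalize (w : ℝ) = w' at *
  generalize (h : ℝ) = h' at *
  generalize (η : ℝ) = e at *
  generalize (r : ℝ) = r' at *
  generalize (a : ℝ) = a' at *
  refine key.trans ?_
  clear key
  generalize km K Γ N (Mac_win r w) = K6 at *
  have hT3 := MacG_t3 L w' h' s r' γ n A (CP θ) hA hCP hL0 hw0 hs0 hn0 hLn (by linarith) hr0 hh0
    hwL' hhw' hΓA hΓ0 hsL
  have hT4a := MacG_t4 L e x1 A (CP θ) hη0 hCP (by linarith)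
  have hT4b := MacG_t4 L e x2 A (CP θ) hη0 hCP (by linarith)
  have hT5a := MacG_t5 L w' (r' + w') 1 (A + 2) (CP θ) hL0 hCP zero_le_one (by linarith)
    (by linarith) (by linarith)
  have hT5b := MacG_t5 L (w' + 2 * s + 2 * h') (x3 + (w' + 2 * s + 2 * h')) 2 (A + 3) (CP θ) hL0 hCP
    zero_le_two (by linarith) (by linarith) (by linarith)
  have hT5 : π * (K6 + K7) ≤ π * (L ^ 2 * (CP θ * (3 * A + 8))) := by
    refine mul_le_mul_of_nonneg_left ?_ hπ0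
    have e1 : L ^ 2 * (CP θ * (1 * (A + 2))) + L ^ 2 * (CP θ * (2 * (A + 3)))
        = L ^ 2 * (CP θ * (3 * A + 8)) := by ring
    linarith
  have hT4 : K4 + K5 ≤ e * L * (4 * CP θ * (A + 4)) := by
    have e1 : e * L * (2 * CP θ * (A + 4)) + e * L * (2 * CP θ * (A + 4))
        = e * L * (4 * CP θ * (A + 4)) := by ring
    linarith
  have fin := MacG_sum w' s h' (CZ θ) (15 / 2 * CP θ * ((A + 2) * (2 * A + 2))) K1 K2 K3 (K4 + K5)
    (π * (K6 + K7)) _ _ (mul_nonneg hw0 hCZ) T1 T2 (by linarith) hT4 hT5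
  refine fin.trans (le_of_eq ?_)
  ring

end Pool.Agent.helper20.HP
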