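import Pool.Agent.helper65.HP.MacE

/-! # MP_5ae64c_pr, macroscopic step, part F: the shift inequality with explicit errors -/

open scoped BigOperators Topology
open Filter MeasureTheory

namespace Pool.Agent.helper20.HP

variable {V : Type} [Fintype V] [DecidableEq V] {K : HW V} {θ : ℝ} {h : ℕ}

/-- mean of the window functional -/
noncomputable def MacF_mean (K : HW V) (b M B : ℕ) (x : V) : ℝ :=
  W K (2 * B) x (fun l => (Mac_F b M B x l : ℝ))

/-- the future word is atypical -/
def MacF_bad (K : HW V) (b M B N0 : ℕ) (ε0 : ℝ) (y : V) (l' : List V) : Prop :=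
  (¬ ∀ i, i + B ≤ 2 * B * (N0 + 1) → Mac_has b M (l'.drop i)) ∨
    (ε0 * (((2 * B : ℕ) : ℝ) * N0) < |∑ i ∈ Finset.range (2 * B * N0),
      ((Mac_F b M B (lst y (l'.take i)) ((l'.drop i).take (2 * B)) : ℝ) - MacF_mean K b M B y)|)

theorem MacF_prob (hP : Par K θ h) (M B N0 : ℕ) (hM : 1 ≤ M) (hB1 : 1 ≤ B)
    (hB : 2 * M * (2 * h) ≤ B) (ε0 : ℝ) (hε0 : 0 < ε0) (y : V) :
    W K (2 * B * (N0 + 1)) y (fun l' => ind (MacF_bad K (2 * h) M B N0 ε0 y l'))
      ≤ (((2 * B * (N0 + 1) : ℕ) : ℝ) + 1) * (1 - 1 / (2 * θ)) ^ M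
        + 2 * ((2 * B : ℕ) : ℝ) * Real.exp (- (ε0 ^ 2 * N0 / (16 * ((2 * B : ℕ) : ℝ) ^ 2))) := by
  have hh := hP.h_le
  have h1 := MacB_all_cut hP (2 * h) (by omega) M B (2 * B * (N0 + 1)) hB y
  have hBp : (0 : ℝ) < ((2 * B : ℕ) : ℝ) := by
    have : 0 < 2 * B := by omega
    exact_mod_cast this
  have h2 := MacB_conc K y (2 * B) N0 (by omega) (fun x l => (Mac_F (2 * h) M B x l : ℝ))
    (fun σ _ x l => by rw [MacC_F_map]) ((2 * B : ℕ) : ℝ) hBp
    (fun x l _ => by
      rw [abs_of_nonneg (Nat.cast_nonneg _)]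
      exact_mod_cast MacC_F_le (2 * h) M B hM hB x l) ε0 hε0
  refine le_trans ?_ (add_le_add h1 h2)
  rw [← W_add]
  refine W_mono K _ y fun l' _ => ?_
  exact ind_or_le _ _

/-- in the good case the level increases by `a` up to `η` -/
theorem MacF_level (M B N0 : ℕ) (hM : 1 ≤ M) (hB1 : 1 ≤ B) (hh1 : 1 ≤ h)
    (hB : 2 * M * (2 * h) ≤ B) (ε0 : ℝ) (a η : ℕ) (x : V) (ρ l l' : List V)
    (hη : |2 * N0 * MacF_mean K (2 * h) M B (lst x l) - a| + 2 * ε0 * N0 + 5 * B ≤ η)
    (hnd : (x :: ρ).Nodup) (hno : NoLH (2 * h) x ρ l l')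
    (hlen : l'.length = 2 * B * (N0 + 1))
    (hgood : ¬ MacF_bad K (2 * h) M B N0 ε0 (lst x l) l') :
    |((run (x :: ρ) (l ++ l')).length : ℝ) - (run (x :: ρ) l).length - a| ≤ η := by
  unfold MacF_bad at hgood
  push Not at hgood
  obtain ⟨hg1, hg2⟩ := hgood
  have h1 := Mac_level (2 * h) M B N0 (by omega) hM hB x ρ l l' hnd hno hlen (by
    intro i hi
    exact hg1 i (by omega))
  rw [Finset.sum_sub_distrib, Finset.sum_const, Finset.card_range, nsmul_eq_mul] at hg2
  set D : ℝ := ((run (x :: ρ) (l ++ l')).length : ℝ) - (run (x :: ρ) l).length with hD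
  set S : ℝ := ∑ i ∈ Finset.range (2 * B * N0), (Mac_F (2 * h) M B (lst (lst x l) (l'.take i))
          ((l'.drop i).take (2 * B)) : ℝ) with hS
  set κ := MacF_mean K (2 * h) M B (lst x l) with hκ
  have hBp : (0 : ℝ) < B := by exact_mod_cast hB1
  have h2 : |(B : ℝ) * (D - 2 * N0 * κ)| ≤ (B : ℝ) * (2 * ε0 * N0 + 5 * B) := by
    have e : (B : ℝ) * (D - 2 * N0 * κ)
        = (B * D - S) + (S - ((2 * B * N0 : ℕ) : ℝ) * κ) := by push_cast; ring
    rw [e]
    refine (abs_add_le _ _).trans ?_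
    have e2 : ε0 * (((2 * B : ℕ) : ℝ) * N0) = (B : ℝ) * (2 * ε0 * N0) := by push_cast; ring
    rw [e2] at hg2
    have e3 : (B : ℝ) * (2 * ε0 * N0 + 5 * B) = B * (2 * ε0 * N0) + 5 * B * B := by ring
    rw [e3]
    linarith
  rw [abs_mul, abs_of_pos hBp] at h2
  have h3 := le_of_mul_le_mul_left h2 hBp
  have h4 : |D - a| ≤ |D - 2 * N0 * κ| + |2 * N0 * κ - a| := by
    have := abs_add_le (D - 2 * N0 * κ) (2 * N0 * κ - a)
    have e : D - 2 * N0 * κ + (2 * N0 * κ - a) = D - a := by ring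
    rwa [e] at this
  linarith

/-- the pointwise comparison of the windows -/
theorem MacF_pointwise (s r a w η : ℕ) (b : ℕ) (hb : 1 ≤ b) (Γ : List V) (x : V) (ρ l l' : List V)
    (hnd : (x :: ρ).Nodup) (hs : l'.length = s) (Bad : Prop)
    (hlev : ¬ Bad → NoLH b x ρ l l' →
      |((run (x :: ρ) (l ++ l')).length : ℝ) - (run (x :: ρ) l).length - a| ≤ η) :
    |ind (∀ y ∈ l', y ∉ Γ) * Mac_win (r + a) w x ρ (l ++ l') - Mac_win r w x ρ l|
      ≤ ind (∀ y ∈ l', y ∉ Γ) * (ind (LHin b s x ρ (l ++ l')) * Mac_win (r + a) w x ρ (l ++ l'))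
        + Mac_win r w x ρ l * ind (¬ ((∀ y ∈ l', y ∉ Γ) ∧ NoLH b x ρ l l'))
        + (Mac_win (r - η) (2 * η) x ρ l + Mac_win (r + w - η) (2 * η) x ρ l)
        + ind Bad * (Mac_win r w x ρ l + Mac_win (r + a - s) (w + 2 * s + b) x ρ l) := by
  have w0 : ∀ r w l, 0 ≤ Mac_win r w x ρ l := fun r w l => MacD_win_nonneg _ _ _ _ _
  have w1 : ∀ r w l, Mac_win r w x ρ l ≤ 1 := fun r w l => MacD_win_le_one _ _ _ _ _
  have i0 := fun P => ind_nonneg P
  by_cases hav : ∀ y ∈ l', y ∉ Γ
  · rw [ind_true hav, one_mul, one_mul]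
    by_cases hno : NoLH b x ρ l l'
    · rw [ind_false (not_not.2 ⟨hav, hno⟩), mul_zero, add_zero]
      have hLH : ¬ LHin b s x ρ (l ++ l') := (not_LHin_iff b s x ρ l l' hs).2 hno
      rw [ind_false hLH, zero_mul, zero_add]
      by_cases hbad : Bad
      · rw [ind_true hbad, one_mul]
        have hle : Mac_win (r + a) w x ρ (l ++ l') ≤ Mac_win (r + a - s) (w + 2 * s + b) x ρ l := by
          refine ind_mono ?_
          rintro ⟨h1, h2⟩
          have h3 := Mac_drop b hb x ρ l l' hnd hno s 0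
          have h4 := Mac_len_le_add x ρ l l' 0 s
          unfold Mac_len at h3 h4
          have etk : l'.take s = l' := List.take_of_length_le (by omega)
          rw [zero_add, etk] at h3 h4
          simp only [List.take_zero, List.append_nil] at h3 h4
          have h5 : 1 ≤ (run (x :: ρ) l).length := by
            obtain ⟨τ, hτ⟩ := run_head x ρ l
            rw [hτ]
            simp
          constructor <;> omega
        have h2 := w0 (r + a) w (l ++ l')
        have h3 := w0 r w l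
        have h4 := w0 (r - η) (2 * η) l
        have h5 := w0 (r + w - η) (2 * η) l
        rw [abs_le]
        constructor <;> linarith
      · rw [ind_false hbad, zero_mul, add_zero]
        have hl := hlev hbad hno
        rw [abs_le] at hl
        have hl1 : (run (x :: ρ) l).length + a ≤ (run (x :: ρ) (l ++ l')).length + η := by
          have : ((run (x :: ρ) l).length : ℝ) + a ≤ (run (x :: ρ) (l ++ l')).length + η := by
            linarith [hl.1]
          exact_mod_cast this
        have hl2 : (run (x :: ρ) (l ++ l')).length ≤ (run (x :: ρ) l).length + a + η := by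
          have : ((run (x :: ρ) (l ++ l')).length : ℝ) ≤ (run (x :: ρ) l).length + a + η := by
            linarith [hl.2]
          exact_mod_cast this
        have h4 := w0 (r - η) (2 * η) l
        have h5 := w0 (r + w - η) (2 * η) l
        have hpos : 1 ≤ (run (x :: ρ) l).length := by
          obtain ⟨τ, hτ⟩ := run_head x ρ l
          rw [hτ]
          simp
        by_cases hA : r + a + 1 ≤ (run (x :: ρ) (l ++ l')).length ∧
            (run (x :: ρ) (l ++ l')).length < r + a + w + 1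
        · have eA : Mac_win (r + a) w x ρ (l ++ l') = 1 := ind_true hA
          by_cases hC : r + 1 ≤ (run (x :: ρ) l).length ∧ (run (x :: ρ) l).length < r + w + 1
          · have eC : Mac_win r w x ρ l = 1 := ind_true hC
            rw [eA, eC, sub_self, abs_zero]
            linarith
          · have eC : Mac_win r w x ρ l = 0 := ind_false hC
            rw [eA, eC, sub_zero, abs_one]
            by_cases hD : r - η + 1 ≤ (run (x :: ρ) l).length ∧
                (run (x :: ρ) l).length < r - η + 2 * η + 1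
            · have eD : Mac_win (r - η) (2 * η) x ρ l = 1 := ind_true hD
              linarith
            · have eE : Mac_win (r + w - η) (2 * η) x ρ l = 1 := ind_true (by omega)
              linarith
        · have eA : Mac_win (r + a) w x ρ (l ++ l') = 0 := ind_false hA
          by_cases hC : r + 1 ≤ (run (x :: ρ) l).length ∧ (run (x :: ρ) l).length < r + w + 1
          · have eC : Mac_win r w x ρ l = 1 := ind_true hC
            rw [eA, eC, zero_sub, abs_neg, abs_one]
            by_cases hD : r - η + 1 ≤ (run (x :: ρ) l).length ∧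
                (run (x :: ρ) l).length < r - η + 2 * η + 1
            · have eD : Mac_win (r - η) (2 * η) x ρ l = 1 := ind_true hD
              linarith
            · have eE : Mac_win (r + w - η) (2 * η) x ρ l = 1 := ind_true (by omega)
              linarith
          · have eC : Mac_win r w x ρ l = 0 := ind_false hC
            rw [eA, eC, sub_self, abs_zero]
            linarith
    · have hLH : LHin b s x ρ (l ++ l') := by
        by_contra hc
        exact hno ((not_LHin_iff b s x ρ l l' hs).1 hc)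
      rw [ind_true hLH, one_mul, ind_true (fun hh => hno hh.2), mul_one]
      have h2 := w0 (r + a) w (l ++ l')
      have h3 := w0 r w l
      have h4 := w0 (r - η) (2 * η) l
      have h5 := w0 (r + w - η) (2 * η) l
      have h6 := mul_nonneg (i0 Bad) (add_nonneg h3 (w0 (r + a - s) (w + 2 * s + b) l))
      rw [abs_le]
      constructor <;> linarith
  · rw [ind_false hav, zero_mul, zero_mul, zero_add, zero_sub, abs_neg,
      ind_true (fun hh => hav hh.1), mul_one, abs_of_nonneg (w0 r w l)]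
    have h3 := w0 r w l
    have h4 := w0 (r - η) (2 * η) l
    have h5 := w0 (r + w - η) (2 * η) l
    have h6 := mul_nonneg (i0 Bad) (add_nonneg h3 (w0 (r + a - s) (w + 2 * s + b) l))
    linarith


theorem MacF_mean_inv (b M B : ℕ) (x y : V) : MacF_mean K b M B x = MacF_mean K b M B y := by
  obtain ⟨σ, hσ, hxy⟩ := K.homog x y
  unfold MacF_mean
  rw [← hxy, W_map K σ hσ]
  exact W_congr K _ x fun l _ => by rw [MacC_F_map]

/-- **Shift inequality with explicit errors.** -/
theorem MacF_main (hP : Par K θ h) (Γ : List V) (hΓ : Γ.Nodup) (x0 : V) (N r a w η M B N0 : ℕ)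
    (hM : 1 ≤ M) (hB1 : 1 ≤ B) (hB : 2 * M * (2 * h) ≤ B) (ε0 : ℝ) (hε0 : 0 < ε0)
    (hη : |2 * N0 * MacF_mean K (2 * h) M B x0 - a| + 2 * ε0 * N0 + 5 * B ≤ η) (π : ℝ)
    (hπ : (((2 * B * (N0 + 1) : ℕ) : ℝ) + 1) * (1 - 1 / (2 * θ)) ^ M
        + 2 * ((2 * B : ℕ) : ℝ) * Real.exp (- (ε0 ^ 2 * N0 / (16 * ((2 * B : ℕ) : ℝ) ^ 2))) ≤ π) :
    |km K Γ (N + 2 * B * (N0 + 1)) (Mac_win (r + a) w) - km K Γ N (Mac_win r w)|
      ≤ km K Γ (2 * B * (N0 + 1)) (Mac_win (r + a) w)
        + km K Γ (N + 2 * B * (N0 + 1)) (fun x ρ l =>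
            ind (LHin (2 * h) (2 * B * (N0 + 1)) x ρ l) * Mac_win (r + a) w x ρ l)
        + km K Γ N (fun x ρ l => Mac_win r w x ρ l * MacE_bad K (2 * h) (2 * B * (N0 + 1)) Γ x ρ l)
        + (km K Γ N (Mac_win (r - η) (2 * η)) + km K Γ N (Mac_win (r + w - η) (2 * η)))
        + π * (km K Γ N (Mac_win r w) + km K Γ N (Mac_win (r + a - 2 * B * (N0 + 1))
            (w + 2 * (2 * B * (N0 + 1)) + 2 * h))) := by
  set s := 2 * B * (N0 + 1) with hs
  have hh1 := hP.h_pos
  rw [km_split]
  set f1 : V → List V → List V → ℝ := fun x ρ l =>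
      W K s (lst x l) (fun l' => ind (∀ y ∈ l', y ∉ Γ) * Mac_win (r + a) w x ρ (l ++ l')) with hf1
  have e1 : km K Γ s (Mac_win (r + a) w) + km K Γ N f1 - km K Γ N (Mac_win r w)
      = km K Γ s (Mac_win (r + a) w) + km K Γ N (fun x ρ l => f1 x ρ l + (-1) * Mac_win r w x ρ l) := by
    rw [km_add, km_mul_left]
    ring
  rw [e1]
  have hkn : 0 ≤ km K Γ s (Mac_win (r + a) w) :=
    km_nonneg K Γ s fun x ρ l => MacD_win_nonneg _ _ _ _ _
  refine (abs_add_le _ _).trans ?_
  rw [abs_of_nonneg hkn]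
  have hπ0 : 0 ≤ π := by
    refine le_trans ?_ hπ
    have hθ := hP.one_le
    have hq : 0 ≤ 1 - 1 / (2 * θ) := by
      rw [sub_nonneg, div_le_one (by linarith)]
      linarith
    positivity
  -- the main comparison
  have key : |km K Γ N (fun x ρ l => f1 x ρ l + (-1) * Mac_win r w x ρ l)|
      ≤ km K Γ N (fun x ρ l => (W K s (lst x l) (fun l' => ind (∀ y ∈ l', y ∉ Γ) *
          (ind (LHin (2 * h) s x ρ (l ++ l')) * Mac_win (r + a) w x ρ (l ++ l')))
        + Mac_win r w x ρ l * MacE_bad K (2 * h) s Γ x ρ l)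
        + ((Mac_win (r - η) (2 * η) x ρ l + Mac_win (r + w - η) (2 * η) x ρ l)
        + π * (Mac_win r w x ρ l + Mac_win (r + a - s) (w + 2 * s + 2 * h) x ρ l))) := by
    have habs : |km K Γ N (fun x ρ l => f1 x ρ l + (-1) * Mac_win r w x ρ l)|
        ≤ km K Γ N (fun x ρ l => |f1 x ρ l + (-1) * Mac_win r w x ρ l|) := by
      unfold km
      refine (Finset.abs_sum_le_sum_abs _ _).trans (Finset.sum_le_sum fun t _ => ?_)
      exact kmT_abs_le K Γ t _
    refine habs.trans (km_mono K Γ N fun i l _ _ => ?_)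
    set x := Γ.get i with hx
    set ρ := Γ.drop (i + 1) with hρ
    have hnd : (x :: ρ).Nodup := MacE_nodup hΓ i
    have e2 : f1 x ρ l + (-1) * Mac_win r w x ρ l = W K s (lst x l) (fun l' =>
        ind (∀ y ∈ l', y ∉ Γ) * Mac_win (r + a) w x ρ (l ++ l') - Mac_win r w x ρ l) := by
      rw [W_sub, W_const]
      ring
    rw [e2]
    refine (W_abs_le K s _ _).trans ?_
    have e3 : W K s (lst x l) (fun l' =>
        |ind (∀ y ∈ l', y ∉ Γ) * Mac_win (r + a) w x ρ (l ++ l') - Mac_win r w x ρ l|)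
        ≤ W K s (lst x l) (fun l' =>
          ind (∀ y ∈ l', y ∉ Γ) * (ind (LHin (2 * h) s x ρ (l ++ l')) * Mac_win (r + a) w x ρ (l ++ l'))
          + Mac_win r w x ρ l * ind (¬ ((∀ y ∈ l', y ∉ Γ) ∧ NoLH (2 * h) x ρ l l'))
          + (Mac_win (r - η) (2 * η) x ρ l + Mac_win (r + w - η) (2 * η) x ρ l)
          + ind (MacF_bad K (2 * h) M B N0 ε0 (lst x l) l')
            * (Mac_win r w x ρ l + Mac_win (r + a - s) (w + 2 * s + 2 * h) x ρ l)) := by
      refine W_mono K s _ fun l' hl' => ?_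
      refine MacF_pointwise s r a w η (2 * h) (by omega) Γ x ρ l l' hnd hl'
        (MacF_bad K (2 * h) M B N0 ε0 (lst x l) l') ?_
      intro hgood hno
      refine MacF_level (K := K) M B N0 hM hB1 hh1 hB ε0 a η x ρ l l' ?_ hnd hno hl' hgood
      rw [MacF_mean_inv (2 * h) M B (lst x l) x0]
      exact hη
    refine e3.trans ?_
    rw [W_add, W_add, W_add, W_mul_left, W_const, W_mul_right]
    have hpr := MacF_prob hP M B N0 hM hB1 hB ε0 hε0 (lst x l)
    have hpr2 := hpr.trans hπ
    have hw := add_nonneg (MacD_win_nonneg r w x ρ l)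
      (MacD_win_nonneg (r + a - s) (w + 2 * s + 2 * h) x ρ l)
    have h5 := mul_le_mul_of_nonneg_right hpr2 hw
    unfold MacE_bad
    linarith
  have hsplit := MacE_km_split_le (K := K) Γ N s (fun x ρ l =>
    ind (LHin (2 * h) s x ρ l) * Mac_win (r + a) w x ρ l)
    (fun x ρ l => mul_nonneg (ind_nonneg _) (MacD_win_nonneg _ _ _ _ _))
  have hR : km K Γ N (fun x ρ l => (W K s (lst x l) (fun l' => ind (∀ y ∈ l', y ∉ Γ) *
          (ind (LHin (2 * h) s x ρ (l ++ l')) * Mac_win (r + a) w x ρ (l ++ l')))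
        + Mac_win r w x ρ l * MacE_bad K (2 * h) s Γ x ρ l)
        + ((Mac_win (r - η) (2 * η) x ρ l + Mac_win (r + w - η) (2 * η) x ρ l)
        + π * (Mac_win r w x ρ l + Mac_win (r + a - s) (w + 2 * s + 2 * h) x ρ l)))
      = (km K Γ N (fun x ρ l => W K s (lst x l) (fun l' => ind (∀ y ∈ l', y ∉ Γ) *
          (ind (LHin (2 * h) s x ρ (l ++ l')) * Mac_win (r + a) w x ρ (l ++ l'))))
        + km K Γ N (fun x ρ l => Mac_win r w x ρ l * MacE_bad K (2 * h) s Γ x ρ l))
        + ((km K Γ N (Mac_win (r - η) (2 * η)) + km K Γ N (Mac_win (r + w - η) (2 * η)))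
        + π * (km K Γ N (Mac_win r w) + km K Γ N (Mac_win (r + a - s) (w + 2 * s + 2 * h)))) := by
    rw [km_add, km_add, km_add, km_add, km_mul_left, km_add]
  rw [hR] at key
  linarith

end Pool.Agent.helper20.HP
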