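import Pool.Agent.helper65.HP.MacG

/-! # MP_5ae64c_pr, macroscopic step, part H: limit and choice of parameters -/

open scoped BigOperators Topology
open Filter MeasureTheory

namespace Pool.Agent.helper20.HP

variable {V : Type} [Fintype V] [DecidableEq V] {K : HW V} {θ : ℝ} {h : ℕ}

theorem MacH_lim (Γ : List V) (hΓ : Γ.Nodup) (r a w s : ℕ) (E : ℝ)
    (hE : ∀ N, |km K Γ (N + s) (Mac_win (r + a) w) - km K Γ N (Mac_win r w)| ≤ E) :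
    |∑ y ∈ Finset.range w, Phi K Γ (r + a + y) - ∑ y ∈ Finset.range w, Phi K Γ (r + y)| ≤ E := by
  have h1 := MacG_km_win_tendsto (K := K) Γ hΓ (r + a) w
  have h2 := MacG_km_win_tendsto (K := K) Γ hΓ r w
  have h3 : Tendsto (fun N => km K Γ (N + s) (Mac_win (r + a) w)) atTop
      (𝓝 (∑ y ∈ Finset.range w, Phi K Γ (r + a + y))) :=
    h1.comp (tendsto_add_atTop_nat s)
  have h4 := (h3.sub h2).abs
  exact le_of_tendsto h4 (Filter.Eventually.of_forall hE)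

theorem MacH_Phi_le (hP : Par K θ h) (Γ : List V) (hΓ : Γ.Nodup) (r : ℕ) :
    Phi K Γ r ≤ CP θ * ((Nat.sqrt (Fintype.card V) : ℝ) + r) :=
  le_of_tendsto (PhiN_tendsto K Γ hΓ r) (Filter.Eventually.of_forall fun N => phi_bound hP Γ hΓ N r)

/-- small shifts -/
theorem MacH_small (hP : Par K θ h) (Γ : List V) (hΓ : Γ.Nodup) (r a w : ℕ) :
    |∑ y ∈ Finset.range w, Phi K Γ (r + a + y) - ∑ y ∈ Finset.range w, Phi K Γ (r + y)|
      ≤ a * (CP θ * ((Nat.sqrt (Fintype.card V) : ℝ) + (r + w + a))) := by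
  have hCP := MacG_CP_nonneg hP
  have e1 : ∑ y ∈ Finset.range w, Phi K Γ (r + y) + ∑ y ∈ Finset.range a, Phi K Γ (r + w + y)
      = ∑ y ∈ Finset.range (w + a), Phi K Γ (r + y) := by
    rw [Finset.sum_range_add]
    simp_rw [← add_assoc]
  have e2 : ∑ y ∈ Finset.range a, Phi K Γ (r + y) + ∑ y ∈ Finset.range w, Phi K Γ (r + a + y)
      = ∑ y ∈ Finset.range (w + a), Phi K Γ (r + y) := by
    rw [add_comm w a, Finset.sum_range_add]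
    simp_rw [← add_assoc]
  have hb : ∀ r', r' = r ∨ r' = r + w → ∑ y ∈ Finset.range a, Phi K Γ (r' + y)
      ≤ a * (CP θ * ((Nat.sqrt (Fintype.card V) : ℝ) + (r + w + a))) := by
    intro r' hr'
    have h1 : ∀ y ∈ Finset.range a, Phi K Γ (r' + y)
        ≤ CP θ * ((Nat.sqrt (Fintype.card V) : ℝ) + (r + w + a)) := by
      intro y hy
      rw [Finset.mem_range] at hy
      refine (MacH_Phi_le hP Γ hΓ (r' + y)).trans ?_
      have h2 : r' + y ≤ r + w + a := by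
        rcases hr' with h | h <;> omega
      have h3 : ((r' + y : ℕ) : ℝ) ≤ (r : ℝ) + w + a := by exact_mod_cast h2
      gcongr
    refine (Finset.sum_le_sum h1).trans ?_
    rw [Finset.sum_const, Finset.card_range, nsmul_eq_mul]
  have hb1 := hb r (Or.inl rfl)
  have hb2 := hb (r + w) (Or.inr rfl)
  have n1 : 0 ≤ ∑ y ∈ Finset.range a, Phi K Γ (r + y) :=
    Finset.sum_nonneg fun y _ => Phi_nonneg K Γ _
  have n2 : 0 ≤ ∑ y ∈ Finset.range a, Phi K Γ (r + w + y) :=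
    Finset.sum_nonneg fun y _ => Phi_nonneg K Γ _
  rw [abs_le]
  constructor <;> linarith

theorem MacH_mean_le (b M B : ℕ) (hM : 1 ≤ M) (hB : 2 * M * b ≤ B) (x : V) :
    MacF_mean K b M B x ≤ 2 * B := by
  unfold MacF_mean
  refine (W_mono K _ x (g := fun _ => (2 * B : ℝ)) fun l _ => ?_).trans (W_const K _ x _).le
  exact_mod_cast MacC_F_le b M B hM hB x l

/-- choice of the number of increments, of the accuracy and of the margin -/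
theorem MacH_choice (θ δ ε1 κ : ℝ) (a B w L : ℕ) (hθ : 1 ≤ θ) (hδ : δ * (64 * θ) ≤ 1)
    (hε1 : 0 < ε1) (hε1' : ε1 ≤ 1 / 8) (hκ1 : κ ≤ 2 * B) (hκ2 : (B : ℝ) / (4 * θ) ≤ κ)
    (hB1 : 1 ≤ B) (haδ : (a : ℝ) ≤ δ * L) (haB : 4 * B < a) (hBL : 16 * B ≤ L)
    (hBw : 9 * (B : ℝ) + 1 ≤ ε1 * w) :
    ∃ (N0 η : ℕ) (ε0 : ℝ), 0 < ε0 ∧ 4 * (2 * B * (N0 + 1)) ≤ L ∧
      (((2 * B * (N0 + 1) : ℕ)) : ℝ) ≤ 4 * θ * δ * L + 2 * B ∧
      |2 * N0 * κ - a| + 2 * ε0 * N0 + 5 * B ≤ η ∧ (η : ℝ) ≤ 3 * ε1 * w ∧ η ≤ w ∧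
      ε1 ^ 2 * w ^ 2 / (2 * ((L : ℝ) * B)) ≤ ε0 ^ 2 * N0 / (16 * ((2 * B : ℕ) : ℝ) ^ 2) := by
  have hBp : (0 : ℝ) < B := by exact_mod_cast hB1
  have hB1' : (1 : ℝ) ≤ B := by exact_mod_cast hB1
  have hκp : 0 < κ := lt_of_lt_of_le (div_pos hBp (by linarith)) hκ2
  have haB' : 4 * (B : ℝ) < a := by exact_mod_cast haB
  have hBL' : 16 * (B : ℝ) ≤ L := by exact_mod_cast hBL
  have ha0 : (0 : ℝ) < a := by linarith
  have hκB : (B : ℝ) ≤ 4 * θ * κ := by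
    rw [div_le_iff₀ (by linarith)] at hκ2
    linarith
  have hw0 : (0 : ℝ) < w := by
    have : (0 : ℝ) < ε1 * w := by linarith
    exact (mul_pos_iff_of_pos_left hε1).1 this
  obtain ⟨N0, hN0⟩ : ∃ N : ℕ, N = ⌊(a : ℝ) / (2 * κ)⌋₊ := ⟨_, rfl⟩
  have h2κ : 0 < 2 * κ := by linarith
  have hN1 : (N0 : ℝ) ≤ a / (2 * κ) := by
    rw [hN0]; exact Nat.floor_le (div_nonneg ha0.le h2κ.le)
  have hN2 : (a : ℝ) / (2 * κ) < N0 + 1 := by
    rw [hN0]; exact Nat.lt_floor_add_one _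
  have hN3 : 1 ≤ N0 := by
    rw [hN0, Nat.le_floor_iff (div_nonneg ha0.le h2κ.le), Nat.cast_one, le_div_iff₀ h2κ]
    linarith
  have hN3' : (1 : ℝ) ≤ N0 := by exact_mod_cast hN3
  have hN4 : 2 * N0 * κ ≤ a := by
    rw [le_div_iff₀ h2κ] at hN1
    linarith
  have hN5 : (a : ℝ) < 2 * N0 * κ + 2 * κ := by
    rw [div_lt_iff₀ h2κ] at hN2
    linarith
  have hN6 : (N0 : ℝ) * B ≤ 2 * θ * a := by
    have h2 : (N0 : ℝ) * B ≤ N0 * (4 * θ * κ) := mul_le_mul_of_nonneg_left hκB (by linarith)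
    have h3 : 2 * θ * (2 * N0 * κ) ≤ 2 * θ * a := mul_le_mul_of_nonneg_left hN4 (by linarith)
    linarith
  have hN0p : (0 : ℝ) < N0 := by linarith
  obtain ⟨ε0, hε0⟩ : ∃ e : ℝ, e = ε1 * w / N0 := ⟨_, rfl⟩
  have hε0p : 0 < ε0 := by rw [hε0]; exact div_pos (mul_pos hε1 hw0) hN0p
  have hε0N : ε0 * N0 = ε1 * w := by rw [hε0]; field_simp
  obtain ⟨η, hη⟩ : ∃ e : ℕ, e = ⌈2 * ε1 * w + 9 * B⌉₊ := ⟨_, rfl⟩
  have hεw : 0 < ε1 * w := mul_pos hε1 hw0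
  have hη1 : 2 * ε1 * w + 9 * B ≤ η := by rw [hη]; exact Nat.le_ceil _
  have hη2 : (η : ℝ) < 2 * ε1 * w + 9 * B + 1 := by
    rw [hη]; exact Nat.ceil_lt_add_one (by linarith)
  have hη3 : (η : ℝ) ≤ 3 * ε1 * w := by linarith
  have hη4 : (η : ℝ) ≤ w := by
    have : ε1 * w ≤ 1 / 8 * w := mul_le_mul_of_nonneg_right hε1' hw0.le
    linarith
  have hη5 : η ≤ w := by exact_mod_cast hη4
  have hθa : 2 * θ * a ≤ 2 * θ * (δ * L) := mul_le_mul_of_nonneg_left haδ (by linarith)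
  have hδL : 64 * (θ * (δ * L)) ≤ L := by
    have h1 : δ * (64 * θ) * L ≤ 1 * L := mul_le_mul_of_nonneg_right hδ (by linarith)
    linarith
  have hcast : (((2 * B * (N0 + 1) : ℕ)) : ℝ) = 2 * (N0 * B) + 2 * B := by push_cast; ring
  have hs1 : (((2 * B * (N0 + 1) : ℕ)) : ℝ) ≤ 4 * θ * δ * L + 2 * B := by
    rw [hcast]
    linarith
  have h4s : 4 * (2 * B * (N0 + 1)) ≤ L := by
    have : (((4 * (2 * B * (N0 + 1)) : ℕ)) : ℝ) ≤ L := by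
      rw [Nat.cast_mul, hcast]
      push_cast
      linarith
    exact_mod_cast this
  have hηh : |2 * N0 * κ - a| + 2 * ε0 * N0 + 5 * B ≤ η := by
    have h1 : |2 * N0 * κ - a| ≤ 4 * B := by
      rw [abs_le]
      constructor <;> linarith
    linarith
  refine ⟨N0, η, ε0, hε0p, h4s, hs1, hηh, hη3, hη5, ?_⟩
  have e1 : ε0 ^ 2 * N0 / (16 * ((2 * B : ℕ) : ℝ) ^ 2) = ε1 ^ 2 * w ^ 2 / (64 * (N0 * B) * B) := by
    rw [hε0]
    push_cast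
    field_simp
    ring
  rw [e1]
  have hNB : 0 < (N0 : ℝ) * B := mul_pos hN0p hBp
  apply div_le_div_of_nonneg_left (by positivity) (by positivity)
  have h2 : 64 * ((N0 : ℝ) * B) ≤ 2 * L := by linarith
  calc 64 * ((N0 : ℝ) * B) * B ≤ 2 * L * B := mul_le_mul_of_nonneg_right h2 hBp.le
    _ = 2 * ((L : ℝ) * B) := by ring

theorem MacH_combine (w s s' h η η' L P D1 D2 D3 D4 : ℝ) (hw : 0 ≤ w) (hs : s ≤ s') (hη : η ≤ η')
    (hL : 0 ≤ L) (hD1 : 0 ≤ D1) (hD3 : 0 ≤ D3) :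
    w * s * D1 + w * (h + 1) * D2 + η * L * D3 + P * L ^ 2 * D4
      ≤ w * s' * D1 + w * (h + 1) * D2 + η' * L * D3 + P * L ^ 2 * D4 := by
  have a1 : w * s * D1 ≤ w * s' * D1 :=
    mul_le_mul_of_nonneg_right (mul_le_mul_of_nonneg_left hs hw) hD1
  have a2 : η * L * D3 ≤ η' * L * D3 :=
    mul_le_mul_of_nonneg_right (mul_le_mul_of_nonneg_right hη hL) hD3
  linarith

theorem MacH_mean_bounds (hP : Par K θ h) (M B : ℕ) (hM : 1 ≤ M) (hMB : 8 * h * M ≤ B) (x0 : V)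
    (hBL : 16 * B ≤ Nat.sqrt (Fintype.card V)) :
    2 * M * (2 * h) ≤ B ∧ MacF_mean K (2 * h) M B x0 ≤ 2 * B ∧
      (B : ℝ) / (4 * θ) ≤ MacF_mean K (2 * h) M B x0 := by
  have hθ := hP.one_le
  have hh1 := hP.h_pos
  have hB2 : 2 * M * (2 * h) ≤ B := by
    have : 2 * M * (2 * h) = 4 * h * M := by ring
    rw [this]
    refine le_trans ?_ hMB
    exact Nat.mul_le_mul_right _ (by omega)
  refine ⟨hB2, MacH_mean_le (2 * h) M B hM hB2 x0, ?_⟩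
  have h1 := MacC_mean_lower hP (2 * h) M B hM hB2 x0 (by omega)
  refine le_trans ?_ h1
  have h2 : 2 * (M : ℝ) * ((2 * h : ℕ) : ℝ) ≤ B / 2 := by
    have h3 : ((8 * h * M : ℕ) : ℝ) ≤ B := by exact_mod_cast hMB
    push_cast at h3 ⊢
    linarith
  rw [div_le_div_iff₀ (by linarith) (by linarith)]
  have h4 : (B : ℝ) / 2 ≤ (B : ℝ) - 2 * M * ((2 * h : ℕ) : ℝ) := by linarith
  have h5 : (B : ℝ) / 2 * (4 * θ) ≤ ((B : ℝ) - 2 * M * ((2 * h : ℕ) : ℝ)) * (4 * θ) :=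
    mul_le_mul_of_nonneg_right h4 (by linarith)
  linarith

/-- the shift inequality with chosen parameters -/
theorem MacH_core (hP : Par K θ h) (A : ℝ) (hA : 0 ≤ A) (Γ : List V) (hΓ : Γ.Nodup)
    (hΓA : (Γ.length : ℝ) ≤ A * Nat.sqrt (Fintype.card V)) (x0 : V) (r a w M B : ℕ)
    (hM : 1 ≤ M) (hB1 : 1 ≤ B) (hMB : 8 * h * M ≤ B)
    (δ ε1 : ℝ) (hδ : δ * (64 * θ) ≤ 1) (hε1 : 0 < ε1) (hε1' : ε1 ≤ 1 / 8)
    (haδ : (a : ℝ) ≤ δ * Nat.sqrt (Fintype.card V))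
    (haB : 4 * B < a) (hBL : 16 * B ≤ Nat.sqrt (Fintype.card V))
    (hr : (r : ℝ) + a ≤ A * Nat.sqrt (Fintype.card V))
    (hwL : w + 4 * h ≤ Nat.sqrt (Fintype.card V)) (hhw : h ≤ w)
    (hBw : 9 * (B : ℝ) + 1 ≤ ε1 * w) (π : ℝ)
    (hπ : (Nat.sqrt (Fintype.card V) : ℝ) * (1 - 1 / (2 * θ)) ^ M
        + 4 * (B : ℝ) * Real.exp (- (ε1 ^ 2 * w ^ 2 / (2 * ((Nat.sqrt (Fintype.card V) : ℝ) * B)))) ≤ π) :
    |∑ y ∈ Finset.range w, Phi K Γ (r + a + y) - ∑ y ∈ Finset.range w, Phi K Γ (r + y)|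
      ≤ (w : ℝ) * (4 * θ * δ * Nat.sqrt (Fintype.card V) + 2 * B)
          * (5 / 2 * CZ θ + 15 / 2 * CP θ * ((A + 2) * (2 * A + 2)))
        + w * ((h : ℝ) + 1) * (5 * CZ θ)
        + (3 * ε1 * w) * (Nat.sqrt (Fintype.card V) : ℝ) * (4 * CP θ * (A + 4))
        + π * ((Nat.sqrt (Fintype.card V) : ℝ) ^ 2) * (CP θ * (3 * A + 8)) := by
  have hθ := hP.one_le
  have hCP := MacG_CP_nonneg hP
  have hCZ := MacG_CZ_nonneg θ
  have hBp : (0 : ℝ) < B := by exact_mod_cast hB1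
  have hB1' : (1 : ℝ) ≤ B := by exact_mod_cast hB1
  obtain ⟨hB2, hκ1, hκ2⟩ := MacH_mean_bounds hP M B hM hMB x0 hBL
  obtain ⟨N0, η, ε0, hε0p, h4s, hs1, hηh, hη3, hη5, hexp⟩ := MacH_choice θ δ ε1
    (MacF_mean K (2 * h) M B x0) a B w (Nat.sqrt (Fintype.card V)) hθ hδ hε1 hε1' hκ1 hκ2 hB1
    haδ haB hBL hBw
  have hq : 0 ≤ 1 - 1 / (2 * θ) := by
    rw [sub_nonneg, div_le_one (by linarith)]
    linarith
  have hπ' : (((2 * B * (N0 + 1) : ℕ) : ℝ) + 1) * (1 - 1 / (2 * θ)) ^ M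
        + 2 * ((2 * B : ℕ) : ℝ) * Real.exp (- (ε0 ^ 2 * N0 / (16 * ((2 * B : ℕ) : ℝ) ^ 2))) ≤ π := by
    refine le_trans (add_le_add ?_ ?_) hπ
    · refine mul_le_mul_of_nonneg_right ?_ (pow_nonneg hq _)
      have h1 : (((2 * B * (N0 + 1)) * 4 : ℕ) : ℝ) ≤ (Nat.sqrt (Fintype.card V) : ℕ) := by
        rw [mul_comm]; exact_mod_cast h4s
      have h2 : (1 : ℝ) ≤ ((2 * B * (N0 + 1) : ℕ) : ℝ) := by
        have : 1 ≤ 2 * B * (N0 + 1) := Nat.mul_pos (by omega) (by omega)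
        exact_mod_cast this
      rw [Nat.cast_mul, Nat.cast_ofNat] at h1
      linarith
    · have e2 : 2 * ((2 * B : ℕ) : ℝ) = 4 * (B : ℝ) := by push_cast; ring
      rw [e2]
      refine mul_le_mul_of_nonneg_left ?_ (by linarith)
      exact Real.exp_le_exp.2 (neg_le_neg hexp)
  have key := MacH_lim (K := K) Γ hΓ r a w (2 * B * (N0 + 1)) _ (fun N =>
    MacG_fin hP A hA Γ hΓ hΓA x0 N r a w η M B N0 hM hB1 hB2 ε0 hε0p h4s hηh π hπ' hr hwL hhw hη5)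
  refine key.trans ?_
  have hD1 : 0 ≤ 5 / 2 * CZ θ + 15 / 2 * CP θ * ((A + 2) * (2 * A + 2)) :=
    add_nonneg (mul_nonneg (by norm_num) hCZ) (mul_nonneg (mul_nonneg (by norm_num) hCP)
      (mul_nonneg (by linarith) (by linarith)))
  have hD3 : 0 ≤ 4 * CP θ * (A + 4) := mul_nonneg (by linarith) (by linarith)
  exact MacH_combine _ _ _ _ _ _ _ _ _ _ _ _ (Nat.cast_nonneg _) hs1 hη3 (Nat.cast_nonneg _) hD1 hD3

end Pool.Agent.helper20.HP
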