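import Pool.Agent.helper65.HP.MacH

/-! # MP_5ae64c_pr, module MA: elementary estimates -/

open scoped BigOperators Topology
open Filter MeasureTheory

namespace Pool.Agent.helper20.HP

theorem MacI_asymp (α c c' c'' : ℝ) (hα : 0 < α) (hc : 0 < c) (hc' : 0 < c') (hc'' : 0 < c'') :
    ∃ n0 : ℕ, ∀ n : ℕ, n0 ≤ n → 4 ≤ n ∧ (n : ℝ) ^ (-(α / 8)) ≤ c ∧
      (n : ℝ) * Real.exp (-c' * (n : ℝ) ^ (α / 4)) ≤ c'' := by
  have h1 : Tendsto (fun x : ℝ => x ^ (-(α / 8))) atTop (𝓝 0) :=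
    tendsto_rpow_neg_atTop (by positivity)
  have h2 : Tendsto (fun x : ℝ => x * Real.exp (-c' * x ^ (α / 4))) atTop (𝓝 0) := by
    have h3 := tendsto_rpow_mul_exp_neg_mul_atTop_nhds_zero (4 / α) c' hc'
    have h4 : Tendsto (fun x : ℝ => x ^ (α / 4)) atTop atTop := tendsto_rpow_atTop (by positivity)
    have h5 := h3.comp h4
    refine h5.congr' ?_
    filter_upwards [eventually_gt_atTop 0] with x hx
    simp only [Function.comp]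
    rw [← Real.rpow_mul hx.le]
    have : α / 4 * (4 / α) = 1 := by field_simp
    rw [this, Real.rpow_one]
  have e1 : ∀ᶠ x : ℝ in atTop, x ^ (-(α / 8)) ≤ c :=
    (h1.eventually (ge_mem_nhds hc))
  have e2 : ∀ᶠ x : ℝ in atTop, x * Real.exp (-c' * x ^ (α / 4)) ≤ c'' :=
    (h2.eventually (ge_mem_nhds hc''))
  have e3 : ∀ᶠ n : ℕ in atTop, (n : ℝ) ^ (-(α / 8)) ≤ c :=
    tendsto_natCast_atTop_atTop.eventually e1
  have e4 : ∀ᶠ n : ℕ in atTop, (n : ℝ) * Real.exp (-c' * (n : ℝ) ^ (α / 4)) ≤ c'' :=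
    tendsto_natCast_atTop_atTop.eventually e2
  obtain ⟨n0, hn0⟩ := eventually_atTop.1 ((eventually_ge_atTop 4).and (e3.and e4))
  exact ⟨n0, fun n hn => hn0 n hn⟩

/-- the powers in terms of `p = √n` and `g = n^(-α/8)` -/
theorem MacI_powers (α : ℝ) (X : ℝ) (hX : 0 < X) :
    X ^ (1 / 2 - α / 2) = X ^ (1 / 2 : ℝ) * (X ^ (-(α / 8))) ^ 4 ∧
    X ^ (1 / 2 - α) = X ^ (1 / 2 : ℝ) * (X ^ (-(α / 8))) ^ 8 ∧
    X ^ (1 / 2 - α / 8) = X ^ (1 / 2 : ℝ) * X ^ (-(α / 8)) ∧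
    X ^ (α / 4) * (X ^ (-(α / 8))) ^ 2 = 1 := by
  have key : ∀ k : ℕ, (X ^ (-(α / 8))) ^ k = X ^ (-(α / 8) * k) := by
    intro k
    rw [Real.rpow_mul hX.le, Real.rpow_natCast]
  refine ⟨?_, ?_, ?_, ?_⟩
  · rw [key, ← Real.rpow_add hX]
    have : 1 / 2 - α / 2 = 1 / 2 + -(α / 8) * ((4 : ℕ) : ℝ) := by push_cast; ring
    rw [this]
  · rw [key, ← Real.rpow_add hX]
    have : 1 / 2 - α = 1 / 2 + -(α / 8) * ((8 : ℕ) : ℝ) := by push_cast; ring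
    rw [this]
  · rw [← Real.rpow_add hX]
    have : 1 / 2 - α / 8 = 1 / 2 + -(α / 8) := by ring
    rw [this]
  · rw [key, ← Real.rpow_add hX]
    have : α / 4 + -(α / 8) * ((2 : ℕ) : ℝ) = 0 := by push_cast; ring
    rw [this, Real.rpow_zero]

theorem MacI_sqrt (n : ℕ) (hn : 4 ≤ n) (p : ℝ) (hp : 0 < p) (hpp : p * p = n) :
    ((Nat.sqrt n : ℕ) : ℝ) ≤ p ∧ p ≤ 2 * (Nat.sqrt n : ℕ) ∧ 2 ≤ Nat.sqrt n := by
  have h1 : ((Nat.sqrt n : ℕ) : ℝ) * (Nat.sqrt n : ℕ) ≤ n := by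
    have := Nat.sqrt_le n
    exact_mod_cast this
  have h2 : (n : ℝ) < ((Nat.sqrt n : ℕ) + 1) * ((Nat.sqrt n : ℕ) + 1) := by
    have h2 : n < (Nat.sqrt n + 1) * (Nat.sqrt n + 1) := Nat.lt_succ_sqrt n
    exact_mod_cast h2
  have h3 : 2 ≤ Nat.sqrt n := by
    rw [Nat.le_sqrt]
    omega
  have h4 : (2 : ℝ) ≤ (Nat.sqrt n : ℕ) := by exact_mod_cast h3
  generalize ((Nat.sqrt n : ℕ) : ℝ) = L at *
  refine ⟨?_, ?_, h3⟩
  · by_contra hcon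
    push Not at hcon
    nlinarith
  · by_contra hcon
    push Not at hcon
    nlinarith

/-- powers of a small number -/
theorem MacI_pow (g : ℝ) (h0 : 0 < g) (h1 : g ≤ 1 / 8) :
    g ^ 2 ≤ g ∧ g ^ 3 ≤ g ∧ g ^ 4 ≤ g ∧ g ^ 4 ≤ g / 64 ∧ g ^ 8 ≤ g ^ 4 / 8 ∧ g ^ 4 ≤ g ^ 2 := by
  have e2 : g ^ 2 ≤ g / 8 := by nlinarith
  have p2 : 0 < g ^ 2 := by positivity
  have e3 : g ^ 3 ≤ g ^ 2 / 8 := by nlinarith
  have p3 : 0 < g ^ 3 := by positivity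
  have e4 : g ^ 4 ≤ g ^ 3 / 8 := by nlinarith
  have p4 : 0 < g ^ 4 := by positivity
  have e8 : g ^ 8 ≤ g ^ 4 / 8 := by
    have e : g ^ 8 = g ^ 4 * g ^ 4 := by ring
    rw [e]
    nlinarith
  refine ⟨by linarith, by linarith, by linarith, by linarith, e8, by linarith⟩

/-- the number of attempts in a block -/
theorem MacI_M (p g : ℝ) (hp : 0 < p) (hg0 : 0 < g) (hg1 : g ≤ 1 / 8) (h B : ℕ) (hh : 1 ≤ h)
    (hhp : (h : ℝ) ≤ p * g ^ 8) (hB : p * g ^ 4 ≤ B) :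
    1 ≤ B / (8 * h) ∧ 8 * h * (B / (8 * h)) ≤ B ∧
      1 ≤ 8 * g ^ 2 * (((B / (8 * h) : ℕ) : ℝ) + 1) := by
  obtain ⟨g2, g3, g4, g4', g8, g42⟩ := MacI_pow g hg0 hg1
  have p4 : 0 < g ^ 4 := by positivity
  have hpg : 0 < p * g ^ 4 := by positivity
  have h8 : 8 * (h : ℝ) ≤ B := by
    have h1 : p * g ^ 8 ≤ p * (g ^ 4 / 8) := by gcongr
    have h2 : 8 * (p * (g ^ 4 / 8)) = p * g ^ 4 := by ring
    linarith
  have h8' : 8 * h ≤ B := by exact_mod_cast h8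
  refine ⟨?_, Nat.mul_div_le B (8 * h), ?_⟩
  · rw [Nat.one_le_div_iff (by omega)]
    exact h8'
  · have h1 : B < 8 * h * (B / (8 * h) + 1) := Nat.lt_mul_div_succ B (by omega)
    have h2 : (B : ℝ) < ((8 * h * (B / (8 * h) + 1) : ℕ) : ℝ) := by exact_mod_cast h1
    push_cast at h2
    generalize ((B / (8 * h) : ℕ) : ℝ) = M at *
    have hM : 0 < M + 1 := by
      by_contra hcon
      push Not at hcon
      have h3 : (0 : ℝ) < h := by exact_mod_cast hh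
      have h4 : 8 * (h : ℝ) * (M + 1) ≤ 0 := by
        apply mul_nonpos_of_nonneg_of_nonpos (by linarith) hcon
      linarith
    have h3 : p * g ^ 4 ≤ 8 * (p * g ^ 8) * (M + 1) := by
      have : 8 * (h : ℝ) * (M + 1) ≤ 8 * (p * g ^ 8) * (M + 1) := by gcongr
      linarith
    have h4 : p * g ^ 4 * 1 ≤ p * g ^ 4 * (8 * g ^ 4 * (M + 1)) := by
      calc p * g ^ 4 * 1 = p * g ^ 4 := by ring
        _ ≤ 8 * (p * g ^ 8) * (M + 1) := h3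
        _ = _ := by ring
    have h5 : 1 ≤ 8 * g ^ 4 * (M + 1) := le_of_mul_le_mul_left h4 hpg
    refine h5.trans ?_
    gcongr

/-- the first exponential -/
theorem MacI_exp1 (θ c' Y : ℝ) (hθ : 1 ≤ θ) (M : ℕ) (hY : 0 ≤ Y) (hMY : Y / 8 ≤ (M : ℝ) + 1)
    (hc' : c' ≤ 1 / (16 * θ)) :
    (1 - 1 / (2 * θ)) ^ M ≤ 2 * Real.exp (-c' * Y) := by
  have hq : 1 / (2 * θ) ≤ 1 / 2 := by
    rw [div_le_div_iff₀ (by positivity) (by positivity)]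
    linarith
  have hq0 : 0 ≤ 1 / (2 * θ) := by positivity
  have h1 : (1 - 1 / (2 * θ)) ^ M ≤ Real.exp (-(1 / (2 * θ)) * M) := by
    have h2 : 1 - 1 / (2 * θ) ≤ Real.exp (-(1 / (2 * θ))) := by
      have := Real.add_one_le_exp (-(1 / (2 * θ)))
      linarith
    have h3 : 0 ≤ 1 - 1 / (2 * θ) := by linarith
    calc (1 - 1 / (2 * θ)) ^ M ≤ (Real.exp (-(1 / (2 * θ)))) ^ M := by gcongr
      _ = Real.exp (-(1 / (2 * θ)) * M) := by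
          rw [← Real.exp_nat_mul]
          congr 1
          ring
  refine h1.trans ?_
  have h5 : -(1 / (2 * θ)) * M ≤ 1 / 2 + -c' * Y := by
    have h7 : c' * Y ≤ 1 / (16 * θ) * Y := by gcongr
    have h8 : 1 / (16 * θ) * Y ≤ 1 / (2 * θ) * (M + 1) := by
      have e : 1 / (16 * θ) * Y = 1 / (2 * θ) * (Y / 8) := by field_simp; ring
      rw [e]
      gcongr
    have h9 : 1 / (2 * θ) * ((M : ℝ) + 1) = 1 / (2 * θ) * M + 1 / (2 * θ) := by ring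
    linarith
  have h9 : Real.exp (1 / 2) ≤ 2 := by
    have h10 : Real.exp (1 / 2) * Real.exp (1 / 2) = Real.exp 1 := by
      rw [← Real.exp_add]; norm_num
    have h11 := Real.exp_pos (1 / 2)
    have := Real.exp_one_lt_d9
    nlinarith
  calc Real.exp (-(1 / (2 * θ)) * M) ≤ Real.exp (1 / 2 + -c' * Y) := Real.exp_le_exp.2 h5
    _ = Real.exp (1 / 2) * Real.exp (-c' * Y) := Real.exp_add _ _
    _ ≤ 2 * Real.exp (-c' * Y) := by gcongr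

/-- the second exponential -/
theorem MacI_exp2 (p g Y L w B ε1 c' : ℝ) (hp : 0 < p) (hg : 0 < g) (hY : 0 ≤ Y) (hL : 0 < L)
    (hB : 0 < B) (hLp : L ≤ p) (hB2 : B ≤ 2 * (p * g ^ 4)) (hw : p * g / 2 ≤ w)
    (hYg : Y * g ^ 2 = 1) (hc' : c' ≤ ε1 ^ 2 / 16) :
    Real.exp (- (ε1 ^ 2 * w ^ 2 / (2 * (L * B)))) ≤ Real.exp (-c' * Y) := by
  apply Real.exp_le_exp.2
  have h2 : c' * Y ≤ ε1 ^ 2 * w ^ 2 / (2 * (L * B)) := by
    rw [le_div_iff₀ (by positivity)]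
    have h3 : c' * Y ≤ ε1 ^ 2 / 16 * Y := by gcongr
    have h4 : 2 * (L * B) ≤ 4 * (p * (p * g ^ 4)) := by
      have : L * B ≤ p * (2 * (p * g ^ 4)) := by gcongr
      linarith
    have h5 : (p * g / 2) ^ 2 ≤ w ^ 2 := by gcongr
    calc c' * Y * (2 * (L * B)) ≤ ε1 ^ 2 / 16 * Y * (4 * (p * (p * g ^ 4))) := by gcongr
      _ = ε1 ^ 2 * (p * g / 2) ^ 2 * (Y * g ^ 2) := by ring
      _ = ε1 ^ 2 * (p * g / 2) ^ 2 := by rw [hYg, mul_one]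
      _ ≤ ε1 ^ 2 * w ^ 2 := by gcongr
  linarith

theorem MacI_t1 (w L B g D θ δ ε c : ℝ) (hw : 0 ≤ w) (hL : 0 ≤ L) (hD : 0 ≤ D)
    (h1 : 2 * B ≤ 8 * g ^ 4 * L) (hg : g ^ 4 ≤ c)
    (hδ : 4 * θ * δ * D ≤ ε / 4) (hc : 64 * D * c ≤ ε) :
    w * (4 * θ * δ * L + 2 * B) * D ≤ (ε / 4 + ε / 8) * (w * L) := by
  have h2 : 8 * g ^ 4 * D ≤ ε / 8 := by
    have h3 : 8 * g ^ 4 * D ≤ 8 * c * D := by gcongr
    linarith
  calc w * (4 * θ * δ * L + 2 * B) * D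
      ≤ w * (4 * θ * δ * L + 8 * g ^ 4 * L) * D := by gcongr
    _ = (4 * θ * δ * D + 8 * g ^ 4 * D) * (w * L) := by ring
    _ ≤ (ε / 4 + ε / 8) * (w * L) := by gcongr

theorem MacI_t2 (w L g D ε c h : ℝ) (hw : 0 ≤ w) (hL : 0 ≤ L) (hD : 0 ≤ D)
    (h1 : h + 1 ≤ 4 * g ^ 4 * L) (hg : g ^ 4 ≤ c) (hc : 32 * D * c ≤ ε) :
    w * (h + 1) * D ≤ (ε / 8) * (w * L) := by
  have h2 : 4 * g ^ 4 * D ≤ ε / 8 := by
    have h3 : 4 * g ^ 4 * D ≤ 4 * c * D := by gcongr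
    linarith
  calc w * (h + 1) * D ≤ w * (4 * g ^ 4 * L) * D := by gcongr
    _ = (4 * g ^ 4 * D) * (w * L) := by ring
    _ ≤ _ := by gcongr

theorem MacI_t3 (w L D ε ε1 : ℝ) (hw : 0 ≤ w) (hL : 0 ≤ L) (h1 : 3 * ε1 * D ≤ ε / 4) :
    (3 * ε1 * w) * L * D ≤ (ε / 4) * (w * L) := by
  calc (3 * ε1 * w) * L * D = (3 * ε1 * D) * (w * L) := by ring
    _ ≤ _ := by gcongr

theorem MacI_t4 (w L D ε c'' π1 π2 : ℝ) (hw : 1 ≤ w) (hL : 0 ≤ L) (hD : 0 ≤ D) (hε : 0 < ε)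
    (h1 : L * π1 ≤ 2 * c'') (h2 : L * π2 ≤ c'') (h3 : 12 * D * c'' ≤ ε) :
    (π1 + π2) * L ^ 2 * D ≤ (ε / 4) * (w * L) := by
  have h4 : (π1 + π2) * L ≤ 3 * c'' := by linarith
  calc (π1 + π2) * L ^ 2 * D = ((π1 + π2) * L) * (L * D) := by ring
    _ ≤ (3 * c'') * (L * D) := by gcongr
    _ = (3 * c'' * D) * L := by ring
    _ ≤ (ε / 4) * L := by
        gcongr
        linarith
    _ = (ε / 4) * (1 * L) := by ring
    _ ≤ (ε / 4) * (w * L) := by gcongr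

/-- the small shift -/
theorem MacI_small (a A w L r B g D ε c : ℝ) (hA : 0 ≤ A) (ha0 : 0 ≤ a) (hw : 0 ≤ w) (hL : 0 ≤ L)
    (hr : r + a ≤ A * L) (hwL : w ≤ L) (haB : a ≤ 4 * B) (hBw : B ≤ 4 * g ^ 3 * w) (hg : g ^ 3 ≤ c)
    (hg0 : 0 ≤ g) (hD : 0 ≤ D) (hc3 : 16 * (D * (A + 2)) * c ≤ ε) :
    a * (D * (L + (r + w + a))) ≤ ε * (w * L) := by
  have h1 : L + (r + w + a) ≤ (A + 2) * L := by linarith
  have h2 : a ≤ 16 * g ^ 3 * w := by linarith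
  calc a * (D * (L + (r + w + a)))
      ≤ (16 * g ^ 3 * w) * (D * ((A + 2) * L)) := by
        by_cases hs : 0 ≤ L + (r + w + a)
        · gcongr
        · push Not at hs
          have e1 : a * (D * (L + (r + w + a))) ≤ 0 := by
            apply mul_nonpos_of_nonneg_of_nonpos ha0
            exact mul_nonpos_of_nonneg_of_nonpos hD hs.le
          have e2 : 0 ≤ (16 * g ^ 3 * w) * (D * ((A + 2) * L)) := by positivity
          linarith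
    _ = (16 * (D * (A + 2)) * g ^ 3) * (w * L) := by ring
    _ ≤ ε * (w * L) := by
        gcongr
        calc 16 * (D * (A + 2)) * g ^ 3 ≤ 16 * (D * (A + 2)) * c := by gcongr
          _ ≤ ε := hc3

/-- sizes of block, window and killing scale -/
theorem MacI_sizes (p g L B w h ε1 c : ℝ) (hp : 0 < p) (hg0 : 0 < g) (hg1 : g ≤ 1 / 8)
    (hLp : L ≤ p) (hpL : p ≤ 2 * L) (hu1 : 1 ≤ p * g ^ 4) (hB1 : p * g ^ 4 ≤ B)
    (hB2 : B ≤ p * g ^ 4 + 1) (hw1 : p * g / 2 ≤ w) (hw2 : w ≤ 2 * (p * g)) (hh1 : 1 ≤ h)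
    (hh : h ≤ p * g ^ 8) (hc : g ≤ c) (hcε : 38 * c ≤ ε1) :
    B ≤ 4 * g ^ 3 * w ∧ w ≤ L ∧ 16 * B ≤ L ∧ w + 4 * h ≤ L ∧ h ≤ w ∧ 9 * B + 1 ≤ ε1 * w ∧
    B ≤ 2 * (p * g ^ 4) ∧ 2 * B ≤ 8 * g ^ 4 * L ∧ h + 1 ≤ 4 * g ^ 4 * L ∧ L * L ≤ p * p ∧
    L * (4 * B) ≤ p * p ∧ 0 < w := by
  obtain ⟨g2, g3, g4, g4', g8, g42⟩ := MacI_pow g hg0 hg1
  have hL : 0 < L := by linarith
  have hpg : 0 < p * g := by positivity
  have hw0 : 0 < w := by linarith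
  have hB2' : B ≤ 2 * (p * g ^ 4) := by linarith
  have k1 : p * g ≤ p * (1 / 8) := by gcongr
  have k4 : p * g ^ 4 ≤ p * (g / 64) := by gcongr
  have k8 : p * g ^ 8 ≤ p * (g ^ 4 / 8) := by gcongr
  have e1 : B ≤ 4 * g ^ 3 * w := by
    have h1 : 4 * g ^ 3 * (p * g / 2) ≤ 4 * g ^ 3 * w := by gcongr
    have h2 : 4 * g ^ 3 * (p * g / 2) = 2 * (p * g ^ 4) := by ring
    linarith
  have e2 : w ≤ L := by linarith
  have e3 : 16 * B ≤ L := by linarith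
  have e4 : w + 4 * h ≤ L := by linarith
  have e5 : h ≤ w := by linarith
  have e6 : 9 * B + 1 ≤ ε1 * w := by
    have h1 : 9 * B + 1 ≤ 19 * (p * g ^ 4) := by linarith
    have h2 : 38 * g ^ 3 ≤ ε1 := by linarith
    have h2' : 0 ≤ ε1 := by linarith
    have h3 : 19 * (p * g ^ 4) = 38 * g ^ 3 * (p * g / 2) := by ring
    have h4 : 38 * g ^ 3 * (p * g / 2) ≤ ε1 * w := by gcongr
    linarith
  have e7 : 2 * B ≤ 8 * g ^ 4 * L := by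
    have h1 : g ^ 4 * p ≤ g ^ 4 * (2 * L) := by gcongr
    linarith
  have e8 : h + 1 ≤ 4 * g ^ 4 * L := by
    have h1 : g ^ 4 * p ≤ g ^ 4 * (2 * L) := by gcongr
    linarith
  have e9 : L * L ≤ p * p := by gcongr
  have e10 : L * (4 * B) ≤ p * p := by
    have : 4 * B ≤ L := by linarith
    calc L * (4 * B) ≤ L * L := by gcongr
      _ ≤ p * p := e9
  exact ⟨e1, e2, e3, e4, e5, e6, hB2', e7, e8, e9, e10, hw0⟩

end Pool.Agent.helper20.HP
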