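import Pool.Agent.helper20.HP.S0

/-! # MP_5ae64c_pr, macroscopic step, part A: telescoping of the level over local range cuts -/

open scoped BigOperators Topology
open Filter MeasureTheory

namespace Pool.Agent.helper20.HP

variable {V : Type} [DecidableEq V]

/-- local range cut at time `c` of the word `l` -/
def Mac_isCut (b : ℕ) (l : List V) (c : ℕ) : Prop :=
  ∀ y ∈ (l.drop c).take b, y ∉ (l.take c).rtake b

open Classical in
/-- index of the first trial position which is a cut (default `0`) -/
noncomputable def Mac_cidx (b M : ℕ) (l : List V) : ℕ :=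
  ((List.range M).find? (fun m => decide (Mac_isCut b l ((2 * m + 1) * b)))).getD 0

/-- the first trial position which is a cut -/
noncomputable def Mac_cpos (b M : ℕ) (l : List V) : ℕ := (2 * Mac_cidx b M l + 1) * b

/-- the block has a cut at one of the trial positions -/
def Mac_has (b M : ℕ) (l : List V) : Prop := ∃ m, m < M ∧ Mac_isCut b l ((2 * m + 1) * b)

/-- the window functional -/
noncomputable def Mac_F (b M B : ℕ) (x : V) (l : List V) : ℕ :=
  lel (lst x (l.take (Mac_cpos b M l)))
    ((l.drop (Mac_cpos b M l)).take (B + Mac_cpos b M (l.drop B) - Mac_cpos b M l))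

omit [DecidableEq V] in
theorem Mac_cidx_lt (b M : ℕ) (hM : 1 ≤ M) (l : List V) : Mac_cidx b M l < M := by
  classical
  unfold Mac_cidx
  cases h : (List.range M).find? (fun m => decide (Mac_isCut b l ((2 * m + 1) * b))) with
  | none => exact hM
  | some m =>
    have := List.mem_of_find?_eq_some h
    simpa using this

omit [DecidableEq V] in
theorem Mac_isCut_cpos (b M : ℕ) (l : List V) (h : Mac_has b M l) :
    Mac_isCut b l (Mac_cpos b M l) := by
  classical
  obtain ⟨m, hm, hc⟩ := h
  unfold Mac_cpos Mac_cidx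
  cases h' : (List.range M).find? (fun m => decide (Mac_isCut b l ((2 * m + 1) * b))) with
  | none =>
    rw [List.find?_eq_none] at h'
    exact absurd hc (by simpa using h' m (by simpa using hm))
  | some m' =>
    have := List.find?_some h'
    simpa using this

omit [DecidableEq V] in
theorem Mac_le_cpos (b M : ℕ) (l : List V) : b ≤ Mac_cpos b M l := by
  unfold Mac_cpos
  nlinarith [Nat.zero_le (Mac_cidx b M l), Nat.zero_le b]

omit [DecidableEq V] in
theorem Mac_cpos_le (b M : ℕ) (hM : 1 ≤ M) (l : List V) : Mac_cpos b M l + b ≤ 2 * M * b := by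
  have := Mac_cidx_lt b M hM l
  unfold Mac_cpos
  have h1 : 2 * Mac_cidx b M l + 1 + 1 ≤ 2 * M := by omega
  calc (2 * Mac_cidx b M l + 1) * b + b = (2 * Mac_cidx b M l + 1 + 1) * b := by ring
    _ ≤ 2 * M * b := Nat.mul_le_mul_right _ h1

omit [DecidableEq V] in
theorem Mac_isCut_take (b : ℕ) (l : List V) (c k : ℕ) (h : c + b ≤ k) :
    Mac_isCut b (l.take k) c ↔ Mac_isCut b l c := by
  unfold Mac_isCut
  have h1 : ((l.take k).drop c).take b = (l.drop c).take b := by
    rw [List.drop_take, List.take_take, min_eq_left (by omega)]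
  have h2 : (l.take k).take c = l.take c := by
    rw [List.take_take, min_eq_left (by omega)]
  rw [h1, h2]

omit [DecidableEq V] in
theorem Mac_cidx_take (b M : ℕ) (l : List V) (k : ℕ) (h : 2 * M * b ≤ k) :
    Mac_cidx b M (l.take k) = Mac_cidx b M l := by
  classical
  unfold Mac_cidx
  have : (List.range M).find? (fun m => decide (Mac_isCut b (l.take k) ((2 * m + 1) * b)))
      = (List.range M).find? (fun m => decide (Mac_isCut b l ((2 * m + 1) * b))) := by
    apply List.find?_congr
    intro m hm
    have hm' : m < M := by simpa using hm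
    have hle : (2 * m + 1) * b + b ≤ k := by
      refine le_trans ?_ h
      calc (2 * m + 1) * b + b = (2 * m + 1 + 1) * b := by ring
        _ ≤ 2 * M * b := Nat.mul_le_mul_right _ (by omega)
    have := Mac_isCut_take b l ((2 * m + 1) * b) k hle
    simp [this]
  rw [this]

omit [DecidableEq V] in
theorem Mac_cpos_take (b M : ℕ) (l : List V) (k : ℕ) (h : 2 * M * b ≤ k) :
    Mac_cpos b M (l.take k) = Mac_cpos b M l := by
  unfold Mac_cpos
  rw [Mac_cidx_take b M l k h]

theorem Mac_rtake_append {α : Type*} (u v : List α) (b : ℕ) (h : b ≤ v.length) :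
    (u ++ v).rtake b = v.rtake b := by
  unfold List.rtake
  rw [List.length_append, List.drop_append]
  have h1 : u.drop (u.length + v.length - b) = [] := by
    rw [List.drop_eq_nil_iff]; omega
  have h2 : u.length + v.length - b - u.length = v.length - b := by omega
  rw [h1, h2, List.nil_append]

/-- the state after the word `l ++ l'.take t` -/
def Mac_len (x : V) (ρ l l' : List V) (t : ℕ) : ℕ := (run (x :: ρ) (l ++ l'.take t)).length

/-- at a cut without later long hits, the future avoids the state -/
theorem Mac_avoid (b : ℕ) (x : V) (ρ l l' : List V) (hno : NoLH b x ρ l l') (c : ℕ)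
    (hc : c ≤ l'.length) (i : ℕ) (hi : i + b ≤ c) (hcut : Mac_isCut b (l'.drop i) (c - i)) :
    ∀ y ∈ l'.drop c, y ∉ run (x :: ρ) (l ++ l'.take c) := by
  refine hit_is_LH b x ρ (l ++ l'.take c) (l'.drop c) ?_ ?_
  · intro y hy
    have h1 : ((l'.drop i).drop (c - i)).take b = (l'.drop c).take b := by
      rw [List.drop_drop, Nat.add_sub_cancel' (by omega)]
    have h2 : ((l'.drop i).take (c - i)).rtake b = (x :: (l ++ l'.take c)).rtake b := by
      have e1 : (l'.drop i).take (c - i) = (l'.take c).drop i := by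
        rw [List.drop_take]
      have e2 : x :: (l ++ l'.take c) = (x :: (l ++ (l'.take c).take i)) ++ (l'.take c).drop i := by
        rw [List.cons_append, List.append_assoc, List.take_append_drop]
      have hlen : b ≤ ((l'.take c).drop i).length := by
        rw [List.length_drop, List.length_take]
        omega
      rw [e1, e2, Mac_rtake_append _ _ _ hlen]
    rw [← h2]
    exact hcut y (by rw [h1]; exact hy)
  · have := (NoLH_append b x ρ l (l'.take c) (l'.drop c)).1 (by rw [List.take_append_drop]; exact hno)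
    exact this.2

/-- after a cut the level increment is the length of the loop erasure of the piece -/
theorem Mac_len_add (b : ℕ) (x : V) (ρ l l' : List V) (hno : NoLH b x ρ l l') (c : ℕ)
    (hc : c ≤ l'.length) (i : ℕ) (hi : i + b ≤ c) (hcut : Mac_isCut b (l'.drop i) (c - i))
    (k : ℕ) :
    Mac_len x ρ l l' (c + k) = Mac_len x ρ l l' c
      + lel (lst (lst x l) (l'.take c)) ((l'.drop c).take k) := by
  have hav := Mac_avoid b x ρ l l' hno c hc i hi hcut
  obtain ⟨τ, hτ⟩ := run_head x ρ (l ++ l'.take c)
  have hz : lst x (l ++ l'.take c) = lst (lst x l) (l'.take c) := lst_append x l (l'.take c)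
  rw [hz] at hτ
  have e : l ++ l'.take (c + k) = (l ++ l'.take c) ++ (l'.drop c).take k := by
    rw [List.append_assoc, ← List.take_add]
  unfold Mac_len
  rw [e, run_append, hτ, run_avoid_length]
  · simp only [List.length_cons]; omega
  · intro y hy hmem
    have hy' : y ∈ l'.drop c := List.mem_of_mem_take hy
    have := hav y hy'
    rw [hτ] at this
    exact this (List.mem_cons_of_mem _ hmem)

theorem Mac_len_le_add (x : V) (ρ l l' : List V) (t k : ℕ) :
    Mac_len x ρ l l' (t + k) ≤ Mac_len x ρ l l' t + k := by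
  have e : l ++ l'.take (t + k) = (l ++ l'.take t) ++ (l'.drop t).take k := by
    rw [List.append_assoc, ← List.take_add]
  unfold Mac_len
  rw [e, run_append]
  refine (run_length_le _ _).trans ?_
  have : ((l'.drop t).take k).length ≤ k := List.length_take_le _ _
  omega

/-- without long hits the level drops by at most `k + b` in `k` steps -/
theorem Mac_drop (b : ℕ) (hb : 1 ≤ b) (x : V) (ρ l l' : List V) (hnd : (x :: ρ).Nodup)
    (hno : NoLH b x ρ l l') (k : ℕ) : ∀ t, Mac_len x ρ l l' t ≤ Mac_len x ρ l l' (t + k) + k + b := by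
  induction k using Nat.strong_induction_on with
  | _ k ih =>
    intro t
    have hstep : ∀ j, j ≤ b → Mac_len x ρ l l' t ≤ Mac_len x ρ l l' (t + j) + b := by
      intro j hj
      have e : l ++ l'.take (t + j) = (l ++ l'.take t) ++ (l'.drop t).take j := by
        rw [List.append_assoc, ← List.take_add]
      unfold Mac_len
      rw [e]
      refine NoLH_drop b x ρ (l ++ l'.take t) ((l'.drop t).take j) hnd ?_ ?_
      · exact (List.length_take_le _ _).trans hj
      · have h1 := (NoLH_append b x ρ l (l'.take t) (l'.drop t)).1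
          (by rw [List.take_append_drop]; exact hno)
        have h2 := (NoLH_append b x ρ (l ++ l'.take t) ((l'.drop t).take j)
          ((l'.drop t).drop j)).1 (by rw [List.take_append_drop]; exact h1.2)
        exact h2.1
    rcases le_or_gt k b with hk | hk
    · have := hstep k hk
      omega
    · have h1 := hstep b le_rfl
      have h2 := ih (k - b) (by omega) (t + b)
      have e : t + b + (k - b) = t + k := by omega
      rw [e] at h2
      omega


/-- the window functional at position `i` -/
theorem Mac_F_eq (b M B : ℕ) (hM : 1 ≤ M) (hB : 2 * M * b ≤ B) (x' : V) (l' : List V) (i : ℕ) :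
    Mac_F b M B (lst x' (l'.take i)) ((l'.drop i).take (2 * B))
      = lel (lst x' (l'.take (i + Mac_cpos b M (l'.drop i))))
        ((l'.drop (i + Mac_cpos b M (l'.drop i))).take
          (B + Mac_cpos b M (l'.drop (i + B)) - Mac_cpos b M (l'.drop i))) := by
  have hc0 := Mac_cpos_le b M hM (l'.drop i)
  have hc1 := Mac_cpos_le b M hM (l'.drop (i + B))
  have e0 : Mac_cpos b M ((l'.drop i).take (2 * B)) = Mac_cpos b M (l'.drop i) :=
    Mac_cpos_take b M _ _ (by omega)
  have e1 : Mac_cpos b M (((l'.drop i).take (2 * B)).drop B) = Mac_cpos b M (l'.drop (i + B)) := by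
    have : ((l'.drop i).take (2 * B)).drop B = (l'.drop (i + B)).take B := by
      rw [List.drop_take, List.drop_drop]
      congr 1
      omega
    rw [this, Mac_cpos_take b M _ _ hB]
  unfold Mac_F
  rw [e0, e1]
  have e2 : ((l'.drop i).take (2 * B)).take (Mac_cpos b M (l'.drop i))
      = (l'.drop i).take (Mac_cpos b M (l'.drop i)) := by
    rw [List.take_take, min_eq_left (by omega)]
  have e3 : (((l'.drop i).take (2 * B)).drop (Mac_cpos b M (l'.drop i))).take
      (B + Mac_cpos b M (l'.drop (i + B)) - Mac_cpos b M (l'.drop i))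
      = (l'.drop (i + Mac_cpos b M (l'.drop i))).take
      (B + Mac_cpos b M (l'.drop (i + B)) - Mac_cpos b M (l'.drop i)) := by
    rw [List.drop_take, List.take_take, List.drop_drop, min_eq_left (by omega)]
  rw [e2, e3, ← lst_append, ← List.take_add]

/-- telescoping along one offset -/
theorem Mac_tele (b M B : ℕ) (hM : 1 ≤ M) (hB : 2 * M * b ≤ B) (x : V) (ρ l l' : List V)
    (hno : NoLH b x ρ l l') (o : ℕ) (n : ℕ)
    (hhas : ∀ k, k < n → Mac_has b M (l'.drop (o + k * B)))
    (hlen : o + n * B ≤ l'.length) :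
    Mac_len x ρ l l' (o + n * B + Mac_cpos b M (l'.drop (o + n * B)))
      = Mac_len x ρ l l' (o + Mac_cpos b M (l'.drop o))
        + ∑ k ∈ Finset.range n, Mac_F b M B (lst (lst x l) (l'.take (o + k * B)))
          ((l'.drop (o + k * B)).take (2 * B)) := by
  induction n with
  | zero => simp
  | succ n ih =>
    have h1 : (n + 1) * B = n * B + B := by ring
    have hn := ih (fun k hk => hhas k (by omega)) (by omega)
    rw [Finset.sum_range_succ, ← add_assoc, ← hn, Mac_F_eq b M B hM hB]
    set i := o + n * B with hi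
    have ei : o + (n + 1) * B = i + B := by rw [hi, h1]; ring
    rw [ei]
    have hc0 := Mac_cpos_le b M hM (l'.drop i)
    have hb0 := Mac_le_cpos b M (l'.drop i)
    have hcut := Mac_isCut_cpos b M (l'.drop i) (hhas n (by omega))
    have key := Mac_len_add b x ρ l l' hno (i + Mac_cpos b M (l'.drop i)) (by omega) i (by omega)
      (by simpa using hcut) (B + Mac_cpos b M (l'.drop (i + B)) - Mac_cpos b M (l'.drop i))
    rw [← key]
    congr 1
    omega

/-- one offset, with the two ends -/
theorem Mac_tele_abs (b M B N : ℕ) (hb : 1 ≤ b) (hM : 1 ≤ M) (hB : 2 * M * b ≤ B) (x : V)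
    (ρ l l' : List V) (hnd : (x :: ρ).Nodup)
    (hno : NoLH b x ρ l l') (hlen : l'.length = 2 * B * (N + 1)) (o : ℕ) (ho : o < B)
    (hhas : ∀ i, i + B ≤ l'.length → Mac_has b M (l'.drop i)) :
    |((run (x :: ρ) (l ++ l')).length : ℝ) - (run (x :: ρ) l).length
      - ∑ k ∈ Finset.range (2 * N), (Mac_F b M B (lst (lst x l) (l'.take (o + k * B)))
          ((l'.drop (o + k * B)).take (2 * B)) : ℝ)| ≤ 5 * B := by
  have hs : l'.length = 2 * N * B + 2 * B := by rw [hlen]; ring
  have htele := Mac_tele b M B hM hB x ρ l l' hno o (2 * N)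
    (fun k hk => hhas _ (by
      have : k * B + B ≤ 2 * N * B := by
        calc k * B + B = (k + 1) * B := by ring
          _ ≤ 2 * N * B := Nat.mul_le_mul_right _ (by omega)
      omega)) (by omega)
  set i := o + 2 * N * B with hi
  have hb0 := Mac_le_cpos b M (l'.drop i)
  have hc0 := Mac_cpos_le b M hM (l'.drop i)
  have hc0' := Mac_cpos_le b M hM (l'.drop o)
  set γ := i + Mac_cpos b M (l'.drop i) with hγ
  set γ0 := o + Mac_cpos b M (l'.drop o) with hγ0
  have hcut := Mac_isCut_cpos b M (l'.drop i) (hhas i (by omega))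
  have hend := Mac_len_add b x ρ l l' hno γ (by omega) i (by omega)
      (by rw [hγ]; simpa using hcut) (l'.length - γ)
  have e1 : γ + (l'.length - γ) = l'.length := by omega
  rw [e1] at hend
  have hlel : lel (lst (lst x l) (l'.take γ)) ((l'.drop γ).take (l'.length - γ)) ≤ 2 * B := by
    refine (lel_le _ _).trans ?_
    refine (List.length_take_le _ _).trans ?_
    omega
  have hfin : (run (x :: ρ) (l ++ l')).length = Mac_len x ρ l l' l'.length := by
    unfold Mac_len
    rw [List.take_length]
  have hini : (run (x :: ρ) l).length = Mac_len x ρ l l' 0 := by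
    unfold Mac_len
    simp
  have h1 := Mac_len_le_add x ρ l l' 0 γ0
  have h2 := Mac_drop b hb x ρ l l' hnd hno γ0 0
  rw [zero_add] at h1 h2
  have hbB : b ≤ B := by
    refine le_trans ?_ hB
    calc b = 1 * b := (one_mul b).symm
      _ ≤ 2 * M * b := Nat.mul_le_mul_right _ (by omega)
  rw [hfin, hini, hend, htele]
  have hγ0B : γ0 ≤ 2 * B := by omega
  have h1' : (Mac_len x ρ l l' γ0 : ℝ) ≤ Mac_len x ρ l l' 0 + γ0 := by exact_mod_cast h1
  have h2' : (Mac_len x ρ l l' 0 : ℝ) ≤ Mac_len x ρ l l' γ0 + γ0 + b := by exact_mod_cast h2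
  have h3' : (γ0 : ℝ) ≤ 2 * B := by exact_mod_cast hγ0B
  have h4' : (b : ℝ) ≤ B := by exact_mod_cast hbB
  have h5' : ((lel (lst (lst x l) (l'.take γ)) ((l'.drop γ).take (l'.length - γ)) : ℕ) : ℝ)
      ≤ 2 * B := by exact_mod_cast hlel
  have h6' : (0 : ℝ) ≤ ((lel (lst (lst x l) (l'.take γ)) ((l'.drop γ).take (l'.length - γ)) : ℕ) : ℝ) :=
    Nat.cast_nonneg _
  push_cast
  rw [abs_le]
  constructor <;> linarith

theorem Mac_sum_reindex (B n : ℕ) (f : ℕ → ℝ) :
    ∑ i ∈ Finset.range (n * B), f i = ∑ o ∈ Finset.range B, ∑ k ∈ Finset.range n, f (o + k * B) := by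
  induction n with
  | zero => simp
  | succ n ih =>
    have h1 : (n + 1) * B = n * B + B := by ring
    rw [h1, Finset.sum_range_add, ih, ← Finset.sum_add_distrib]
    refine Finset.sum_congr rfl fun o _ => ?_
    rw [Finset.sum_range_succ, add_comm (n * B) o]

/-- **level increment against the sliding window sum** -/
theorem Mac_level (b M B N : ℕ) (hb : 1 ≤ b) (hM : 1 ≤ M) (hB : 2 * M * b ≤ B) (x : V)
    (ρ l l' : List V) (hnd : (x :: ρ).Nodup)
    (hno : NoLH b x ρ l l') (hlen : l'.length = 2 * B * (N + 1))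
    (hhas : ∀ i, i + B ≤ l'.length → Mac_has b M (l'.drop i)) :
    |(B : ℝ) * (((run (x :: ρ) (l ++ l')).length : ℝ) - (run (x :: ρ) l).length)
      - ∑ i ∈ Finset.range (2 * B * N), (Mac_F b M B (lst (lst x l) (l'.take i))
          ((l'.drop i).take (2 * B)) : ℝ)| ≤ 5 * B * B := by
  have e : 2 * B * N = 2 * N * B := by ring
  rw [e, Mac_sum_reindex]
  set D : ℝ := ((run (x :: ρ) (l ++ l')).length : ℝ) - (run (x :: ρ) l).length with hD
  have h1 : ∀ o ∈ Finset.range B, |D - ∑ k ∈ Finset.range (2 * N),
      (Mac_F b M B (lst (lst x l) (l'.take (o + k * B)))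
          ((l'.drop (o + k * B)).take (2 * B)) : ℝ)| ≤ 5 * B := by
    intro o ho
    exact Mac_tele_abs b M B N hb hM hB x ρ l l' hnd hno hlen o (Finset.mem_range.1 ho) hhas
  have h2 : (B : ℝ) * D - ∑ o ∈ Finset.range B, ∑ k ∈ Finset.range (2 * N),
      (Mac_F b M B (lst (lst x l) (l'.take (o + k * B)))
          ((l'.drop (o + k * B)).take (2 * B)) : ℝ)
      = ∑ o ∈ Finset.range B, (D - ∑ k ∈ Finset.range (2 * N),
      (Mac_F b M B (lst (lst x l) (l'.take (o + k * B)))
          ((l'.drop (o + k * B)).take (2 * B)) : ℝ)) := by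
    rw [Finset.sum_sub_distrib, Finset.sum_const, Finset.card_range, nsmul_eq_mul]
  rw [h2]
  refine (Finset.abs_sum_le_sum_abs _ _).trans ((Finset.sum_le_sum h1).trans ?_)
  rw [Finset.sum_const, Finset.card_range, nsmul_eq_mul]
  linarith [mul_comm (B : ℝ) (5 * B)]

end Pool.Agent.helper20.HP
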