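import Pool.Agent.helper20.HP.S1
import Pool.Agent.helper65.HP.MacA

/-! # MP_5ae64c_pr, macroscopic step, part B: probability estimates for cuts and windows -/

open scoped BigOperators Topology
open Filter MeasureTheory

namespace Pool.Agent.helper20.HP

variable {V : Type} [Fintype V] [DecidableEq V] {K : HW V} {θ : ℝ} {h : ℕ}

omit [Fintype V] [DecidableEq V] in
theorem MacB_has_take (b M : ℕ) (l : List V) (k : ℕ) (hk : 2 * M * b ≤ k) :
    Mac_has b M (l.take k) ↔ Mac_has b M l := by
  have key : ∀ m, m < M → (2 * m + 1) * b + b ≤ k := by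
    intro m hm
    refine le_trans ?_ hk
    calc (2 * m + 1) * b + b = (2 * m + 1 + 1) * b := by ring
      _ ≤ 2 * M * b := Nat.mul_le_mul_right _ (by omega)
  constructor
  · rintro ⟨m, hm, hc⟩
    exact ⟨m, hm, (Mac_isCut_take b l _ k (key m hm)).1 hc⟩
  · rintro ⟨m, hm, hc⟩
    exact ⟨m, hm, (Mac_isCut_take b l _ k (key m hm)).2 hc⟩

omit [Fintype V] [DecidableEq V] in
theorem MacB_isCut_append (b : ℕ) (l1 l2 : List V) (c : ℕ) (hbc : b ≤ c) (hc : c ≤ l2.length) :
    Mac_isCut b (l1 ++ l2) (l1.length + c) ↔ Mac_isCut b l2 c := by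
  unfold Mac_isCut
  have e1 : (l1 ++ l2).drop (l1.length + c) = l2.drop c := by
    rw [← List.drop_drop, List.drop_left]
  have e2 : ((l1 ++ l2).take (l1.length + c)).rtake b = (l2.take c).rtake b := by
    have : (l1 ++ l2).take (l1.length + c) = l1 ++ l2.take c := by
      rw [List.take_append, List.take_of_length_le (by omega)]
      congr 2
      omega
    rw [this, Mac_rtake_append]
    rw [List.length_take]
    omega
  rw [e1, e2]

omit [Fintype V] [DecidableEq V] in
theorem MacB_not_has_succ (b M : ℕ) (l1 l2 : List V) (h1 : l1.length = 2 * b)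
    (h2 : l2.length = 2 * M * b) (h : ¬ Mac_has b (M + 1) (l1 ++ l2)) :
    ¬ Mac_isCut b l1 b ∧ ¬ Mac_has b M l2 := by
  constructor
  · intro hc
    refine h ⟨0, by omega, ?_⟩
    have e : (l1 ++ l2).take (2 * b) = l1 := by rw [← h1]; simp
    have := (Mac_isCut_take b (l1 ++ l2) b (2 * b) (by omega))
    rw [e] at this
    simpa using this.1 hc
  · rintro ⟨m, hm, hc⟩
    refine h ⟨m + 1, by omega, ?_⟩
    have hle : (2 * m + 1) * b + b ≤ 2 * M * b := by
      calc (2 * m + 1) * b + b = (2 * m + 1 + 1) * b := by ring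
        _ ≤ 2 * M * b := Nat.mul_le_mul_right _ (by omega)
    have hb : b ≤ (2 * m + 1) * b := by nlinarith [Nat.zero_le m, Nat.zero_le b]
    have := (MacB_isCut_append b l1 l2 ((2 * m + 1) * b) hb (by omega)).2 hc
    rw [h1] at this
    have e : (2 * (m + 1) + 1) * b = 2 * b + (2 * m + 1) * b := by ring
    rw [e]
    exact this

theorem MacB_cut_one (hP : Par K θ h) (b : ℕ) (hb : 4 * b ≤ Nat.sqrt (Fintype.card V)) (y : V) :
    W K (2 * b) y (fun l => ind (¬ Mac_isCut b l b)) ≤ 1 - 1 / (2 * θ) := by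
  have h1 : W K (2 * b) y (fun l => ind (¬ Mac_isCut b l b))
      = 1 - W K (2 * b) y (fun l => ind (Mac_isCut b l b)) := by
    have : ∀ l : List V, ind (¬ Mac_isCut b l b) = 1 - ind (Mac_isCut b l b) := fun l => ind_not _
    simp_rw [this]
    rw [W_sub, W_const]
  have h2 : Rc K b b y ≤ W K (2 * b) y (fun l => ind (Mac_isCut b l b)) := by
    rw [← cut_prob, two_mul, W_split]
    refine W_mono K b y fun l hl => W_mono K b _ fun l' hl' => ind_mono ?_
    intro hav z hz
    have e1 : (l ++ l').take b = l := by rw [← hl]; simp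
    have e2 : (l ++ l').drop b = l' := by rw [← hl]; simp
    rw [e2, List.take_of_length_le (by omega)] at hz
    rw [e1]
    intro hmem
    exact hav z hz (List.mem_cons_of_mem _ (List.mem_of_mem_drop hmem))
  have h3 := Rc_lower hP b b y hb hb
  linarith

theorem MacB_no_cut (hP : Par K θ h) (b : ℕ) (hb : 4 * b ≤ Nat.sqrt (Fintype.card V)) (M : ℕ) :
    ∀ y : V, W K (2 * M * b) y (fun l => ind (¬ Mac_has b M l)) ≤ (1 - 1 / (2 * θ)) ^ M := by
  have hθ := hP.one_le
  have hq : 0 ≤ 1 - 1 / (2 * θ) := by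
    rw [sub_nonneg, div_le_one (by linarith)]
    linarith
  induction M with
  | zero =>
    intro y
    simp only [mul_zero, zero_mul, pow_zero]
    rw [W_zero]
    exact ind_le_one _
  | succ M ih =>
    intro y
    have e : 2 * (M + 1) * b = 2 * b + 2 * M * b := by ring
    rw [e, W_split]
    calc W K (2 * b) y (fun l => W K (2 * M * b) (lst y l) (fun l' => ind (¬ Mac_has b (M + 1) (l ++ l'))))
        ≤ W K (2 * b) y (fun l => ind (¬ Mac_isCut b l b) * (1 - 1 / (2 * θ)) ^ M) := by
          refine W_mono K _ y fun l hl => ?_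
          calc W K (2 * M * b) (lst y l) (fun l' => ind (¬ Mac_has b (M + 1) (l ++ l')))
              ≤ W K (2 * M * b) (lst y l) (fun l' => ind (¬ Mac_isCut b l b) * ind (¬ Mac_has b M l')) := by
                refine W_mono K _ _ fun l' hl' => ?_
                rw [← ind_and]
                exact ind_mono (MacB_not_has_succ b M l l' hl hl')
            _ = ind (¬ Mac_isCut b l b) * W K (2 * M * b) (lst y l) (fun l' => ind (¬ Mac_has b M l')) :=
                W_mul_left K _ _ _ _
            _ ≤ _ := mul_le_mul_of_nonneg_left (ih _) (ind_nonneg _)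
      _ = W K (2 * b) y (fun l => ind (¬ Mac_isCut b l b)) * (1 - 1 / (2 * θ)) ^ M :=
          W_mul_right K _ _ _ _
      _ ≤ (1 - 1 / (2 * θ)) * (1 - 1 / (2 * θ)) ^ M :=
          mul_le_mul_of_nonneg_right (MacB_cut_one hP b hb y) (pow_nonneg hq _)
      _ = (1 - 1 / (2 * θ)) ^ (M + 1) := by rw [pow_succ]; ring

/-- with high probability all blocks have a cut -/
theorem MacB_all_cut (hP : Par K θ h) (b : ℕ) (hb : 4 * b ≤ Nat.sqrt (Fintype.card V)) (M B s : ℕ)
    (hB : 2 * M * b ≤ B) (y : V) :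
    W K s y (fun l => ind (¬ ∀ i, i + B ≤ s → Mac_has b M (l.drop i)))
      ≤ ((s : ℝ) + 1) * (1 - 1 / (2 * θ)) ^ M := by
  have hθ := hP.one_le
  have hq : 0 ≤ 1 - 1 / (2 * θ) := by
    rw [sub_nonneg, div_le_one (by linarith)]
    linarith
  have h1 : ∀ l : List V, ind (¬ ∀ i, i + B ≤ s → Mac_has b M (l.drop i))
      ≤ ∑ i ∈ Finset.range (s + 1), ind (i + B ≤ s ∧ ¬ Mac_has b M (l.drop i)) := by
    intro l
    by_cases hx : ∀ i, i + B ≤ s → Mac_has b M (l.drop i)
    · rw [ind_false (not_not.2 hx)]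
      exact Finset.sum_nonneg fun i _ => ind_nonneg _
    · rw [ind_true hx]
      push Not at hx
      obtain ⟨i, hi, hn⟩ := hx
      have := Finset.single_le_sum (f := fun i => ind (i + B ≤ s ∧ ¬ Mac_has b M (l.drop i)))
        (fun j _ => ind_nonneg _) (Finset.mem_range.2 (show i < s + 1 by omega))
      refine le_trans ?_ this
      show 1 ≤ ind (i + B ≤ s ∧ ¬ Mac_has b M (l.drop i))
      rw [ind_true ⟨hi, hn⟩]
  refine (W_mono K s y fun l _ => h1 l).trans ?_
  rw [W_sum]
  have h2 : ∀ i ∈ Finset.range (s + 1), W K s y (fun l => ind (i + B ≤ s ∧ ¬ Mac_has b M (l.drop i)))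
      ≤ (1 - 1 / (2 * θ)) ^ M := by
    intro i _
    by_cases hi : i + B ≤ s
    · obtain ⟨r, hr⟩ : ∃ r, s = i + (2 * M * b + r) := ⟨s - i - 2 * M * b, by omega⟩
      rw [hr, W_split]
      refine (W_mono K i y (g := fun _ => (1 - 1 / (2 * θ)) ^ M) fun l hl => ?_).trans
        (W_const K i y _).le
      rw [W_split]
      calc W K (2 * M * b) (lst y l) (fun l1 => W K r (lst (lst y l) l1) (fun l2 =>
            ind (i + B ≤ i + (2 * M * b + r) ∧ ¬ Mac_has b M ((l ++ (l1 ++ l2)).drop i))))
          ≤ W K (2 * M * b) (lst y l) (fun l1 => W K r (lst (lst y l) l1) (fun _ =>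
            ind (¬ Mac_has b M l1))) := by
            refine W_mono K _ _ fun l1 hl1 => W_mono K _ _ fun l2 _ => ind_mono ?_
            rintro ⟨_, hn⟩ hh
            apply hn
            have e1 : (l ++ (l1 ++ l2)).drop i = l1 ++ l2 := by rw [← hl]; simp
            rw [e1, ← MacB_has_take b M (l1 ++ l2) (2 * M * b) le_rfl]
            have e2 : (l1 ++ l2).take (2 * M * b) = l1 := by rw [← hl1]; simp
            rw [e2]
            exact hh
        _ = W K (2 * M * b) (lst y l) (fun l1 => ind (¬ Mac_has b M l1)) :=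
            W_congr K _ _ fun l1 _ => W_const K _ _ _
        _ ≤ _ := MacB_no_cut hP b hb M _
    · refine (W_mono K s y (g := fun _ => 0) fun l _ => ?_).trans ?_
      · rw [ind_false (fun hh => hi hh.1)]
      · rw [W_const]; exact pow_nonneg hq _
  refine (Finset.sum_le_sum h2).trans ?_
  rw [Finset.sum_const, Finset.card_range, nsmul_eq_mul]
  push_cast
  exact le_rfl


/-! ### concentration at the vertex level -/

theorem MacB_vp_take (o : V) (L : List (Aut K)) (i : ℕ) (hi : i ≤ L.length) :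
    (vp o (1 : Aut K) L).take i = vp o 1 (L.take i) := by
  conv_lhs => rw [← List.take_append_drop i L, vp_append]
  have : (vp o (1 : Aut K) (L.take i)).length = i := by
    rw [vp_length, List.length_take, min_eq_left hi]
  rw [List.take_append, this, Nat.sub_self, List.take_zero, List.append_nil,
    List.take_of_length_le (by omega)]

theorem MacB_vp_drop (o : V) (L : List (Aut K)) (i : ℕ) (hi : i ≤ L.length) :
    (vp o (1 : Aut K) L).drop i = vp o (L.take i).prod (L.drop i) := by
  conv_lhs => rw [← List.take_append_drop i L, vp_append]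
  have : (vp o (1 : Aut K) (L.take i)).length = i := by
    rw [vp_length, List.length_take, min_eq_left hi]
  rw [List.drop_append, this, Nat.sub_self, List.drop_zero, one_mul]
  rw [List.drop_eq_nil_of_le (by omega), List.nil_append]

theorem MacB_vp_take' (o : V) (ψ : Aut K) (L : List (Aut K)) (i : ℕ) :
    (vp o ψ L).take i = vp o ψ (L.take i) := by
  rcases le_total i L.length with hi | hi
  · conv_lhs => rw [← List.take_append_drop i L, vp_append]
    have : (vp o ψ (L.take i)).length = i := by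
      rw [vp_length, List.length_take, min_eq_left hi]
    rw [List.take_append, this, Nat.sub_self, List.take_zero, List.append_nil,
      List.take_of_length_le (by omega)]
  · rw [List.take_of_length_le (by rw [vp_length]; exact hi), List.take_of_length_le hi]

/-- windows of the vertex word as images of windows of letters -/
theorem MacB_window (G : V → List V → ℝ)
    (hG : ∀ σ : Equiv.Perm V, (∀ u v, K.p (σ u) (σ v) = K.p u v) → ∀ x l, G (σ x) (l.map σ) = G x l)
    (o : V) (L : List (Aut K)) (i ℓ : ℕ) (hi : i ≤ L.length) :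
    G (lst o ((vp o (1 : Aut K) L).take i)) (((vp o (1 : Aut K) L).drop i).take ℓ)
      = G o (vp o 1 ((L.drop i).take ℓ)) := by
  have h1 : lst o ((vp o (1 : Aut K) L).take i) = (L.take i).prod.1 o := by
    have := vp_lst K o (1 : Aut K) (L.take i)
    rw [one_mul] at this
    rw [MacB_vp_take o L i hi]
    exact this
  have h2 : ((vp o (1 : Aut K) L).drop i).take ℓ
      = (vp o (1 : Aut K) ((L.drop i).take ℓ)).map (L.take i).prod.1 := by
    rw [MacB_vp_drop o L i hi, MacB_vp_take', ← vp_mul, mul_one]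
  rw [h1, h2]
  exact hG (L.take i).prod.1 (L.take i).prod.2 o _

theorem MacB_conc (K : HW V) (o : V) (ℓ N : ℕ) (hℓ : 1 ≤ ℓ) (G : V → List V → ℝ)
    (hG : ∀ σ : Equiv.Perm V, (∀ u v, K.p (σ u) (σ v) = K.p u v) → ∀ x l, G (σ x) (l.map σ) = G x l)
    (C : ℝ) (hC : 0 < C) (hGC : ∀ x l, l.length = ℓ → |G x l| ≤ C) (ε : ℝ) (hε : 0 < ε) :
    W K (ℓ * (N + 1)) o (fun l => ind (ε * ((ℓ : ℝ) * N) <
        |∑ i ∈ Finset.range (ℓ * N), (G (lst o (l.take i)) ((l.drop i).take ℓ)
          - W K ℓ o (fun l => G o l))|))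
      ≤ 2 * ℓ * Real.exp (- (ε ^ 2 * N / (16 * C ^ 2))) := by
  have h1 := W_eq_EL (K := K) o 1 (ℓ * (N + 1)) (fun l => ind (ε * ((ℓ : ℝ) * N) <
        |∑ i ∈ Finset.range (ℓ * N), (G (lst o (l.take i)) ((l.drop i).take ℓ)
          - W K ℓ o (fun l => G o l))|))
  have h2 : ((1 : Aut K).1 o) = o := rfl
  rw [h2] at h1
  rw [h1]
  have h3 := W_eq_EL (K := K) o 1 ℓ (fun l => G o l)
  rw [h2] at h3
  rw [h3]
  refine le_trans (le_of_eq ?_) (conc K o ℓ N hℓ (fun L => G o (vp o 1 L)) C hC (fun L hL =>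
    hGC o _ (by rw [vp_length, hL])) ε hε)
  refine EL_congr K o _ fun L hL => ?_
  have e : ∀ i ∈ Finset.range (ℓ * N),
      (G (lst o ((vp o (1 : Aut K) L).take i)) (((vp o (1 : Aut K) L).drop i).take ℓ)
        - EL K o ℓ (fun L => G o (vp o (1 : Aut K) L)))
      = (G o (vp o (1 : Aut K) ((L.drop i).take ℓ)) - EL K o ℓ (fun L => G o (vp o (1 : Aut K) L))) := by
    intro i hi
    rw [Finset.mem_range] at hi
    rw [MacB_window G hG o L i ℓ (by rw [hL]; nlinarith)]
  rw [Finset.sum_congr rfl e]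

end Pool.Agent.helper20.HP
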