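import Pool.Agent.helper65.HP.MacB

/-! # MP_5ae64c_pr, macroscopic step, part C: the window functional: invariance, bound, mean -/

open scoped BigOperators Topology
open Filter MeasureTheory

namespace Pool.Agent.helper20.HP

variable {V : Type} [Fintype V] [DecidableEq V] {K : HW V} {θ : ℝ} {h : ℕ}

omit [Fintype V] [DecidableEq V] in
theorem MacC_isCut_map (σ : Equiv.Perm V) (b : ℕ) (l : List V) (c : ℕ) :
    Mac_isCut b (l.map σ) c ↔ Mac_isCut b l c := by
  unfold Mac_isCut
  have e1 : ((l.map σ).drop c).take b = ((l.drop c).take b).map σ := by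
    rw [← List.map_drop, ← List.map_take]
  have e2 : ((l.map σ).take c).rtake b = ((l.take c).rtake b).map σ := by
    unfold List.rtake
    rw [← List.map_take, List.length_map, ← List.map_drop]
  rw [e1, e2]
  constructor
  · intro hh y hy hm
    exact hh (σ y) (List.mem_map_of_mem hy) (List.mem_map_of_mem hm)
  · intro hh z hz hm
    rw [List.mem_map] at hz hm
    obtain ⟨y, hy, rfl⟩ := hz
    obtain ⟨y', hy', he⟩ := hm
    rw [σ.injective he] at hy'
    exact hh y hy hy'

omit [Fintype V] [DecidableEq V] in
theorem MacC_cpos_map (σ : Equiv.Perm V) (b M : ℕ) (l : List V) :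
    Mac_cpos b M (l.map σ) = Mac_cpos b M l := by
  classical
  unfold Mac_cpos Mac_cidx
  have : (List.range M).find? (fun m => decide (Mac_isCut b (l.map σ) ((2 * m + 1) * b)))
      = (List.range M).find? (fun m => decide (Mac_isCut b l ((2 * m + 1) * b))) := by
    apply List.find?_congr
    intro m _
    simp [MacC_isCut_map]
  rw [this]

theorem MacC_F_map (b M B : ℕ) (σ : Equiv.Perm V) (x : V) (l : List V) :
    Mac_F b M B (σ x) (l.map σ) = Mac_F b M B x l := by
  unfold Mac_F
  rw [MacC_cpos_map, ← List.map_take, lst_map, ← List.map_drop, ← List.map_drop, MacC_cpos_map,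
    ← List.map_take, lel_map]

omit [Fintype V] in
theorem MacC_F_le (b M B : ℕ) (hM : 1 ≤ M) (hB : 2 * M * b ≤ B) (x : V) (l : List V) :
    Mac_F b M B x l ≤ 2 * B := by
  unfold Mac_F
  refine (lel_le _ _).trans ((List.length_take_le _ _).trans ?_)
  have := Mac_cpos_le b M hM (l.drop B)
  omega

omit [Fintype V] in
/-- the number of cut times is at most the length of the loop erasure -/
theorem MacC_count_le (z : V) (v : List V) (s : Finset ℕ) (hs : ∀ t ∈ s, t < v.length)
    (hcut : ∀ t ∈ s, ∀ y ∈ v.drop t, y ∉ z :: v.take t) : s.card ≤ lel z v := by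
  classical
  have hnd : (run [z] v).Nodup := run_nodup (by simp) v
  have hmem : ∀ t ∈ s, lst z (v.take t) ∈ run [z] v := by
    intro t ht
    have h1 : run [z] (v.take t) <:+ run [z] v := by
      conv_rhs => rw [← List.take_append_drop t v, run_append]
      refine suffix_run (List.suffix_refl _) fun y hy hm => ?_
      have h2 := mem_run hm
      refine hcut t ht y hy ?_
      rcases h2 with h2 | h2
      · rw [List.mem_singleton] at h2
        rw [h2]; exact List.mem_cons_self
      · exact List.mem_cons_of_mem _ h2
    obtain ⟨τ, hτ⟩ := run_head z [] (v.take t)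
    exact h1.subset (by rw [hτ]; exact List.mem_cons_self)
  have hfut : ∀ t ∈ s, ∀ t', t < t' → t' ≤ v.length → lst z (v.take t') ≠ lst z (v.take t) := by
    intro t ht t' htt' ht' heq
    have h1 : lst z (v.take t') ∈ v.drop t := by
      have e : v.take t' = v.take t ++ (v.drop t).take (t' - t) := by
        rw [← List.take_add]
        congr 1
        omega
      have hne : (v.drop t).take (t' - t) ≠ [] := by
        intro h0
        have := congrArg List.length h0
        rw [List.length_take, List.length_drop] at this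
        simp at this
        omega
      rw [e, lst_append]
      obtain ⟨w, u, hw⟩ := List.exists_cons_of_ne_nil hne
      have h2 := lst_mem (lst z (v.take t)) ((v.drop t).take (t' - t))
      rcases List.mem_cons.1 h2 with h2 | h2
      · -- last element of a nonempty list
        have h3 : lst (lst z (v.take t)) ((v.drop t).take (t' - t)) ∈ (v.drop t).take (t' - t) := by
          unfold lst
          rw [List.getLastD_eq_getLast?]
          cases h4 : ((v.drop t).take (t' - t)).getLast? with
          | none => exact absurd (List.getLast?_eq_none_iff.1 h4) hne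
          | some a => exact List.mem_of_getLast? h4
        exact List.mem_of_mem_take h3
      · exact List.mem_of_mem_take h2
    have h5 := hcut t ht _ h1
    rw [heq] at h5
    exact h5 (lst_mem z (v.take t))
  have himg : (s.image fun t => lst z (v.take t)) ⊆ (run [z] v).toFinset.erase (lst z v) := by
    intro y hy
    rw [Finset.mem_image] at hy
    obtain ⟨t, ht, rfl⟩ := hy
    rw [Finset.mem_erase]
    refine ⟨?_, List.mem_toFinset.2 (hmem t ht)⟩
    have := hfut t ht v.length (hs t ht) le_rfl
    rw [List.take_length] at this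
    exact this.symm
  have hinj : Set.InjOn (fun t => lst z (v.take t)) (s : Set ℕ) := by
    intro t ht t' ht' heq
    rcases lt_trichotomy t t' with hlt | heq' | hgt
    · exact absurd heq.symm (hfut t ht t' hlt (hs t' ht').le)
    · exact heq'
    · exact absurd heq (hfut t' ht' t hgt (hs t ht).le)
  have h1 := Finset.card_le_card himg
  rw [Finset.card_image_of_injOn hinj, Finset.card_erase_of_mem, List.toFinset_card_of_nodup hnd]
    at h1
  · rw [run_single_length] at h1
    omega
  · obtain ⟨τ, hτ⟩ := run_head z [] v
    rw [hτ]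
    simp

omit [Fintype V] in
/-- pointwise lower bound of the window functional by the number of cut times -/
theorem MacC_F_lower (b M B : ℕ) (hM : 1 ≤ M) (hB : 2 * M * b ≤ B) (x : V) (l : List V)
    (hl : l.length = 2 * B) :
    ∑ t ∈ Finset.Ico (2 * M * b) B, ind (∀ y ∈ l.drop t, y ∉ x :: l.take t)
      ≤ (Mac_F b M B x l : ℝ) := by
  classical
  set c0 := Mac_cpos b M l with hc0
  set c1 := Mac_cpos b M (l.drop B) with hc1
  have h0 := Mac_cpos_le b M hM l
  have h1 := Mac_cpos_le b M hM (l.drop B)
  set S := (Finset.Ico (2 * M * b) B).filter (fun t => ∀ y ∈ l.drop t, y ∉ x :: l.take t) with hS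
  have e1 : ∑ t ∈ Finset.Ico (2 * M * b) B, ind (∀ y ∈ l.drop t, y ∉ x :: l.take t)
      = (S.card : ℝ) := by
    rw [hS, Finset.card_filter]
    push_cast
    refine Finset.sum_congr rfl fun t _ => ?_
    by_cases hh : ∀ y ∈ l.drop t, y ∉ x :: l.take t
    · rw [ind_true hh, if_pos hh]
    · rw [ind_false hh, if_neg hh]
  rw [e1]
  have key := MacC_count_le (lst x (l.take c0)) ((l.drop c0).take (B + c1 - c0))
    (S.image fun t => t - c0) ?_ ?_
  · have hinj : Set.InjOn (fun t => t - c0) (S : Set ℕ) := by
      intro t ht t' ht' heq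
      rw [Finset.mem_coe, hS, Finset.mem_filter, Finset.mem_Ico] at ht ht'
      simp only at heq
      omega
    rw [Finset.card_image_of_injOn hinj] at key
    unfold Mac_F
    exact_mod_cast key
  · intro t ht
    rw [Finset.mem_image] at ht
    obtain ⟨τ, hτ, rfl⟩ := ht
    rw [hS, Finset.mem_filter, Finset.mem_Ico] at hτ
    rw [List.length_take, List.length_drop, hl]
    omega
  · intro t ht y hy hmem
    rw [Finset.mem_image] at ht
    obtain ⟨τ, hτ, rfl⟩ := ht
    rw [hS, Finset.mem_filter, Finset.mem_Ico] at hτ
    have hle : c0 ≤ τ := by omega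
    refine hτ.2 y ?_ ?_
    · rw [List.drop_take, List.drop_drop, Nat.add_sub_cancel' hle] at hy
      exact List.mem_of_mem_take hy
    · rw [List.take_take, min_eq_left (by omega)] at hmem
      have e2 : l.take τ = l.take c0 ++ (l.drop c0).take (τ - c0) := by
        rw [← List.take_add, Nat.add_sub_cancel' hle]
      rcases List.mem_cons.1 hmem with hm | hm
      · rw [hm, e2]
        rcases List.mem_cons.1 (lst_mem x (l.take c0)) with h2 | h2
        · rw [h2]; exact List.mem_cons_self
        · exact List.mem_cons_of_mem _ (List.mem_append_left _ h2)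
      · rw [e2]
        exact List.mem_cons_of_mem _ (List.mem_append_right _ hm)

/-- lower bound of the mean -/
theorem MacC_mean_lower (hP : Par K θ h) (b M B : ℕ) (hM : 1 ≤ M) (hB : 2 * M * b ≤ B) (x : V)
    (h4 : 4 * (2 * B) ≤ Nat.sqrt (Fintype.card V)) :
    ((B : ℝ) - 2 * M * b) / (2 * θ) ≤ W K (2 * B) x (fun l => (Mac_F b M B x l : ℝ)) := by
  have h1 : W K (2 * B) x (fun l => ∑ t ∈ Finset.Ico (2 * M * b) B,
      ind (∀ y ∈ l.drop t, y ∉ x :: l.take t)) ≤ W K (2 * B) x (fun l => (Mac_F b M B x l : ℝ)) :=
    W_mono K _ x fun l hl => MacC_F_lower b M B hM hB x l hl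
  refine le_trans ?_ h1
  rw [W_sum]
  have h2 : ∀ t ∈ Finset.Ico (2 * M * b) B, 1 / (2 * θ) ≤ W K (2 * B) x (fun l =>
      ind (∀ y ∈ l.drop t, y ∉ x :: l.take t)) := by
    intro t ht
    rw [Finset.mem_Ico] at ht
    have e : 2 * B = t + (2 * B - t) := by omega
    rw [e, W_split]
    have e2 : W K t x (fun l => W K (2 * B - t) (lst x l) (fun l' =>
        ind (∀ y ∈ (l ++ l').drop t, y ∉ x :: (l ++ l').take t)))
        = W K t x (fun l => W K (2 * B - t) (lst x l) (fun l' => ind (∀ y ∈ l', y ∉ x :: l))) := by
      refine W_congr K t x fun l hl => W_congr K _ _ fun l' _ => ind_congr ?_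
      have a1 : (l ++ l').drop t = l' := by rw [← hl]; simp
      have a2 : (l ++ l').take t = l := by rw [← hl]; simp
      rw [a1, a2]
    rw [e2, cut_prob]
    exact Rc_lower hP (2 * B - t) t x (by omega) (by omega)
  have h3 := Finset.sum_le_sum h2
  rw [Finset.sum_const, Nat.card_Ico, nsmul_eq_mul] at h3
  refine le_trans (le_of_eq ?_) h3
  rw [Nat.cast_sub hB]
  push_cast
  ring

end Pool.Agent.helper20.HP
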