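import Pool.Agent.helper65.HP.MacD

/-! # MP_5ae64c_pr, macroscopic step, part E: the forward estimate for killed words -/

open scoped BigOperators Topology
open Filter MeasureTheory

namespace Pool.Agent.helper20.HP

variable {V : Type} [Fintype V] [DecidableEq V] {K : HW V} {θ : ℝ} {h : ℕ}

omit [Fintype V] [DecidableEq V] in
theorem MacE_nodup {Γ : List V} (hΓ : Γ.Nodup) (i : Fin Γ.length) :
    (Γ.get i :: Γ.drop (i + 1)).Nodup := by
  have : Γ.get i :: Γ.drop (i + 1) = Γ.drop i := by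
    rw [List.get_eq_getElem]
    exact List.getElem_cons_drop i.2
  rw [this]
  exact hΓ.sublist (List.drop_sublist _ _)

/-- upper bound for a killed sum by splitting off the last `k` steps -/
theorem MacE_km_le_split (Γ : List V) (N k : ℕ) (f : V → List V → List V → ℝ)
    (hf : ∀ x ρ l, 0 ≤ f x ρ l) :
    km K Γ N f ≤ km K Γ k f + km K Γ N (fun x ρ l =>
      W K k (lst x l) (fun l' => ind (∀ y ∈ l', y ∉ Γ) * f x ρ (l ++ l'))) := by
  rw [← km_split]
  exact km_mono_N K Γ (Nat.le_add_right _ _) hf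

theorem MacE_km_split_le (Γ : List V) (N k : ℕ) (f : V → List V → List V → ℝ)
    (hf : ∀ x ρ l, 0 ≤ f x ρ l) :
    km K Γ N (fun x ρ l =>
      W K k (lst x l) (fun l' => ind (∀ y ∈ l', y ∉ Γ) * f x ρ (l ++ l'))) ≤ km K Γ (N + k) f := by
  rw [km_split]
  have := km_nonneg K Γ k hf
  linarith

/-- the event of leaving the good regime within `s` steps -/
noncomputable def MacE_bad (K : HW V) (b s : ℕ) (Γ : List V) (x : V) (ρ l : List V) : ℝ :=
  W K s (lst x l) (fun l' => ind (¬ ((∀ y ∈ l', y ∉ Γ) ∧ NoLH b x ρ l l')))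

theorem MacE_bad_nonneg (b s : ℕ) (Γ : List V) (x : V) (ρ l : List V) :
    0 ≤ MacE_bad K b s Γ x ρ l := W_nonneg K _ _ fun _ _ => ind_nonneg _

theorem MacE_bad_le_one (b s : ℕ) (Γ : List V) (x : V) (ρ l : List V) :
    MacE_bad K b s Γ x ρ l ≤ 1 :=
  (W_mono K _ _ fun _ _ => ind_le_one _).trans (W_const K _ _ _).le

theorem MacE_forward (hP : Par K θ h) (Γ : List V) (hΓ : Γ.Nodup) (N r w s : ℕ) :
    km K Γ N (fun x ρ l => Mac_win r w x ρ l * MacE_bad K (2 * h) s Γ x ρ l)
      ≤ (w : ℝ) * (((2 * h : ℕ) : ℝ) * CZ θ) + (w : ℝ) * (3 / 2 * CZ θ * (((2 * h : ℕ) : ℝ) + 1))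
        + ((w : ℝ) + 4 * h) * (CP θ * ((Nat.sqrt (Fintype.card V) : ℝ) + (r + (w + 4 * h))))
          * (((s : ℝ) * ((Γ.length : ℝ) + (r + w + 4 * h)) + s * s) * (3 / (2 * (Fintype.card V : ℝ)))) := by
  have hh := hP.h_le
  have hn0 : (0 : ℝ) < Fintype.card V := by exact_mod_cast hP.card_pos
  have hc0 : (0 : ℝ) ≤ 3 / (2 * (Fintype.card V : ℝ)) := by positivity
  set b := 2 * h with hb
  have hfn : ∀ x ρ l, 0 ≤ Mac_win r w x ρ l * MacE_bad K b s Γ x ρ l := fun x ρ l =>
    mul_nonneg (MacD_win_nonneg _ _ _ _ _) (MacE_bad_nonneg _ _ _ _ _ _)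
  refine (MacE_km_le_split Γ N b _ hfn).trans ?_
  have P1 : km K Γ b (fun x ρ l => Mac_win r w x ρ l * MacE_bad K b s Γ x ρ l)
      ≤ (w : ℝ) * ((b : ℝ) * CZ θ) := by
    refine le_trans ?_ (MacD_km_short hP Γ b r w (by omega))
    refine km_mono K Γ b fun i l _ _ => ?_
    have := mul_le_mul_of_nonneg_left (MacE_bad_le_one (K := K) b s Γ (Γ.get i) (Γ.drop (i + 1)) l)
      (MacD_win_nonneg r w (Γ.get i) (Γ.drop (i + 1)) l)
    rwa [mul_one] at this
  -- pointwise estimate
  set Q : ℝ := ((s : ℝ) * ((Γ.length : ℝ) + (r + w + 4 * h)) + s * s)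
    * (3 / (2 * (Fintype.card V : ℝ))) with hQ
  have hQ0 : 0 ≤ Q := by rw [hQ]; positivity
  have P2 : km K Γ N (fun x ρ l => W K b (lst x l) (fun l' => ind (∀ y ∈ l', y ∉ Γ) *
      (Mac_win r w x ρ (l ++ l') * MacE_bad K b s Γ x ρ (l ++ l'))))
      ≤ km K Γ N (fun x ρ l => W K b (lst x l) (fun l' => ind (∀ y ∈ l', y ∉ Γ) *
        (ind (LHin b b x ρ (l ++ l')) * Mac_win r w x ρ (l ++ l'))) +
          Q * Mac_win (r - b) (w + 2 * b) x ρ l) := by
    refine km_mono K Γ N fun i l _ _ => ?_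
    set x := Γ.get i with hx
    set ρ := Γ.drop (i + 1) with hρ
    have hnd : (x :: ρ).Nodup := MacE_nodup hΓ i
    -- split according to NoLH on the last b steps
    have step1 : W K b (lst x l) (fun l' => ind (∀ y ∈ l', y ∉ Γ) *
        (Mac_win r w x ρ (l ++ l') * MacE_bad K b s Γ x ρ (l ++ l')))
        ≤ W K b (lst x l) (fun l' => ind (∀ y ∈ l', y ∉ Γ) *
          (ind (LHin b b x ρ (l ++ l')) * Mac_win r w x ρ (l ++ l')))
          + W K b (lst x l) (fun l' => Mac_win (r - b) (w + 2 * b) x ρ l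
            * W K s (lst (lst x l) l') (fun l'' =>
              MacD_G b s (lst x l) (Γ ++ run (x :: ρ) l) (l' ++ l''))) := by
      rw [← W_add]
      refine W_mono K b _ fun l' hl' => ?_
      have hbad := MacE_bad_nonneg (K := K) b s Γ x ρ (l ++ l')
      have hbad1 := MacE_bad_le_one (K := K) b s Γ x ρ (l ++ l')
      have hw0 := MacD_win_nonneg r w x ρ (l ++ l')
      have hW0 : 0 ≤ Mac_win (r - b) (w + 2 * b) x ρ l := MacD_win_nonneg _ _ _ _ _
      have hG0 : 0 ≤ W K s (lst (lst x l) l') (fun l'' =>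
              MacD_G b s (lst x l) (Γ ++ run (x :: ρ) l) (l' ++ l'')) :=
        W_nonneg K _ _ fun _ _ => MacD_G_nonneg _ _ _ _ _
      by_cases hLH : LHin b b x ρ (l ++ l')
      · rw [ind_true hLH, one_mul]
        have h1 : ind (∀ y ∈ l', y ∉ Γ) * (Mac_win r w x ρ (l ++ l') * MacE_bad K b s Γ x ρ (l ++ l'))
            ≤ ind (∀ y ∈ l', y ∉ Γ) * Mac_win r w x ρ (l ++ l') := by
          refine mul_le_mul_of_nonneg_left ?_ (ind_nonneg _)
          nlinarith
        have h2 := mul_nonneg hW0 hG0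
        linarith
      · rw [ind_false hLH, zero_mul, mul_zero, zero_add]
        have hno : NoLH b x ρ l l' := (not_LHin_iff b b x ρ l l' hl').1 hLH
        -- the level window at the earlier time
        have hwin : Mac_win r w x ρ (l ++ l') ≤ Mac_win (r - b) (w + 2 * b) x ρ l := by
          refine ind_mono ?_
          rintro ⟨h1, h2⟩
          have h3 := NoLH_drop b x ρ l l' hnd (by omega) hno
          have h4 : (run (x :: ρ) (l ++ l')).length ≤ (run (x :: ρ) l).length + b := by
            rw [run_append]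
            have := run_length_le (run (x :: ρ) l) l'
            omega
          have h5 : 1 ≤ (run (x :: ρ) l).length := by
            obtain ⟨τ, hτ⟩ := run_head x ρ l
            rw [hτ]
            simp
          constructor <;> omega
        have hbadG : MacE_bad K b s Γ x ρ (l ++ l') ≤ W K s (lst (lst x l) l') (fun l'' =>
              MacD_G b s (lst x l) (Γ ++ run (x :: ρ) l) (l' ++ l'')) := by
          unfold MacE_bad
          rw [lst_append]
          refine W_mono K s _ fun l'' hl'' => ?_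
          by_cases hg : (∀ y ∈ l'', y ∉ Γ) ∧ NoLH b x ρ (l ++ l') l''
          · rw [ind_false (not_not.2 hg)]
            exact MacD_G_nonneg _ _ _ _ _
          · rw [ind_true hg]
            exact MacD_event b s Γ x ρ l l' l'' hl' hl'' hg (lst x l)
        calc ind (∀ y ∈ l', y ∉ Γ) * (Mac_win r w x ρ (l ++ l') * MacE_bad K b s Γ x ρ (l ++ l'))
            ≤ 1 * (Mac_win r w x ρ (l ++ l') * MacE_bad K b s Γ x ρ (l ++ l')) :=
              mul_le_mul_of_nonneg_right (ind_le_one _) (mul_nonneg hw0 hbad)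
          _ ≤ 1 * (Mac_win (r - b) (w + 2 * b) x ρ l * W K s (lst (lst x l) l') (fun l'' =>
              MacD_G b s (lst x l) (Γ ++ run (x :: ρ) l) (l' ++ l''))) := by
              rw [one_mul, one_mul]
              exact mul_le_mul hwin hbadG hbad hW0
          _ = _ := one_mul _
    refine step1.trans (add_le_add le_rfl ?_)
    rw [W_mul_left, ← W_split]
    by_cases hwin : r - b + 1 ≤ (run (x :: ρ) l).length ∧
        (run (x :: ρ) l).length < r - b + (w + 2 * b) + 1
    · have h1 := MacD_G_bound (K := K) hP s (lst x l) (Γ ++ run (x :: ρ) l)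
      have h2 : ((Γ ++ run (x :: ρ) l).length : ℝ) ≤ (Γ.length : ℝ) + (r + w + 4 * h) := by
        rw [List.length_append]
        have : (run (x :: ρ) l).length ≤ r + w + 4 * h := by omega
        have h3 : ((run (x :: ρ) l).length : ℝ) ≤ r + w + 4 * h := by exact_mod_cast this
        push_cast
        linarith
      have h3 : W K (b + s) (lst x l) (fun m => MacD_G b s (lst x l) (Γ ++ run (x :: ρ) l) m) ≤ Q := by
        refine h1.trans ?_
        rw [hQ]
        gcongr
      have h4 : Mac_win (r - b) (w + 2 * b) x ρ l = 1 := ind_true hwin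
      rw [h4]
      linarith
    · have h4 : Mac_win (r - b) (w + 2 * b) x ρ l = 0 := ind_false hwin
      rw [h4]
      simp
  have P3 : km K Γ N (fun x ρ l => W K b (lst x l) (fun l' => ind (∀ y ∈ l', y ∉ Γ) *
        (ind (LHin b b x ρ (l ++ l')) * Mac_win r w x ρ (l ++ l'))) +
          Q * Mac_win (r - b) (w + 2 * b) x ρ l)
      ≤ (w : ℝ) * (3 / 2 * CZ θ * ((b : ℝ) + 1))
        + Q * (((w : ℝ) + 4 * h) * (CP θ * ((Nat.sqrt (Fintype.card V) : ℝ) + (r + (w + 4 * h))))) := by
    rw [km_add, km_mul_left]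
    refine add_le_add ?_ (mul_le_mul_of_nonneg_left ?_ hQ0)
    · refine (MacE_km_split_le Γ N b (fun x ρ l => ind (LHin b b x ρ l) * Mac_win r w x ρ l)
        fun x ρ l => mul_nonneg (ind_nonneg _) (MacD_win_nonneg _ _ _ _ _)).trans ?_
      exact MacD_km_LH hP Γ hΓ (N + b) r w b (by omega)
    · refine (MacD_km_win_le hP Γ hΓ N (r - b) (w + 2 * b)).trans ?_
      have hCP : 0 ≤ CP θ := by
        unfold CP CZ
        have := hP.one_le
        positivity
      have h1 : ((w + 2 * b : ℕ) : ℝ) = (w : ℝ) + 4 * h := by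
        rw [hb]; push_cast; ring
      have h2 : ((r - b : ℕ) : ℝ) ≤ r := by exact_mod_cast Nat.sub_le r b
      rw [h1]
      gcongr
  have P4 := P2.trans P3
  have e1 : Q * (((w : ℝ) + 4 * h) * (CP θ * ((Nat.sqrt (Fintype.card V) : ℝ) + (r + (w + 4 * h)))))
      = ((w : ℝ) + 4 * h) * (CP θ * ((Nat.sqrt (Fintype.card V) : ℝ) + (r + (w + 4 * h)))) * Q := by
    ring
  rw [e1] at P4
  linarith

end Pool.Agent.helper20.HP
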